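import Pool.Agent.H20.EGS.Lower

/-!
# The assignment of cofactors to the large primes
-/

open Finset Filter Topology

namespace H20.EGS

/-- the mass of the class `j` -/
noncomputable def w (j : ℕ) : ℝ := 1 / (((j : ℝ) + 1) * (2 * j + 1))

lemma w_nonneg (j : ℕ) : 0 ≤ w j := by unfold w; positivity

lemma w_pos (j : ℕ) : 0 < w j := by unfold w; positivity

lemma cstar_eq : cstar = 4029639598 / 25970038185 := by
  have hB : ∑ q ∈ (Finset.range 24).filter Nat.Prime, 1 / ((q : ℝ) - 1) = 17927 / 7920 := by
    have h : (Finset.range 24).filter Nat.Prime = {2, 3, 5, 7, 11, 13, 17, 19, 23} := by decide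
    rw [h]
    norm_num
  have hW : ∑ j ∈ Finset.Icc (1 : ℕ) 13, 1 / (((j : ℝ) + 1) * (2 * j + 1)) =
      2014819799 / 5736673800 := by
    have h : Finset.Icc (1 : ℕ) 13 = {1, 2, 3, 4, 5, 6, 7, 8, 9, 10, 11, 12, 13} := by decide
    rw [h]
    norm_num
  unfold cstar
  rw [hB, hW]
  norm_num

lemma w_lt {j : ℕ} (hj : 1 ≤ j) : w j ≤ 1 / 2 * (1 / (j : ℝ) - 1 / ((j + 1 : ℕ) : ℝ)) := by
  unfold w
  have hj' : (1 : ℝ) ≤ j := by exact_mod_cast hj
  push_cast
  rw [div_sub_div _ _ (by positivity) (by positivity), div_mul_div_comm,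
    div_le_div_iff₀ (by positivity) (by positivity)]
  nlinarith

/-- telescoping -/
lemma w_sum {a b : ℕ} (ha : 1 ≤ a) (hab : a ≤ b) :
    ∑ j ∈ Ico a b, w j ≤ 1 / 2 * (1 / (a : ℝ) - 1 / (b : ℝ)) := by
  induction b, hab using Nat.le_induction with
  | base => simp
  | succ k hk ih =>
    rw [sum_Ico_succ_top hk]
    have := w_lt (j := k) (by omega)
    linarith

/-- The table of blocks: primes `r` and ranges `[A, B)` of classes. -/
def tbl : List (ℕ × ℕ × ℕ) :=
  [(29, 14, 16), (31, 16, 18), (37, 18, 20), (41, 20, 23), (43, 23, 27), (47, 27, 32),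
   (53, 32, 38), (59, 38, 46), (61, 46, 58), (67, 58, 67), (83, 67, 83), (107, 83, 105),
   (131, 105, 131), (167, 131, 167), (211, 167, 211), (269, 211, 269), (347, 269, 342),
   (439, 342, 435), (557, 435, 554), (709, 554, 706), (907, 706, 841)]

/-- block prime -/
def blk (j : ℕ) : ℕ :=
  if j < 16 then 29 else if j < 18 then 31 else if j < 20 then 37 else if j < 23 then 41 else
  if j < 27 then 43 else if j < 32 then 47 else if j < 38 then 53 else if j < 46 then 59 else
  if j < 58 then 61 else if j < 67 then 67 else if j < 83 then 83 else if j < 105 then 107 else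
  if j < 131 then 131 else if j < 167 then 167 else if j < 211 then 211 else
  if j < 269 then 269 else if j < 342 then 347 else if j < 435 then 439 else
  if j < 554 then 557 else if j < 706 then 709 else 907

lemma blk_spec {j : ℕ} (h1 : 14 ≤ j) (h2 : j < 841) :
    ∃ A B, (blk j, A, B) ∈ tbl ∧ A ≤ j ∧ j < B := by
  unfold blk
  by_cases c16 : j < 16
  · rw [if_pos c16]
    exact ⟨14, 16, by decide, by omega, c16⟩
  rw [if_neg c16]
  by_cases c18 : j < 18
  · rw [if_pos c18]
    exact ⟨16, 18, by decide, by omega, c18⟩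
  rw [if_neg c18]
  by_cases c20 : j < 20
  · rw [if_pos c20]
    exact ⟨18, 20, by decide, by omega, c20⟩
  rw [if_neg c20]
  by_cases c23 : j < 23
  · rw [if_pos c23]
    exact ⟨20, 23, by decide, by omega, c23⟩
  rw [if_neg c23]
  by_cases c27 : j < 27
  · rw [if_pos c27]
    exact ⟨23, 27, by decide, by omega, c27⟩
  rw [if_neg c27]
  by_cases c32 : j < 32
  · rw [if_pos c32]
    exact ⟨27, 32, by decide, by omega, c32⟩
  rw [if_neg c32]
  by_cases c38 : j < 38
  · rw [if_pos c38]
    exact ⟨32, 38, by decide, by omega, c38⟩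
  rw [if_neg c38]
  by_cases c46 : j < 46
  · rw [if_pos c46]
    exact ⟨38, 46, by decide, by omega, c46⟩
  rw [if_neg c46]
  by_cases c58 : j < 58
  · rw [if_pos c58]
    exact ⟨46, 58, by decide, by omega, c58⟩
  rw [if_neg c58]
  by_cases c67 : j < 67
  · rw [if_pos c67]
    exact ⟨58, 67, by decide, by omega, c67⟩
  rw [if_neg c67]
  by_cases c83 : j < 83
  · rw [if_pos c83]
    exact ⟨67, 83, by decide, by omega, c83⟩
  rw [if_neg c83]
  by_cases c105 : j < 105
  · rw [if_pos c105]
    exact ⟨83, 105, by decide, by omega, c105⟩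
  rw [if_neg c105]
  by_cases c131 : j < 131
  · rw [if_pos c131]
    exact ⟨105, 131, by decide, by omega, c131⟩
  rw [if_neg c131]
  by_cases c167 : j < 167
  · rw [if_pos c167]
    exact ⟨131, 167, by decide, by omega, c167⟩
  rw [if_neg c167]
  by_cases c211 : j < 211
  · rw [if_pos c211]
    exact ⟨167, 211, by decide, by omega, c211⟩
  rw [if_neg c211]
  by_cases c269 : j < 269
  · rw [if_pos c269]
    exact ⟨211, 269, by decide, by omega, c269⟩
  rw [if_neg c269]
  by_cases c342 : j < 342
  · rw [if_pos c342]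
    exact ⟨269, 342, by decide, by omega, c342⟩
  rw [if_neg c342]
  by_cases c435 : j < 435
  · rw [if_pos c435]
    exact ⟨342, 435, by decide, by omega, c435⟩
  rw [if_neg c435]
  by_cases c554 : j < 554
  · rw [if_pos c554]
    exact ⟨435, 554, by decide, by omega, c554⟩
  rw [if_neg c554]
  by_cases c706 : j < 706
  · rw [if_pos c706]
    exact ⟨554, 706, by decide, by omega, c706⟩
  rw [if_neg c706]
  exact ⟨706, 841, by decide, by omega, h2⟩

lemma tbl_fun : ∀ t ∈ tbl, ∀ t' ∈ tbl, t.1 = t'.1 → t = t' := by decide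

lemma tbl_prime : ∀ t ∈ tbl, t.1.Prime := by
  intro t ht
  simp only [tbl, List.mem_cons, List.not_mem_nil, or_false] at ht
  rcases ht with h | h | h | h | h | h | h | h | h | h | h | h | h | h | h | h | h | h | h | h | h <;>
    (subst h; norm_num)

lemma tbl_range : ∀ t ∈ tbl, t.1 ≤ 2 * t.2.1 + 1 ∧ t.2.2 ≤ t.1 ∧ 14 ≤ t.2.1 ∧ t.2.1 ≤ t.2.2 := by
  decide

lemma tbl_num : ∀ t ∈ tbl, 1 / 2 * (1 / (t.2.1 : ℝ) - 1 / (t.2.2 : ℝ)) +
    (if t.1 = 29 then 1 / 1682 else 1 / (58 * (t.1 : ℝ))) ≤ cstar / ((t.1 : ℝ) - 1) := by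
  intro t ht
  rw [cstar_eq]
  simp only [tbl, List.mem_cons, List.not_mem_nil, or_false] at ht
  rcases ht with h | h | h | h | h | h | h | h | h | h | h | h | h | h | h | h | h | h | h | h | h <;>
    (subst h; norm_num)

/-- Usage of the block primes. -/
lemma blk_usage (q : ℕ) :
    (∑ j ∈ Ico 14 841, if blk j = q then w j else 0) = 0 ∨
    ∃ A B, (q, A, B) ∈ tbl ∧
      (∑ j ∈ Ico 14 841, if blk j = q then w j else 0) ≤ 1 / 2 * (1 / (A : ℝ) - 1 / (B : ℝ)) := by
  by_cases h : ∃ j ∈ Ico 14 841, blk j = q
  · right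
    obtain ⟨j, hj, hjq⟩ := h
    rw [mem_Ico] at hj
    obtain ⟨A, B, hm, h1, h2⟩ := blk_spec hj.1 hj.2
    rw [hjq] at hm
    refine ⟨A, B, hm, ?_⟩
    have hr := tbl_range _ hm
    simp only at hr
    rw [← sum_filter]
    refine le_trans (sum_le_sum_of_subset_of_nonneg (t := Ico A B) ?_ (fun i _ _ => w_nonneg i))
      (w_sum (by omega) hr.2.2.2)
    intro i hi
    rw [mem_filter, mem_Ico] at hi
    obtain ⟨A', B', hm', h1', h2'⟩ := blk_spec hi.1.1 hi.1.2
    rw [hi.2] at hm'
    have := tbl_fun _ hm _ hm' rfl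
    simp only [Prod.mk.injEq, true_and] at this
    rw [mem_Ico]
    omega
  · left
    push Not at h
    apply sum_eq_zero
    intro j hj
    rw [if_neg (h j hj)]

/-- first cofactor for small classes -/
def a1 (j : ℕ) : ℕ :=
  if j = 0 then 1 else if j = 1 then 2 else if j = 2 then 3 else if j = 3 then 5 else
  if j = 4 then 5 else if j = 5 then 7 else if j = 6 then 11 else if j = 7 then 13 else
  if j = 8 then 13 else if j = 9 then 17 else if j = 10 then 19 else if j = 11 then 19 else 23

/-- second cofactor for small classes -/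
def a2 (j : ℕ) : ℕ :=
  if j = 0 then 1 else if j = 1 then 3 else if j = 2 then 5 else if j = 3 then 5 else
  if j = 4 then 7 else if j = 5 then 11 else if j = 6 then 13 else if j = 7 then 13 else
  if j = 8 then 17 else if j = 9 then 19 else if j = 10 then 19 else if j = 11 then 23 else 23

/-- mass given to the first cofactor -/
noncomputable def s0 (j : ℕ) : ℝ :=
  if j = 0 then 1 else if j = 1 then 4029639598/25970038185 else
  if j = 2 then 3432239399/51940076370 else
  if j = 3 then 1/28 else if j = 4 then 17251295/6925343516 else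
  if j = 5 then 5536939/903305676 else if j = 6 then 37106416381/5713408400700 else
  if j = 7 then 1/120 else if j = 8 then 3520187831/34280450404200 else
  if j = 9 then 55955111633/17140225202100 else if j = 10 then 1/231 else
  if j = 11 then 117890228609/51420675606300 else if j = 12 then 1/325 else 1/378

lemma s0_range {j : ℕ} (hj : j < 14) : 0 ≤ s0 j ∧ s0 j ≤ w j := by
  unfold s0 w
  interval_cases j <;> norm_num

lemma a_range {j : ℕ} (hj : j < 14) : j + 1 ≤ a1 j ∧ a1 j ≤ 2 * j + 1 ∧ j + 1 ≤ a2 j ∧
    a2 j ≤ 2 * j + 1 := by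
  unfold a1 a2
  interval_cases j <;> norm_num

lemma a_prime {j : ℕ} (hj : j < 14) (hj0 : j ≠ 0) : (a1 j).Prime ∧ (a2 j).Prime := by
  unfold a1 a2
  interval_cases j <;> first | (exfalso; exact hj0 rfl) | norm_num

/-- Usage from the small classes. -/
lemma small_usage (q : ℕ) (hq : q.Prime) :
    ((q : ℝ) - 1) * ∑ j ∈ range 14, (s0 j * (if a1 j = q then 1 else 0) +
      (w j - s0 j) * (if a2 j = q then 1 else 0)) = if q ≤ 23 then cstar else 0 := by
  rw [cstar_eq]
  have hq1 := hq.one_lt
  simp only [sum_range_succ, sum_range_zero, a1, a2, s0, w]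
  by_cases h23 : q ≤ 23
  · rw [if_pos h23]
    have : q = 2 ∨ q = 3 ∨ q = 5 ∨ q = 7 ∨ q = 11 ∨ q = 13 ∨ q = 17 ∨ q = 19 ∨ q = 23 := by
      interval_cases q <;> first | omega | (exfalso; revert hq; norm_num)
    rcases this with h | h | h | h | h | h | h | h | h <;> (subst h; norm_num)
  · rw [if_neg h23]
    have e : ∀ k : ℕ, k ≤ 23 → ¬ (k = q) := fun k hk h => by omega
    norm_num [e 1 (by norm_num), e 2 (by norm_num), e 3 (by norm_num), e 5 (by norm_num),
      e 7 (by norm_num), e 11 (by norm_num), e 13 (by norm_num), e 17 (by norm_num),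
      e 19 (by norm_num), e 23 (by norm_num)]

/-- Summability of the dyadic tail. -/
lemma dyadic_tail {ε : ℝ} (hε : 0 < ε) : ∃ J : ℕ, 841 ≤ J ∧ ∀ K : ℕ,
    ∑ j ∈ Ico J K, w j * ((Nat.log 2 j : ℝ) + 1) ≤ ε := by
  have hsum : Summable fun j : ℕ => w j * ((Nat.log 2 j : ℝ) + 1) := by
    have h1 : Summable fun j : ℕ => (5 : ℝ) * (1 / (j : ℝ) ^ (3 / 2 : ℝ)) :=
      (Real.summable_one_div_nat_rpow.2 (by norm_num)).mul_left 5
    refine Summable.of_norm_bounded_eventually_nat h1 ?_
    filter_upwards [eventually_ge_atTop 1] with j hj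
    have hj' : (1 : ℝ) ≤ j := by exact_mod_cast hj
    have hj0 : (0 : ℝ) < j := by linarith
    rw [Real.norm_of_nonneg (mul_nonneg (w_nonneg j) (by positivity))]
    have h2 : ((Nat.log 2 j : ℝ) + 1) ≤ 5 * (j : ℝ) ^ (1 / 2 : ℝ) := by
      have e1 : (2 : ℝ) ^ (Nat.log 2 j) ≤ (j : ℝ) := by
        exact_mod_cast Nat.pow_log_le_self 2 (by omega)
      have e2 := Real.log_le_log (by positivity) e1
      rw [Real.log_pow] at e2
      have e3 : Real.log j ≤ (j : ℝ) ^ (1 / 2 : ℝ) / (1 / 2) :=
        Real.log_le_rpow_div hj0.le (by norm_num)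
      have e4 : (1 / 2 : ℝ) < Real.log 2 := by linarith [Real.log_two_gt_d9]
      have e5 : (0 : ℝ) ≤ Nat.log 2 j := Nat.cast_nonneg _
      have e6 : (1 : ℝ) ≤ (j : ℝ) ^ (1 / 2 : ℝ) := Real.one_le_rpow hj' (by norm_num)
      nlinarith
    have h3 : w j ≤ 1 / (j : ℝ) ^ (2 : ℝ) := by
      unfold w
      rw [Real.rpow_two]
      apply one_div_le_one_div_of_le (by positivity)
      nlinarith
    calc w j * ((Nat.log 2 j : ℝ) + 1) ≤ 1 / (j : ℝ) ^ (2 : ℝ) * (5 * (j : ℝ) ^ (1 / 2 : ℝ)) :=
          mul_le_mul h3 h2 (by positivity) (by positivity)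
      _ = 5 * (1 / (j : ℝ) ^ (3 / 2 : ℝ)) := by
          have : (j : ℝ) ^ (2 : ℝ) = (j : ℝ) ^ (3 / 2 : ℝ) * (j : ℝ) ^ (1 / 2 : ℝ) := by
            rw [← Real.rpow_add hj0]; norm_num
          rw [this]
          have h5 : (0 : ℝ) < (j : ℝ) ^ (1 / 2 : ℝ) := by positivity
          have h6 : (0 : ℝ) < (j : ℝ) ^ (3 / 2 : ℝ) := by positivity
          field_simp
  obtain ⟨s, hs⟩ := summable_iff_vanishing_norm.1 hsum ε hε
  refine ⟨max 841 (s.sup id + 1), le_max_left _ _, fun K => ?_⟩
  have hdisj : Disjoint (Ico (max 841 (s.sup id + 1)) K) s := by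
    rw [disjoint_left]
    intro j hj hjs
    rw [mem_Ico] at hj
    have h1 : j ≤ s.sup id := le_sup (f := id) hjs
    have h2 := (le_max_right 841 (s.sup id + 1)).trans hj.1
    omega
  exact (le_abs_self _).trans (hs _ hdisj).le

lemma fact_prime {p q : ℕ} (hp : p.Prime) (hq : q.Prime) :
    p.factorization q = if p = q then 1 else 0 := by
  rw [hp.factorization, Finsupp.single_apply]

theorem assign {c : ℝ} (hc : cstar < c) : ∃ (K₁ : ℕ) (η : ℝ) (A1 A2 : ℕ → ℕ) (s : ℕ → ℝ),
    0 < η ∧ η ≤ 1 ∧
    (∀ j, j + 1 ≤ A1 j ∧ A1 j ≤ 2 * j + 1 ∧ j + 1 ≤ A2 j ∧ A2 j ≤ 2 * j + 1) ∧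
    (∀ j, 0 ≤ s j ∧ s j ≤ w j) ∧
    (∀ j p, p.Prime → (p ∣ A1 j ∨ p ∣ A2 j) → p ≤ K₁) ∧
    ∀ K q : ℕ, q.Prime → ((q : ℝ) - 1) * ∑ j ∈ range K,
      (s j * ((A1 j).factorization q : ℝ) + (w j - s j) * ((A2 j).factorization q : ℝ)) ≤
        (1 - η) * c := by
  have hcs : (0 : ℝ) < cstar := by rw [cstar_eq]; norm_num
  have hc0 : 0 < c := hcs.trans hc
  obtain ⟨J, hJ, htail⟩ := dyadic_tail (ε := (c - cstar) / 2) (by linarith)
  -- the Bertrand primes
  have hber : ∀ j : ℕ, ∃ r : ℕ, 841 ≤ j → r.Prime ∧ j / 29 < r ∧ r ≤ 2 * (j / 29) := by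
    intro j
    by_cases hj : 841 ≤ j
    · obtain ⟨p, hp, h1, h2⟩ := Nat.exists_prime_lt_and_le_two_mul (j / 29) (by omega)
      exact ⟨p, fun _ => ⟨hp, h1, h2⟩⟩
    · exact ⟨0, fun h => absurd h hj⟩
  choose r hr using hber
  set A1 : ℕ → ℕ := fun j => if j < 14 then a1 j else if j < 841 then blk j else
    if j < J then 29 * r j else 2 ^ (Nat.log 2 j + 1) with hA1
  set A2 : ℕ → ℕ := fun j => if j < 14 then a2 j else A1 j with hA2
  set s : ℕ → ℝ := fun j => if j < 14 then s0 j else w j with hs
  have hη : 0 < (c - cstar) / (2 * c) := div_pos (by linarith) (by linarith)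
  have hη1 : (c - cstar) / (2 * c) ≤ 1 := by
    rw [div_le_one (by linarith)]; linarith
  have hηc : (1 - (c - cstar) / (2 * c)) * c = (c + cstar) / 2 := by
    field_simp
    ring
  have hA1r : ∀ j, j + 1 ≤ A1 j ∧ A1 j ≤ 2 * j + 1 := by
    intro j
    simp only [hA1]
    split_ifs with h1 h2 h3
    · have := a_range h1; omega
    · obtain ⟨A, B, hm, h4, h5⟩ := blk_spec (by omega : 14 ≤ j) h2
      have := tbl_range _ hm
      simp only at this
      omega
    · have := hr j (by omega)
      omega
    · have e1 : 2 ^ (Nat.log 2 j) ≤ j := Nat.pow_log_le_self 2 (by omega)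
      have e2 : j < 2 ^ (Nat.log 2 j + 1) := Nat.lt_pow_succ_log_self (by norm_num) j
      rw [pow_succ] at e2 ⊢
      omega
  have hA2r : ∀ j, j + 1 ≤ A2 j ∧ A2 j ≤ 2 * j + 1 := by
    intro j
    simp only [hA2]
    split_ifs with h1
    · have := a_range h1; omega
    · exact hA1r j
  refine ⟨2 * J + 907, (c - cstar) / (2 * c), A1, A2, s, hη, hη1,
    fun j => ⟨(hA1r j).1, (hA1r j).2, (hA2r j).1, (hA2r j).2⟩, ?_, ?_, ?_⟩
  · intro j
    simp only [hs]
    split_ifs with h1
    · exact s0_range h1
    · exact ⟨w_nonneg j, le_rfl⟩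
  · have hA1p : ∀ j p : ℕ, p.Prime → p ∣ A1 j → p ≤ 2 * J + 907 := by
      intro j p hp hpA
      by_cases h : J ≤ j
      · have : A1 j = 2 ^ (Nat.log 2 j + 1) := by
          simp only [hA1]
          rw [if_neg (by omega), if_neg (by omega), if_neg (by omega)]
        rw [this] at hpA
        have := Nat.le_of_dvd (by norm_num) (hp.dvd_of_dvd_pow hpA)
        omega
      · have h1 := (hA1r j)
        have := Nat.le_of_dvd (by omega) hpA
        omega
    rintro j p hp (h | h)
    · exact hA1p j p hp h
    · by_cases h14 : j < 14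
      · have h1 := hA2r j
        have := Nat.le_of_dvd (by omega) h
        omega
      · have : A2 j = A1 j := by simp only [hA2]; rw [if_neg h14]
        rw [this] at h
        exact hA1p j p hp h
  · intro K q hq
    rw [hηc]
    have hq1 : (1 : ℝ) < q := by exact_mod_cast hq.one_lt
    set t : ℕ → ℝ := fun j =>
      (s j * ((A1 j).factorization q : ℝ) + (w j - s j) * ((A2 j).factorization q : ℝ)) with ht
    have hsr : ∀ j, 0 ≤ s j ∧ s j ≤ w j := by
      intro j
      simp only [hs]
      split_ifs with h1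
      · exact s0_range h1
      · exact ⟨w_nonneg j, le_rfl⟩
    have ht0 : ∀ j, 0 ≤ t j := by
      intro j
      have := hsr j
      simp only [ht]
      have h1 : 0 ≤ w j - s j := by linarith
      have h2 := this.1
      positivity
    set K' := max K J with hK'
    have hsplit : ∑ j ∈ range K', t j = ∑ j ∈ range 14, t j + ∑ j ∈ Ico 14 841, t j +
        ∑ j ∈ Ico 841 J, t j + ∑ j ∈ Ico J K', t j := by
      have e : J ≤ K' := le_max_right _ _
      rw [← sum_range_add_sum_Ico t (show 14 ≤ K' by omega),
        ← sum_Ico_consecutive t (show 14 ≤ 841 by omega) (show 841 ≤ K' by omega),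
        ← sum_Ico_consecutive t hJ e]
      ring
    have hle : ∑ j ∈ range K, t j ≤ ∑ j ∈ range K', t j :=
      sum_le_sum_of_subset_of_nonneg (range_mono (le_max_left _ _)) (fun j _ _ => ht0 j)
    have hS1 : ((q : ℝ) - 1) * ∑ j ∈ range 14, t j = if q ≤ 23 then cstar else 0 := by
      rw [← small_usage q hq]
      congr 1
      apply sum_congr rfl
      intro j hj
      rw [mem_range] at hj
      simp only [ht, hA1, hA2, hs]
      rw [if_pos hj, if_pos hj, if_pos hj]
      by_cases hj0 : j = 0
      · subst hj0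
        have : ¬ (1 = q) := fun h => hq.one_lt.ne h
        simp [a1, a2, this]
      · have hp := a_prime hj hj0
        rw [fact_prime hp.1 hq, fact_prime hp.2 hq]
        push_cast
        rfl
    have hS2 : ∑ j ∈ Ico 14 841, t j = ∑ j ∈ Ico 14 841, if blk j = q then w j else 0 := by
      apply sum_congr rfl
      intro j hj
      rw [mem_Ico] at hj
      obtain ⟨A, B, hm, h4, h5⟩ := blk_spec hj.1 hj.2
      have hp := tbl_prime _ hm
      simp only at hp
      have n1 : ¬ j < 14 := by omega
      simp only [ht, hA1, hA2, hs, if_neg n1, if_pos hj.2, fact_prime hp hq]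
      split_ifs <;> simp
    have hS3 : ∑ j ∈ Ico 841 J, t j ≤ if q < 29 then 0 else if q = 29 then 1 / 1682 else
        1 / (58 * (q : ℝ)) := by
      have h0 : ∀ j ∈ Ico 841 J, t j = w j * ((29 * r j).factorization q : ℝ) := by
        intro j hj
        rw [mem_Ico] at hj
        have n1 : ¬ j < 14 := by omega
        have n2 : ¬ j < 841 := by omega
        simp only [ht, hA1, hA2, hs, if_neg n1, if_neg n2, if_pos hj.2]
        ring
      have h1 : ∀ j ∈ Ico 841 J, ((29 * r j).factorization q : ℝ) =
          (if 29 = q then 1 else 0) + (if r j = q then 1 else 0) := by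
        intro j hj
        rw [mem_Ico] at hj
        have hrj := hr j hj.1
        rw [Nat.factorization_mul (by norm_num) hrj.1.ne_zero]
        simp only [Finsupp.coe_add, Pi.add_apply]
        rw [fact_prime (by norm_num) hq, fact_prime hrj.1 hq]
        push_cast
        rfl
      rw [sum_congr rfl h0]
      split_ifs with h2 h3
      · apply le_of_eq
        apply sum_eq_zero
        intro j hj
        rw [h1 j hj]
        rw [mem_Ico] at hj
        have hrj := hr j hj.1
        rw [if_neg (by omega), if_neg (by omega)]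
        simp
      · calc ∑ j ∈ Ico 841 J, w j * ((29 * r j).factorization q : ℝ) =
              ∑ j ∈ Ico 841 J, w j := by
              apply sum_congr rfl
              intro j hj
              rw [h1 j hj]
              rw [mem_Ico] at hj
              have hrj := hr j hj.1
              rw [if_pos h3.symm, if_neg (by omega)]
              simp
          _ ≤ 1 / 2 * (1 / ((841 : ℕ) : ℝ) - 1 / (J : ℝ)) := w_sum (by norm_num) hJ
          _ ≤ 1 / 1682 := by
              have : (0 : ℝ) ≤ 1 / (J : ℝ) := by positivity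
              push_cast
              linarith
      · calc ∑ j ∈ Ico 841 J, w j * ((29 * r j).factorization q : ℝ) =
              ∑ j ∈ Ico 841 J, if r j = q then w j else 0 := by
              apply sum_congr rfl
              intro j hj
              rw [h1 j hj, if_neg (by omega)]
              split_ifs <;> simp
          _ = ∑ j ∈ (Ico 841 J).filter (fun j => r j = q), w j := by rw [sum_filter]
          _ ≤ ∑ j ∈ Ico ((29 * q + 1) / 2) (29 * q), w j := by
              apply sum_le_sum_of_subset_of_nonneg _ (fun j _ _ => w_nonneg j)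
              intro j hj
              rw [mem_filter, mem_Ico] at hj
              have hrj := hr j hj.1.1
              rw [hj.2] at hrj
              rw [mem_Ico]
              omega
          _ ≤ 1 / 2 * (1 / (((29 * q + 1) / 2 : ℕ) : ℝ) - 1 / ((29 * q : ℕ) : ℝ)) :=
              w_sum (by omega) (by omega)
          _ ≤ 1 / (58 * (q : ℝ)) := by
              have e1 : (29 * (q : ℝ)) / 2 ≤ (((29 * q + 1) / 2 : ℕ) : ℝ) := by
                rw [div_le_iff₀ (by norm_num)]
                have : 29 * q ≤ (29 * q + 1) / 2 * 2 := by omega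
                exact_mod_cast this
              have e2 : 1 / (((29 * q + 1) / 2 : ℕ) : ℝ) ≤ 1 / ((29 * (q : ℝ)) / 2) :=
                one_div_le_one_div_of_le (by positivity) e1
              have e3 : 1 / (58 * (q : ℝ)) =
                  1 / 2 * (1 / ((29 * (q : ℝ)) / 2) - 1 / ((29 * q : ℕ) : ℝ)) := by
                push_cast
                field_simp
                norm_num
              rw [e3]
              linarith
    have hS4 : ∑ j ∈ Ico J K', t j = if q = 2 then
        ∑ j ∈ Ico J K', w j * ((Nat.log 2 j : ℝ) + 1) else 0 := by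
      have h0 : ∀ j ∈ Ico J K', t j = w j * (((Nat.log 2 j : ℝ) + 1) * if 2 = q then 1 else 0) := by
        intro j hj
        rw [mem_Ico] at hj
        have n1 : ¬ j < 14 := by omega
        have n2 : ¬ j < 841 := by omega
        have n3 : ¬ j < J := by omega
        simp only [ht, hA1, hA2, hs, if_neg n1, if_neg n2, if_neg n3]
        rw [Nat.factorization_pow]
        simp only [Finsupp.coe_smul, Pi.smul_apply, smul_eq_mul]
        rw [fact_prime Nat.prime_two hq]
        push_cast
        ring
      rw [sum_congr rfl h0]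
      by_cases h2 : q = 2
      · rw [if_pos h2]
        apply sum_congr rfl
        intro j _
        rw [if_pos h2.symm, mul_one]
      · rw [if_neg h2]
        apply sum_eq_zero
        intro j _
        rw [if_neg (Ne.symm h2)]
        simp
    have hmain : ((q : ℝ) - 1) * ∑ j ∈ range K', t j ≤ (c + cstar) / 2 := by
      rw [hsplit, hS2, hS4, mul_add, mul_add, mul_add, hS1]
      by_cases h23 : q ≤ 23
      · rw [if_pos h23]
        have hb : (∑ j ∈ Ico 14 841, if blk j = q then w j else 0) = 0 := by
          apply sum_eq_zero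
          intro j hj
          rw [mem_Ico] at hj
          rw [if_neg]
          intro h
          obtain ⟨A, B, hm, h4, h5⟩ := blk_spec hj.1 hj.2
          have := tbl_range _ hm
          simp only at this
          -- block primes are at least 29
          have h29 : ∀ t ∈ tbl, 29 ≤ t.1 := by decide
          have := h29 _ hm
          simp only at this
          omega
        rw [hb, if_pos (by omega : q < 29)] at *
        have h3' : ((q : ℝ) - 1) * ∑ j ∈ Ico 841 J, t j ≤ 0 :=
          mul_nonpos_of_nonneg_of_nonpos (by linarith) hS3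
        by_cases h2 : q = 2
        · rw [if_pos h2]
          have := htail K'
          have e2 : (q : ℝ) - 1 = 1 := by rw [h2]; norm_num
          rw [e2, one_mul] at h3' ⊢
          linarith
        · rw [if_neg h2]
          linarith
      · have h29 : 29 ≤ q := by
          by_contra hcon
          push Not at hcon
          have : 23 < q := by omega
          interval_cases q <;> revert hq <;> norm_num
        rw [if_neg h23, if_neg (by omega : ¬ q = 2)]
        rw [if_neg (by omega : ¬ q < 29)] at hS3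
        have hkey : ((q : ℝ) - 1) * ((∑ j ∈ Ico 14 841, if blk j = q then w j else 0) +
            ∑ j ∈ Ico 841 J, t j) ≤ cstar := by
          have hq29 : (29 : ℝ) ≤ q := by exact_mod_cast h29
          rcases blk_usage q with h0 | ⟨A, B, hm, hAB⟩
          · rw [h0, zero_add]
            have h1 : ∑ j ∈ Ico 841 J, t j ≤ 1 / (8 * (q : ℝ)) := by
              refine hS3.trans ?_
              split_ifs with h3
              · rw [h3]; norm_num
              · apply one_div_le_one_div_of_le (by positivity)
                linarith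
            have h2 : ((q : ℝ) - 1) * (1 / (8 * (q : ℝ))) ≤ 1 / 8 := by
              rw [mul_one_div, div_le_div_iff₀ (by positivity) (by norm_num)]
              linarith
            have h3 : (1 / 8 : ℝ) ≤ cstar := by rw [cstar_eq]; norm_num
            exact ((mul_le_mul_of_nonneg_left h1 (by linarith)).trans h2).trans h3
          · have := tbl_num _ hm
            simp only at this
            rw [le_div_iff₀ (by linarith)] at this
            rw [mul_comm] at this
            refine le_trans (mul_le_mul_of_nonneg_left ?_ (by linarith)) this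
            exact add_le_add hAB hS3
        rw [mul_add] at hkey
        linarith
    calc ((q : ℝ) - 1) * ∑ j ∈ range K, t j ≤ ((q : ℝ) - 1) * ∑ j ∈ range K', t j :=
          mul_le_mul_of_nonneg_left hle (by linarith)
      _ ≤ _ := hmain

end H20.EGS
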