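import Mathlib

/-!
# Elementary asymptotic facts
-/

open Finset Filter Topology

namespace H20.EGS

lemma tendsto_log_nat : Tendsto (fun n : ℕ => Real.log n) atTop atTop :=
  Real.tendsto_log_atTop.comp tendsto_natCast_atTop_atTop

/-- `log₂(3n) ≤ 4 log n` -/
lemma log2_le {n : ℕ} (hn : 3 ≤ n) : (Nat.log 2 (3 * n) : ℝ) ≤ 4 * Real.log n := by
  have hn0 : (3 : ℝ) ≤ n := by exact_mod_cast hn
  have h4 : (2 : ℝ) ^ (Nat.log 2 (3 * n)) ≤ (n : ℝ) ^ 2 := by
    have h5 : 2 ^ (Nat.log 2 (3 * n)) ≤ 3 * n := Nat.pow_log_le_self 2 (by omega)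
    have h6 : 3 * n ≤ n ^ 2 := by nlinarith
    exact_mod_cast h5.trans h6
  have h7 := Real.log_le_log (by positivity) h4
  rw [Real.log_pow, Real.log_pow] at h7
  push_cast at h7
  have h8 : (1 / 2 : ℝ) < Real.log 2 := by linarith [Real.log_two_gt_d9]
  have h9 : (0 : ℝ) ≤ Nat.log 2 (3 * n) := Nat.cast_nonneg _
  nlinarith

/-- `A (log n)^k ≤ ε n/log n` eventually. -/
lemma pow_log_le (A : ℝ) (k : ℕ) {ε : ℝ} (hε : 0 < ε) :
    ∀ᶠ n : ℕ in atTop, A * Real.log n ^ k ≤ ε * (n / Real.log n) := by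
  have h1 : Tendsto (fun x : ℝ => Real.log x ^ (k + 1) / x) atTop (𝓝 0) :=
    (Real.isLittleO_pow_log_id_atTop (n := k + 1)).tendsto_div_nhds_zero
  have h2 := (h1.comp tendsto_natCast_atTop_atTop).const_mul |A|
  rw [mul_zero] at h2
  filter_upwards [(tendsto_order.1 h2).2 ε hε, eventually_ge_atTop 3] with n hn h3
  have hn0 : (3 : ℝ) ≤ n := by exact_mod_cast h3
  have hn00 : (0 : ℝ) < n := by linarith
  have hlog : 0 < Real.log n := Real.log_pos (by linarith)
  simp only [Function.comp] at hn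
  have h5 : A * Real.log n ^ k ≤ |A| * Real.log n ^ k :=
    mul_le_mul_of_nonneg_right (le_abs_self A) (by positivity)
  refine h5.trans ?_
  have h6 : |A| * Real.log n ^ k = (|A| * (Real.log n ^ (k + 1) / n)) * (n / Real.log n) := by
    field_simp
    ring
  rw [h6]
  exact mul_le_mul_of_nonneg_right hn.le (by positivity)

/-- `A (log₂(3n)+1) ≤ ε n/log n` eventually. -/
lemma log_small (A : ℝ) {ε : ℝ} (hε : 0 < ε) :
    ∀ᶠ n : ℕ in atTop, A * (Nat.log 2 (3 * n) + 1) ≤ ε * (n / Real.log n) := by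
  filter_upwards [pow_log_le (5 * |A|) 1 hε, eventually_ge_atTop 3,
    tendsto_log_nat.eventually_ge_atTop 1] with n h1 h3 hlog1
  have h4 := log2_le h3
  rw [pow_one] at h1
  have h5 : (0 : ℝ) ≤ Nat.log 2 (3 * n) + 1 := by positivity
  calc A * (Nat.log 2 (3 * n) + 1) ≤ |A| * (Nat.log 2 (3 * n) + 1) :=
        mul_le_mul_of_nonneg_right (le_abs_self A) h5
    _ ≤ |A| * (5 * Real.log n) := mul_le_mul_of_nonneg_left (by linarith) (abs_nonneg A)
    _ = 5 * |A| * Real.log n := by ring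
    _ ≤ _ := h1

/-- `A n/log n ≤ δ n` eventually. -/
lemma div_log_small (A : ℝ) {δ : ℝ} (hδ : 0 < δ) :
    ∀ᶠ n : ℕ in atTop, A * (n / Real.log n) ≤ δ * n := by
  filter_upwards [tendsto_log_nat.eventually_ge_atTop (max (|A| / δ) 1),
    eventually_ge_atTop 3] with n hlog h3
  have hn0 : (3 : ℝ) ≤ n := by exact_mod_cast h3
  have hl1 : 1 ≤ Real.log n := (le_max_right _ _).trans hlog
  have hl2 : |A| / δ ≤ Real.log n := (le_max_left _ _).trans hlog
  rw [div_le_iff₀ hδ] at hl2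
  have hl0 : 0 < Real.log n := by linarith
  rw [mul_div_assoc', div_le_iff₀ hl0]
  have : A ≤ |A| := le_abs_self A
  have hn00 : (0 : ℝ) < n := by linarith
  nlinarith

end H20.EGS
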