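import Pool.Agent.H20.EGS.Count

/-!
# Elements of windows with a very large prime factor
-/

open Finset Filter Topology

namespace H20.EGS

/-- all prime factors are at most `n/K` -/
def Sm (n K b : ℕ) : Prop := ∀ p : ℕ, p.Prime → p ∣ b → K * p ≤ n

open Classical in
/-- elements of `(y, y+h]` with a prime factor exceeding `n/K` -/
noncomputable def Bad (n K y h : ℕ) : Finset ℕ := (Ioc y (y + h)).filter fun b => ¬ Sm n K b

lemma mem_Bad {n K y h b : ℕ} : b ∈ Bad n K y h ↔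
    (y < b ∧ b ≤ y + h) ∧ ∃ p : ℕ, p.Prime ∧ p ∣ b ∧ n < K * p := by
  classical
  unfold Bad
  rw [mem_filter, mem_Ioc]
  unfold Sm
  push Not
  rfl

lemma primes_Ioc_card (u v : ℕ) (huv : u ≤ v) :
    (((Ioc u v).filter Nat.Prime).card : ℝ) = Nat.primeCounting v - Nat.primeCounting u := by
  have h1 : Nat.primesLE v = Nat.primesLE u ∪ (Ioc u v).filter Nat.Prime := by
    ext p
    rw [mem_union, Nat.mem_primesLE, Nat.mem_primesLE, mem_filter, mem_Ioc]
    constructor
    · rintro ⟨h1, h2⟩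
      by_cases h : p ≤ u
      · exact Or.inl ⟨h, h2⟩
      · exact Or.inr ⟨⟨by omega, h1⟩, h2⟩
    · rintro (⟨h1, h2⟩ | ⟨⟨h1, h2⟩, h3⟩)
      · exact ⟨by omega, h2⟩
      · exact ⟨h2, h3⟩
  have h2 : Disjoint (Nat.primesLE u) ((Ioc u v).filter Nat.Prime) := by
    rw [disjoint_left]
    intro p hp hp'
    rw [Nat.mem_primesLE] at hp
    rw [mem_filter, mem_Ioc] at hp'
    omega
  have h3 := card_union_of_disjoint h2
  rw [← h1, Nat.primesLE_card_eq_primeCounting, Nat.primesLE_card_eq_primeCounting] at h3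
  rw [h3]
  push_cast
  ring

lemma bad_card_le (n K y h : ℕ) (hb : y + h ≤ 4 * n) :
    (Bad n K y h).card ≤ ∑ a ∈ Icc 1 (4 * K), ((Ioc (y / a) ((y + h) / a)).filter Nat.Prime).card := by
  classical
  refine le_trans ?_ (sum_le_sum (f := fun a => (((Ioc (y / a) ((y + h) / a)).filter
    Nat.Prime).image (a * ·)).card) (fun a _ => card_image_le))
  refine le_trans ?_ card_biUnion_le
  apply card_le_card
  intro b hb'
  rw [mem_Bad] at hb'
  obtain ⟨⟨h1, h2⟩, p, hp, hpb, hn⟩ := hb'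
  obtain ⟨a, rfl⟩ := hpb
  have ha0 : 0 < a := by
    rcases Nat.eq_zero_or_pos a with h0 | h0
    · subst h0; simp at h1
    · exact h0
  have ha : a < 4 * K := by
    by_contra hcon
    push Not at hcon
    have e1 : p * (4 * K) ≤ p * a := Nat.mul_le_mul_left p hcon
    have e2 : p * (4 * K) = 4 * (K * p) := by ring
    omega
  rw [mem_biUnion]
  refine ⟨a, by rw [mem_Icc]; omega, ?_⟩
  rw [mem_image]
  refine ⟨p, ?_, by rw [mul_comm]⟩
  rw [mem_filter, mem_Ioc]
  exact ⟨⟨(Nat.div_lt_iff_lt_mul ha0).2 h1, (Nat.le_div_iff_mul_le ha0).2 h2⟩, hp⟩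

/-- few bad elements -/
lemma bad_small (K : ℕ) {ε : ℝ} (hε : 0 < ε) : ∃ δ : ℝ, 0 < δ ∧ ∀ᶠ n : ℕ in atTop,
    ∀ y h : ℕ, n ≤ y → y ≤ 3 * n → (h : ℝ) ≤ δ * n →
      ((Bad n K y h).card : ℝ) ≤ ε * (n / Real.log n) := by
  obtain ⟨δ, hδ, hev⟩ := short_interval (4 * K) (ε := ε / (4 * K + 1)) (by positivity)
  refine ⟨min δ 1, by positivity, ?_⟩
  filter_upwards [hev, eventually_ge_atTop 3] with n hn hn3 y h hy1 hy2 hh
  have hn0 : (0 : ℝ) < n := by
    have : (3 : ℝ) ≤ n := by exact_mod_cast hn3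
    linarith
  have hlogn : 0 < Real.log n := Real.log_pos (by
    have : (3 : ℝ) ≤ n := by exact_mod_cast hn3
    linarith)
  have hh1 : (h : ℝ) ≤ δ * n := hh.trans (mul_le_mul_of_nonneg_right (min_le_left _ _) hn0.le)
  have hh2 : (h : ℝ) ≤ 1 * n := hh.trans (mul_le_mul_of_nonneg_right (min_le_right _ _) hn0.le)
  have hh3 : h ≤ n := by
    rw [one_mul] at hh2; exact_mod_cast hh2
  have h1 := bad_card_le n K y h (by omega)
  have h1' : ((Bad n K y h).card : ℝ) ≤
      ∑ a ∈ Icc 1 (4 * K), (((Ioc (y / a) ((y + h) / a)).filter Nat.Prime).card : ℝ) := by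
    exact_mod_cast h1
  refine h1'.trans ?_
  calc ∑ a ∈ Icc 1 (4 * K), (((Ioc (y / a) ((y + h) / a)).filter Nat.Prime).card : ℝ)
      ≤ ∑ a ∈ Icc 1 (4 * K), ε / (4 * K + 1) * (n / Real.log n) := by
        apply sum_le_sum
        intro a ha
        rw [mem_Icc] at ha
        rw [primes_Ioc_card _ _ (Nat.div_le_div_right (by omega))]
        exact hn y h hy1 hy2 hh1 a ha.1 ha.2
    _ = (4 * K) * (ε / (4 * K + 1)) * (n / Real.log n) := by
        rw [sum_const, Nat.card_Icc, nsmul_eq_mul]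
        push_cast [Nat.add_sub_cancel]
        ring
    _ ≤ ε * (n / Real.log n) := by
        apply mul_le_mul_of_nonneg_right _ (by positivity)
        rw [mul_div_assoc', div_le_iff₀ (by positivity)]
        nlinarith

/-- The content of bad elements at `q ≤ n/K`. -/
lemma V_bad_le {n K y h q : ℕ} (hb : y + h ≤ 4 * n) (hq : q.Prime) (hqn : K * q ≤ n)
    {T : Finset ℕ} (hT : T ⊆ Bad n K y h) :
    V T q ≤ T.card * (4 * K) := by
  unfold V
  rw [← smul_eq_mul, ← sum_const]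
  apply sum_le_sum
  intro b hbT
  have hb' := hT hbT
  rw [mem_Bad] at hb'
  obtain ⟨⟨h1, h2⟩, p, hp, hpb, hn⟩ := hb'
  obtain ⟨a, rfl⟩ := hpb
  have ha0 : a ≠ 0 := by
    rintro rfl; simp at h1
  have ha : a < 4 * K := by
    by_contra hcon
    push Not at hcon
    have e1 : p * (4 * K) ≤ p * a := Nat.mul_le_mul_left p hcon
    have e2 : p * (4 * K) = 4 * (K * p) := by ring
    omega
  rw [Nat.factorization_mul hp.ne_zero ha0]
  simp only [Finsupp.coe_add, Pi.add_apply]
  have hpq : p.factorization q = 0 := by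
    apply Nat.factorization_eq_zero_of_not_dvd
    intro hdvd
    have := (Nat.prime_dvd_prime_iff_eq hq hp).1 hdvd
    subst this
    omega
  have := Nat.factorization_lt q ha0
  omega

/-- no content at primes in `(2K, n/K]`. -/
lemma V_bad_zero {n K y h q : ℕ} (hb : K * (y + h) ≤ (2 * K + 1) * n) (hn0 : 0 < n) (hq : q.Prime)
    (hqn : K * q ≤ n) (hq2 : 2 * K < q) {T : Finset ℕ} (hT : T ⊆ Bad n K y h) : V T q = 0 := by
  unfold V
  apply sum_eq_zero
  intro b hbT
  have hb' := hT hbT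
  rw [mem_Bad] at hb'
  obtain ⟨⟨h1, h2⟩, p, hp, hpb, hn⟩ := hb'
  apply Nat.factorization_eq_zero_of_not_dvd
  intro hqb
  have hne : q ≠ p := by rintro rfl; omega
  have hcop : Nat.Coprime q p := (Nat.coprime_primes hq hp).2 hne
  have h4 : q * p ∣ b := hcop.mul_dvd_of_dvd_of_dvd hqb hpb
  have h5 : q * p ≤ b := Nat.le_of_dvd (by omega) h4
  have h6 : q * n < q * (K * p) := Nat.mul_lt_mul_of_pos_left hn hq.pos
  have h7 : q * (K * p) ≤ K * b := by
    calc q * (K * p) = K * (q * p) := by ring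
      _ ≤ K * b := Nat.mul_le_mul_left K h5
  have h8 : K * b ≤ K * (y + h) := Nat.mul_le_mul_left K h2
  have h9 : (2 * K + 1) * n ≤ q * n := Nat.mul_le_mul_right n hq2
  omega

end H20.EGS
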