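import Pool.Agent.H20.EGS.Windows
import Pool.Agent.H20.EGS.Asymp

/-!
# The initial configuration, asymptotic form
-/

open Finset Filter Topology

namespace H20.EGS

/-- The initial configuration exists. -/
theorem windows (K₁ : ℕ) {η : ℝ} (hη0 : 0 < η) (hη1 : η ≤ 1) :
    ∃ C₁ : ℝ, 0 ≤ C₁ ∧ ∀ K : ℕ, K₁ ≤ K → 1 ≤ K → ∀ ε : ℝ, 0 < ε → ∀ᶠ n : ℕ in atTop,
    ∀ x : ℕ, η * (n / Real.log n) ≤ x → (x : ℝ) ≤ 1 / η * (n / Real.log n) →
    ∀ φ : ℕ → ℝ, (∀ q, η ≤ φ q ∧ φ q ≤ 1) → (∀ q, K₁ < q → φ q = 1) →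
    ∀ hsp : ℕ, (16 * hsp : ℝ) ≤ η * x →
    ∃ D : Finset ℕ,
      (∀ b ∈ D, Sm n K b ∧ ((∃ c ∈ Sp, c * n / 1000 < b ∧ b ≤ c * n / 1000 + hsp) ∨
        (1850 * n / 1000 < b ∧ 1000 * b ≤ 1890 * n))) ∧
      (∀ c ∈ Sp, ∀ b, c * n / 1000 < b → b ≤ c * n / 1000 + hsp → Sm n K b → b ∈ D) ∧
      (∀ c ∈ Sp, ((Bad n K (c * n / 1000) hsp).card : ℝ) ≤ ε * x) ∧
      (∀ q : ℕ, q.Prime → q ≤ 2 * K → |(V D q : ℝ) - φ q * x / (q - 1)| ≤ ε * x) ∧
      (∀ q : ℕ, q.Prime → 2 * K < q → K * q ≤ n →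
        |(V D q : ℝ) - x / (q - 1)| ≤ C₁ * (Nat.log q (3 * n) + 1)) := by
  classical
  set P := Nat.primesLE K₁ with hPdef
  have hP : ∀ r ∈ P, r.Prime := fun r hr => (Nat.mem_primesLE.1 hr).2
  set MP : ℕ := ∏ r ∈ P, r with hMP
  have hMPpos : 0 < MP := prod_pos fun r hr => (hP r hr).pos
  set pc : ℕ := P.powerset.card with hpc
  set N0 : ℕ := P.powerset.sup Encodable.encode + 1 with hN0def
  have hN0 : ∀ S ∈ P.powerset, Encodable.encode S < N0 := by
    intro S hS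
    rw [hN0def]
    exact Nat.lt_succ_of_le (le_sup (f := Encodable.encode) hS)
  have hN0pos : 0 < N0 := by omega
  refine ⟨16 + pc * (MP + 2), by positivity, ?_⟩
  intro K hK₁ hK1 ε hε
  have hKr : (1 : ℝ) ≤ K := by exact_mod_cast hK1
  set ε'' : ℝ := ε * η / (8 * K * (8 + pc)) with hε''
  have hε''0 : 0 < ε'' := by positivity
  obtain ⟨δ, hδ0, hδ⟩ := bad_small K hε''0
  have hMPr : (0 : ℝ) < MP := by exact_mod_cast hMPpos
  have hMPr1 : (1 : ℝ) ≤ MP := by exact_mod_cast hMPpos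
  have hN0r : (0 : ℝ) < N0 := by exact_mod_cast hN0pos
  filter_upwards [hδ, div_log_small (1 / η * MP) hδ0,
    div_log_small (1 / η * MP) (δ := 1 / (50 * N0)) (by positivity),
    div_log_small (1 / η * MP) (δ := 1 / 200) (by norm_num),
    eventually_ge_atTop (50 * N0 + 400 + 2 * K * K),
    log_small (16 + pc * (MP + 2)) (ε := ε * η / 2) (by positivity)] with n hbad hs1 hs2 hs3 hnbig hlogs
    x hx1 hx2 φ hφ1 hφ2 hsp hhsp
  have hn3 : 3 ≤ n := by omega
  have hn0 : (0 : ℝ) < n := by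
    have : (3 : ℝ) ≤ n := by exact_mod_cast hn3
    linarith
  have hlogn : 0 < Real.log n := Real.log_pos (by
    have : (3 : ℝ) ≤ n := by exact_mod_cast hn3
    linarith)
  have hnl : 0 < (n : ℝ) / Real.log n := by positivity
  have hx0 : (0 : ℝ) < x := lt_of_lt_of_le (by positivity) hx1
  -- the parameters
  set u : ℕ := n / (25 * N0) with hu
  have hNu : N0 * u ≤ n / 25 := by
    rw [hu, ← Nat.div_div_eq_div_mul]
    exact Nat.mul_div_le _ _
  have hhspx : (hsp : ℝ) ≤ x := by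
    have h1 : η * (x : ℝ) ≤ 1 * x := mul_le_mul_of_nonneg_right hη1 hx0.le
    have h2 : (0 : ℝ) ≤ hsp := Nat.cast_nonneg _
    linarith
  set x' : ℝ := x - 8 * hsp with hx'
  have hx'pos : 0 < x' := by
    have h1 : η * (x : ℝ) ≤ 1 * x := mul_le_mul_of_nonneg_right hη1 hx0.le
    rw [hx']; linarith
  have hx'le : x' ≤ x := by
    rw [hx']; have h2 : (0 : ℝ) ≤ hsp := Nat.cast_nonneg _
    linarith
  set φ' : ℕ → ℝ := fun q => (φ q * x - 8 * hsp) / x' with hφ'
  have hφ'1 : ∀ r ∈ P, 0 ≤ φ' r ∧ φ' r ≤ 1 := by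
    intro r _
    obtain ⟨h1, h2⟩ := hφ1 r
    have h3 : η * (x : ℝ) ≤ φ r * x := mul_le_mul_of_nonneg_right h1 hx0.le
    have h4 : φ r * (x : ℝ) ≤ 1 * x := mul_le_mul_of_nonneg_right h2 hx0.le
    have h5 : (0 : ℝ) ≤ hsp := Nat.cast_nonneg _
    constructor
    · apply div_nonneg _ hx'pos.le
      linarith
    · rw [div_le_one hx'pos, hx']
      linarith
  -- bound for the lengths
  have hxMP : (x : ℝ) * MP ≤ 1 / η * MP * (n / Real.log n) := by
    calc (x : ℝ) * MP ≤ 1 / η * (n / Real.log n) * MP := mul_le_mul_of_nonneg_right hx2 hMPr.le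
      _ = _ := by ring
  have hSle : ∀ S ∈ P.powerset, (hS P φ' x' S : ℝ) ≤ x * MP := by
    intro S hSP
    have hSP' := mem_powerset.1 hSP
    have hMSpos : 0 < ∏ r ∈ S, r := prod_pos fun r hr => (hP r (hSP' hr)).pos
    have hMle : ∏ r ∈ S, r ≤ MP := Nat.le_of_dvd hMPpos (prod_dvd_prod_of_subset _ _ _ hSP')
    have hMler : ((∏ r ∈ S, r : ℕ) : ℝ) ≤ MP := by exact_mod_cast hMle
    have hMSr : (0 : ℝ) < ((∏ r ∈ S, r : ℕ) : ℝ) := by exact_mod_cast hMSpos
    have htpos : (1 : ℝ) ≤ ((∏ r ∈ S, r).totient : ℝ) := by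
      exact_mod_cast Nat.totient_pos.2 hMSpos
    have hl0 := lam_nonneg hφ'1 hSP'
    have hl1 := lam_le_one hφ'1 hSP'
    unfold hS
    refine (Nat.floor_le (by positivity)).trans ?_
    have h1 : ((∏ r ∈ S, r : ℕ) : ℝ) / ((∏ r ∈ S, r).totient : ℝ) ≤ MP := by
      rw [div_le_iff₀ (by linarith)]
      nlinarith
    have h2 : lam P φ' S * x' ≤ 1 * x := mul_le_mul hl1 hx'le hx'pos.le zero_le_one
    rw [one_mul] at h2
    exact mul_le_mul h2 h1 (by positivity) hx0.le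
  have hu2 : ∀ S ∈ P.powerset, hS P φ' x' S ≤ u := by
    intro S hSP
    have h1 := hSle S hSP
    have h2 : (x : ℝ) * MP ≤ 1 / (50 * N0) * n := hxMP.trans hs2
    have h3 : (n : ℝ) / (25 * N0) - 1 ≤ u := by
      have := Nat.lt_floor_add_one ((n : ℝ) / ((25 * N0 : ℕ) : ℝ))
      rw [Nat.floor_div_eq_div] at this
      push_cast at this
      rw [hu]
      linarith
    have h4 : 1 ≤ (n : ℝ) / (50 * N0) := by
      rw [one_le_div (by positivity)]
      have : 50 * N0 ≤ n := by omega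
      exact_mod_cast this
    have h5 : (n : ℝ) / (25 * N0) = n / (50 * N0) + n / (50 * N0) := by field_simp; norm_num
    have h6 : 1 / (50 * N0) * (n : ℝ) = n / (50 * N0) := by ring
    have h7 : (hS P φ' x' S : ℝ) ≤ u := by linarith
    exact_mod_cast h7
  have hhsp2 : (hsp : ℝ) ≤ x * MP := by nlinarith
  have hsp1 : hsp + 1 ≤ n / 100 := by
    have h1 : (hsp : ℝ) ≤ 1 / 200 * n := hhsp2.trans (hxMP.trans hs3)
    have h2 : (200 * hsp : ℝ) ≤ n := by linarith
    have h3 : 200 * hsp ≤ n := by exact_mod_cast h2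
    omega
  -- bad elements
  have hbadSp : ∀ c ∈ Sp, ((Bad n K (c * n / 1000) hsp).card : ℝ) ≤ ε'' * (n / Real.log n) := by
    intro c hc
    have hcb := Sp_bounds hc
    have h1 : 1005 * n ≤ c * n := Nat.mul_le_mul_right n hcb.1
    have h2 : c * n ≤ 1990 * n := Nat.mul_le_mul_right n hcb.2
    exact hbad _ _ (by omega) (by omega) (hhsp2.trans (hxMP.trans hs1))
  have hbadS : ∀ S ∈ P.powerset, ((Bad n K (yS n u S) (hS P φ' x' S)).card : ℝ) ≤
      ε'' * (n / Real.log n) := by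
    intro S hSP
    have hup := yS_upper (n := n) (hN0 S hSP) hNu (hu2 S hSP)
    have hlow : 1850 * n / 1000 ≤ yS n u S := Nat.le_add_right _ _
    exact hbad _ _ (by omega) (by omega) ((hSle S hSP).trans (hxMP.trans hs1))
  have hpcr : (0 : ℝ) ≤ pc := Nat.cast_nonneg _
  have hbadsum : 4 * K * (∑ c ∈ Sp, ((Bad n K (c * n / 1000) hsp).card : ℝ) +
      ∑ S ∈ P.powerset, ((Bad n K (yS n u S) (hS P φ' x' S)).card : ℝ)) ≤ ε / 2 * x := by
    have h1 : ∑ c ∈ Sp, ((Bad n K (c * n / 1000) hsp).card : ℝ) ≤ 8 * (ε'' * (n / Real.log n)) := by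
      refine (sum_le_sum hbadSp).trans ?_
      rw [sum_const, Sp_card, nsmul_eq_mul]; push_cast; rfl
    have h2 : ∑ S ∈ P.powerset, ((Bad n K (yS n u S) (hS P φ' x' S)).card : ℝ) ≤
        pc * (ε'' * (n / Real.log n)) := by
      refine (sum_le_sum hbadS).trans ?_
      rw [sum_const, nsmul_eq_mul]
    have h3 : 4 * K * (∑ c ∈ Sp, ((Bad n K (c * n / 1000) hsp).card : ℝ) +
      ∑ S ∈ P.powerset, ((Bad n K (yS n u S) (hS P φ' x' S)).card : ℝ)) ≤
        4 * K * (8 * (ε'' * (n / Real.log n)) + pc * (ε'' * (n / Real.log n))) :=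
      mul_le_mul_of_nonneg_left (by linarith) (by positivity)
    refine h3.trans ?_
    have h4 : 4 * K * (8 * (ε'' * (n / Real.log n)) + pc * (ε'' * (n / Real.log n))) =
        ε / 2 * (η * (n / Real.log n)) := by
      rw [hε'']
      field_simp
      ring
    rw [h4]
    exact mul_le_mul_of_nonneg_left hx1 (by linarith)
  have hε''le : ε'' * (n / Real.log n) ≤ ε * x := by
    have h1 : ε'' ≤ ε * η := by
      rw [hε'']
      apply div_le_self (by positivity)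
      nlinarith
    calc ε'' * (n / Real.log n) ≤ ε * η * (n / Real.log n) := mul_le_mul_of_nonneg_right h1 hnl.le
      _ = ε * (η * (n / Real.log n)) := by ring
      _ ≤ ε * x := mul_le_mul_of_nonneg_left hx1 hε.le
  -- generic error bound
  have herr : ∀ q : ℕ, 8 * (2 * (Nat.log q (3 * n) : ℝ) + 1) +
      P.powerset.card * (((∏ r ∈ P, r : ℕ) + 1) * (Nat.log q (3 * n) : ℝ) + 2) ≤
      (16 + pc * (MP + 2)) * ((Nat.log q (3 * n) : ℝ) + 1) := by
    intro q
    have hL : (0 : ℝ) ≤ Nat.log q (3 * n) := Nat.cast_nonneg _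
    rw [← hpc, ← hMP]
    have e1 := mul_nonneg hpcr hL
    have e2 := mul_nonneg hpcr hMPr.le
    have e3 : (16 + (pc : ℝ) * (MP + 2)) * ((Nat.log q (3 * n) : ℝ) + 1) -
      (8 * (2 * (Nat.log q (3 * n) : ℝ) + 1) + pc * ((MP + 1) * (Nat.log q (3 * n) : ℝ) + 2)) =
      8 + pc * (Nat.log q (3 * n) : ℝ) + pc * MP := by ring
    linarith
  refine ⟨D0 n K hsp u P φ' x', ?_, ?_, ?_, ?_, ?_⟩
  · intro b hb
    unfold D0 at hb
    rw [mem_union, mem_biUnion, mem_biUnion] at hb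
    rcases hb with ⟨c, hc, hb⟩ | ⟨S, hSP, hb⟩
    · rw [mem_WinS] at hb
      exact ⟨hb.2.2, Or.inl ⟨c, hc, hb.1⟩⟩
    · rw [mem_WinS] at hb
      have hup := yS_upper (n := n) (hN0 S hSP) hNu (hu2 S hSP)
      have hlow : 1850 * n / 1000 ≤ yS n u S := Nat.le_add_right _ _
      exact ⟨hb.2.2, Or.inr ⟨by omega, by omega⟩⟩
  · intro c hc b h1 h2 h3
    unfold D0
    rw [mem_union, mem_biUnion]
    left
    exact ⟨c, hc, mem_WinS.2 ⟨⟨h1, h2⟩, Nat.coprime_one_left b, h3⟩⟩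
  · intro c hc
    exact (hbadSp c hc).trans hε''le
  · intro q hq hq2
    have hqn : K * q ≤ n := by
      have : K * q ≤ K * (2 * K) := Nat.mul_le_mul_left K hq2
      have e : K * (2 * K) = 2 * K * K := by ring
      omega
    have h1 := V_D0 hP hφ'1 hx'pos.le hsp1 hN0 hNu hu2 hq hqn
    rw [if_pos hq2] at h1
    have h2 : (8 * (hsp : ℝ) + (if q ∈ P then φ' q else 1) * x') = φ q * x := by
      split_ifs with hqP
      · rw [hφ']
        field_simp
        ring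
      · have hqK : K₁ < q := by
          by_contra hcon
          push Not at hcon
          exact hqP (Nat.mem_primesLE.2 ⟨hcon, hq⟩)
        rw [hφ2 q hqK, hx']; ring
    rw [h2] at h1
    have h3 := herr q
    have h4 : (16 + pc * (MP + 2)) * ((Nat.log q (3 * n) : ℝ) + 1) ≤
        (16 + pc * (MP + 2)) * ((Nat.log 2 (3 * n) : ℝ) + 1) := by
      apply mul_le_mul_of_nonneg_left _ (by positivity)
      have : Nat.log q (3 * n) ≤ Nat.log 2 (3 * n) := Nat.log_anti_left (by norm_num) hq.two_le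
      have : (Nat.log q (3 * n) : ℝ) ≤ Nat.log 2 (3 * n) := by exact_mod_cast this
      linarith
    have h5 : ε * η / 2 * (n / Real.log n) ≤ ε / 2 * x := by
      calc ε * η / 2 * (n / Real.log n) = ε / 2 * (η * (n / Real.log n)) := by ring
        _ ≤ _ := mul_le_mul_of_nonneg_left hx1 (by linarith)
    refine h1.trans ?_
    linarith
  · intro q hq hq2 hqn
    have h1 := V_D0 hP hφ'1 hx'pos.le hsp1 hN0 hNu hu2 hq hqn
    rw [if_neg (show ¬ q ≤ 2 * K by omega)] at h1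
    have h2 : (8 * (hsp : ℝ) + (if q ∈ P then φ' q else 1) * x') = x := by
      have hqP : q ∉ P := by
        intro hqP
        have := (Nat.mem_primesLE.1 hqP).1
        omega
      rw [if_neg hqP, hx']; ring
    rw [h2] at h1
    have h3 := herr q
    refine h1.trans ?_
    linarith

end H20.EGS
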