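import Pool.Agent.H20.PNT.PNT

/-!
# Consequences of the prime number theorem
-/

open Finset Filter Topology

namespace H20.EGS

/-- two-sided bounds for `π`. -/
lemma pi_bounds {ε : ℝ} (hε : 0 < ε) : ∃ Y : ℝ, 2 ≤ Y ∧ ∀ z : ℝ, Y ≤ z →
    (1 - ε) * (z / Real.log z) ≤ Nat.primeCounting ⌊z⌋₊ ∧
    (Nat.primeCounting ⌊z⌋₊ : ℝ) ≤ (1 + ε) * (z / Real.log z) := by
  have h := H20.PNT.primeCounting_tendsto
  have h1 := (tendsto_order.1 h).1 (1 - ε) (by linarith)
  have h2 := (tendsto_order.1 h).2 (1 + ε) (by linarith)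
  obtain ⟨Y, hY⟩ := Filter.eventually_atTop.1 (h1.and h2)
  refine ⟨max Y 2, le_max_right _ _, fun z hz => ?_⟩
  have hzY := hY z ((le_max_left _ _).trans hz)
  have hz2 : 2 ≤ z := (le_max_right _ _).trans hz
  have hlog : 0 < Real.log z := Real.log_pos (by linarith)
  have hz0 : 0 < z := by linarith
  constructor
  · have := hzY.1
    rw [lt_div_iff₀ hz0] at this
    rw [← mul_div_assoc, div_le_iff₀ hlog]
    exact this.le
  · have := hzY.2
    rw [div_lt_iff₀ hz0] at this
    rw [← mul_div_assoc, le_div_iff₀ hlog]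
    exact this.le

/-- logarithms of `n/(2K)` are comparable to `log n`. -/
lemma log_half (K : ℝ) (hK : 0 < K) : ∀ᶠ n : ℕ in atTop, Real.log n / 2 ≤ Real.log (n / K) := by
  have h1 : Tendsto (fun n : ℕ => Real.log n) atTop atTop :=
    Real.tendsto_log_atTop.comp tendsto_natCast_atTop_atTop
  filter_upwards [h1.eventually_ge_atTop (2 * Real.log K), eventually_gt_atTop 0] with n hn hn0
  have hn' : (0 : ℝ) < n := by exact_mod_cast hn0
  rw [Real.log_div hn'.ne' hK.ne']
  linarith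

/-- Primes in short intervals `(y/a, (y+h)/a]`. -/
lemma short_interval (K : ℕ) {ε : ℝ} (hε : 0 < ε) : ∃ δ : ℝ, 0 < δ ∧ ∀ᶠ n : ℕ in atTop,
    ∀ y h : ℕ, n ≤ y → y ≤ 3 * n → (h : ℝ) ≤ δ * n → ∀ a : ℕ, 1 ≤ a → a ≤ K →
      (Nat.primeCounting ((y + h) / a) : ℝ) - Nat.primeCounting (y / a) ≤ ε * (n / Real.log n) := by
  rcases Nat.eq_zero_or_pos K with hK0 | hKpos
  · exact ⟨1, one_pos, Eventually.of_forall fun n y h _ _ _ a h1 h2 => by omega⟩
  have hKr : (0 : ℝ) < K := by exact_mod_cast hKpos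
  obtain ⟨Y, hY2, hY⟩ := pi_bounds (ε := min (ε / 28) 1) (by positivity)
  refine ⟨min (ε / 4) 1, by positivity, ?_⟩
  have h1 : Tendsto (fun n : ℕ => (n : ℝ) / K) atTop atTop :=
    tendsto_natCast_atTop_atTop.atTop_div_const hKr
  filter_upwards [log_half K hKr, h1.eventually_ge_atTop Y, eventually_ge_atTop 3] with n hlog hnY hn3
    y h hy1 hy2 hh a ha1 ha2
  have hn0 : (0 : ℝ) < n := by
    have : (3 : ℝ) ≤ n := by exact_mod_cast hn3
    linarith
  have hlogn : 0 < Real.log n := Real.log_pos (by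
    have : (3 : ℝ) ≤ n := by exact_mod_cast hn3
    linarith)
  have har : (1 : ℝ) ≤ a := by exact_mod_cast ha1
  have har2 : (a : ℝ) ≤ K := by exact_mod_cast ha2
  have hyr : (n : ℝ) ≤ y := by exact_mod_cast hy1
  have hyr2 : (y : ℝ) ≤ 3 * n := by exact_mod_cast hy2
  have hh0 : (0 : ℝ) ≤ h := Nat.cast_nonneg h
  set z1 : ℝ := (y : ℝ) / a with hz1
  set z2 : ℝ := ((y : ℝ) + h) / a with hz2
  have hz1n : (n : ℝ) / K ≤ z1 := by
    rw [hz1]
    gcongr
  have hz12 : z1 ≤ z2 := by rw [hz1, hz2]; gcongr; linarith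
  have hz1Y : Y ≤ z1 := hnY.trans hz1n
  have hz10 : 0 < z1 := by linarith
  have e1 : ⌊z2⌋₊ = (y + h) / a := by
    rw [hz2]
    have : ((y : ℝ) + h) / a = ((y + h : ℕ) : ℝ) / (a : ℕ) := by push_cast; rfl
    rw [this, Nat.floor_div_eq_div]
  have e2 : ⌊z1⌋₊ = y / a := by rw [hz1, Nat.floor_div_eq_div]
  have b1 := (hY z2 (hz1Y.trans hz12)).2
  have b2 := (hY z1 hz1Y).1
  rw [e1] at b1
  rw [e2] at b2
  set ε' := min (ε / 28) 1 with hε'
  have hε'0 : 0 < ε' := by positivity
  have hε'1 : ε' ≤ ε / 28 := min_le_left _ _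
  have hlz1 : Real.log n / 2 ≤ Real.log z1 :=
    hlog.trans (Real.log_le_log (by positivity) hz1n)
  have hlz1pos : 0 < Real.log z1 := by linarith
  have hlz2 : Real.log z1 ≤ Real.log z2 := Real.log_le_log hz10 hz12
  have b3 : (1 + ε') * (z2 / Real.log z2) ≤ (1 + ε') * (z2 / Real.log z1) := by
    have : 0 ≤ z2 := by linarith
    gcongr
  have hz2le : z2 ≤ 3 * n + h := by
    rw [hz2]
    calc ((y : ℝ) + h) / a ≤ ((y : ℝ) + h) / 1 := by gcongr
      _ ≤ _ := by linarith
  have hz1le : z1 ≤ 3 * n := by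
    rw [hz1]
    calc (y : ℝ) / a ≤ (y : ℝ) / 1 := by gcongr
      _ ≤ _ := by linarith
  have hdiff : z2 - z1 ≤ h := by
    rw [hz1, hz2]
    calc ((y : ℝ) + h) / a - y / a = h / a := by ring
      _ ≤ h / 1 := by gcongr
      _ = h := by ring
  have hδ1 : (h : ℝ) ≤ ε / 4 * n := hh.trans (mul_le_mul_of_nonneg_right (min_le_left _ _) hn0.le)
  have hδ2 : (h : ℝ) ≤ 1 * n := hh.trans (mul_le_mul_of_nonneg_right (min_le_right _ _) hn0.le)
  calc (Nat.primeCounting ((y + h) / a) : ℝ) - Nat.primeCounting (y / a)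
      ≤ (1 + ε') * (z2 / Real.log z1) - (1 - ε') * (z1 / Real.log z1) := by linarith
    _ = ((z2 - z1) + ε' * (z1 + z2)) / Real.log z1 := by ring
    _ ≤ ((ε / 4 * n) + ε / 28 * (7 * n)) / Real.log z1 := by
        gcongr
        · linarith
        · linarith
    _ = (ε / 2 * n) / Real.log z1 := by ring
    _ ≤ (ε / 2 * n) / (Real.log n / 2) := by gcongr
    _ = ε * (n / Real.log n) := by field_simp

/-- the Chebyshev type upper bound -/
lemma pi_le_two : ∃ Y : ℝ, 2 ≤ Y ∧ ∀ z : ℝ, Y ≤ z →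
    (Nat.primeCounting ⌊z⌋₊ : ℝ) ≤ 2 * (z / Real.log z) := by
  obtain ⟨Y, h1, h2⟩ := pi_bounds (ε := 1) one_pos
  refine ⟨Y, h1, fun z hz => ?_⟩
  have := (h2 z hz).2
  norm_num at this
  exact this

/-- The sum of `log (4n/q)` over `q ≤ n/K`. -/
lemma sum_log {ε : ℝ} (hε : 0 < ε) : ∃ K0 : ℕ, ∀ K : ℕ, K0 ≤ K → ∀ᶠ n : ℕ in atTop,
    ∑ q ∈ Nat.primesLE (n / K), Real.log (4 * n / q) ≤ ε * (n / Real.log n) := by
  obtain ⟨C, hC⟩ := Chebyshev.primeCounting_sub_theta_div_log_isBigO.bound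
  obtain ⟨Y1, hY1⟩ := Filter.eventually_atTop.1 hC
  obtain ⟨Y2, hY22, hY2⟩ := pi_le_two
  -- choose K0
  have hlim : Tendsto (fun K : ℕ => (4 * Real.log (4 * K) + 2 * max C 0) / K) atTop (𝓝 0) := by
    have h1 : Tendsto (fun x : ℝ => Real.log x / x) atTop (𝓝 0) := by
      have := (Real.isLittleO_pow_log_id_atTop (n := 1)).tendsto_div_nhds_zero
      simpa using this
    have h2 : Tendsto (fun K : ℕ => 4 * (K : ℝ)) atTop atTop :=
      tendsto_natCast_atTop_atTop.const_mul_atTop (by norm_num)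
    have h3 := (h1.comp h2).const_mul 16
    have h4 : Tendsto (fun K : ℕ => (2 * max C 0) / (K : ℝ)) atTop (𝓝 0) :=
      tendsto_natCast_atTop_atTop.const_div_atTop _
    have h5 := h3.add h4
    rw [mul_zero, zero_add] at h5
    refine h5.congr' ?_
    filter_upwards [eventually_gt_atTop 0] with K hK
    have : (0 : ℝ) < K := by exact_mod_cast hK
    simp only [Function.comp]
    field_simp
    ring
  obtain ⟨K0, hK0⟩ := Filter.eventually_atTop.1 ((tendsto_order.1 hlim).2 ε hε)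
  refine ⟨max K0 1, fun K hK => ?_⟩
  have hK1 : 1 ≤ K := (le_max_right _ _).trans hK
  have hKr : (1 : ℝ) ≤ K := by exact_mod_cast hK1
  have hKε := hK0 K ((le_max_left _ _).trans hK)
  have h1 : Tendsto (fun n : ℕ => (n : ℝ) / K) atTop atTop :=
    tendsto_natCast_atTop_atTop.atTop_div_const (by linarith)
  filter_upwards [log_half K (by linarith), h1.eventually_ge_atTop Y1, h1.eventually_ge_atTop Y2,
    eventually_ge_atTop 3] with n hlog hn1 hn2 hn3
  have hn0 : (0 : ℝ) < n := by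
    have : (3 : ℝ) ≤ n := by exact_mod_cast hn3
    linarith
  have hlogn : 0 < Real.log n := Real.log_pos (by
    have : (3 : ℝ) ≤ n := by exact_mod_cast hn3
    linarith)
  set y : ℝ := (n : ℝ) / K with hy
  have hy0 : 0 < y := by positivity
  have e1 : ⌊y⌋₊ = n / K := by rw [hy, Nat.floor_div_eq_div]
  have hb1 := hY1 y hn1
  have hb2 := hY2 y hn2
  have hlogy : 0 < Real.log y := by linarith
  -- the sum equals π(y) log(4n) - θ(y)
  have hsum : ∑ q ∈ Nat.primesLE (n / K), Real.log (4 * n / q) =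
      Nat.primeCounting ⌊y⌋₊ * Real.log (4 * n) - Chebyshev.theta y := by
    rw [Chebyshev.theta_eq_sum_primesLE, e1]
    have : ∀ q ∈ Nat.primesLE (n / K), Real.log (4 * n / q) = Real.log (4 * n) - Real.log q := by
      intro q hq
      rw [Nat.mem_primesLE] at hq
      have hq0 : (0 : ℝ) < q := by exact_mod_cast hq.2.pos
      rw [Real.log_div (by positivity) hq0.ne']
    rw [sum_congr rfl this, sum_sub_distrib, sum_const, Nat.primesLE_card_eq_primeCounting,
      nsmul_eq_mul]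
  rw [hsum]
  have e3 : Real.log (4 * n) = Real.log (4 * K) + Real.log y := by
    rw [← Real.log_mul (by positivity) (by positivity)]
    congr 1
    rw [hy]; field_simp
  rw [e3]
  have hlog4K : 0 ≤ Real.log (4 * K) := Real.log_nonneg (by linarith)
  have hb3 : (Nat.primeCounting ⌊y⌋₊ : ℝ) * Real.log y - Chebyshev.theta y ≤
      max C 0 * (y / Real.log y) := by
    rw [Real.norm_eq_abs, Real.norm_of_nonneg (by positivity)] at hb1
    have hb4 := (le_abs_self _).trans hb1
    have hb5 : ((Nat.primeCounting ⌊y⌋₊ : ℝ) - Chebyshev.theta y / Real.log y) * Real.log y ≤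
        max C 0 * (y / Real.log y ^ 2) * Real.log y := by
      apply mul_le_mul_of_nonneg_right _ hlogy.le
      refine hb4.trans ?_
      apply mul_le_mul_of_nonneg_right (le_max_left _ _) (by positivity)
    have e4 : ((Nat.primeCounting ⌊y⌋₊ : ℝ) - Chebyshev.theta y / Real.log y) * Real.log y =
      (Nat.primeCounting ⌊y⌋₊ : ℝ) * Real.log y - Chebyshev.theta y := by field_simp
    have e5 : max C 0 * (y / Real.log y ^ 2) * Real.log y = max C 0 * (y / Real.log y) := by
      field_simp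
    rw [e4, e5] at hb5
    exact hb5
  calc (Nat.primeCounting ⌊y⌋₊ : ℝ) * (Real.log (4 * K) + Real.log y) - Chebyshev.theta y
      = Nat.primeCounting ⌊y⌋₊ * Real.log (4 * K) +
        (Nat.primeCounting ⌊y⌋₊ * Real.log y - Chebyshev.theta y) := by ring
    _ ≤ 2 * (y / Real.log y) * Real.log (4 * K) + max C 0 * (y / Real.log y) :=
        add_le_add (mul_le_mul_of_nonneg_right hb2 hlog4K) hb3
    _ = (2 * Real.log (4 * K) + max C 0) * (y / Real.log y) := by ring
    _ ≤ (2 * Real.log (4 * K) + max C 0) * (y / (Real.log n / 2)) := by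
        have : 0 ≤ 2 * Real.log (4 * K) + max C 0 := by positivity
        gcongr
    _ = ((4 * Real.log (4 * K) + 2 * max C 0) / K) * (n / Real.log n) := by
        rw [hy]; field_simp; ring
    _ ≤ ε * (n / Real.log n) := by
        gcongr

end H20.EGS
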