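import Pool.Agent.H20.EGS.Asymp
import Pool.Agent.H20.EGS.Primes

/-!
# Numerical facts for large `n`
-/

open Finset Filter Topology

namespace H20.EGS

/-- `Y = ⌊n^{1/8}⌋` -/
def YY (n : ℕ) : ℕ := Nat.sqrt (Nat.sqrt (Nat.sqrt n))

lemma YY_pow_le (n : ℕ) : YY n ^ 8 ≤ n := by
  unfold YY
  set a := Nat.sqrt n
  set b := Nat.sqrt a
  set c := Nat.sqrt b
  have h1 : a * a ≤ n := Nat.sqrt_le n
  have h2 : b * b ≤ a := Nat.sqrt_le a
  have h3 : c * c ≤ b := Nat.sqrt_le b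
  calc c ^ 8 = ((c * c) * (c * c)) * ((c * c) * (c * c)) := by ring
    _ ≤ (b * b) * (b * b) := Nat.mul_le_mul (Nat.mul_le_mul h3 h3) (Nat.mul_le_mul h3 h3)
    _ ≤ a * a := Nat.mul_le_mul h2 h2
    _ ≤ n := h1

lemma lt_YY_pow (n : ℕ) : n < (YY n + 1) ^ 8 := by
  unfold YY
  set a := Nat.sqrt n with ha
  set b := Nat.sqrt a with hb
  set c := Nat.sqrt b with hc
  have h1 : n < (a + 1) * (a + 1) := Nat.lt_succ_sqrt n
  have h2 : a < (b + 1) * (b + 1) := Nat.lt_succ_sqrt a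
  have h3 : b < (c + 1) * (c + 1) := Nat.lt_succ_sqrt b
  calc n < (a + 1) * (a + 1) := h1
    _ ≤ ((b + 1) * (b + 1)) * ((b + 1) * (b + 1)) := Nat.mul_le_mul h2 h2
    _ ≤ (((c + 1) * (c + 1)) * ((c + 1) * (c + 1))) * (((c + 1) * (c + 1)) * ((c + 1) * (c + 1))) :=
        Nat.mul_le_mul (Nat.mul_le_mul h3 h3) (Nat.mul_le_mul h3 h3)
    _ = (c + 1) ^ 8 := by ring

/-- `Y ≥ A log n` -/
lemma YY_large (A : ℝ) : ∀ᶠ n : ℕ in atTop, A * Real.log n ≤ YY n := by
  have h1 : Tendsto (fun x : ℝ => Real.log x ^ 8 / x) atTop (𝓝 0) :=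
    (Real.isLittleO_pow_log_id_atTop (n := 8)).tendsto_div_nhds_zero
  have h2 := h1.comp tendsto_natCast_atTop_atTop
  have hA : (0 : ℝ) < (|A| + 1) ^ 8 := by positivity
  filter_upwards [(tendsto_order.1 h2).2 (1 / (|A| + 1) ^ 8) (by positivity),
    tendsto_log_nat.eventually_ge_atTop 1, eventually_ge_atTop 3] with n hn hlog h3
  have hn0 : (3 : ℝ) ≤ n := by exact_mod_cast h3
  have hn00 : (0 : ℝ) < n := by linarith
  simp only [Function.comp] at hn
  rw [div_lt_div_iff₀ hn00 hA, one_mul] at hn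
  have h4 : ((|A| + 1) * Real.log n) ^ 8 < ((YY n : ℝ) + 1) ^ 8 := by
    have h5 : (n : ℝ) < ((YY n : ℝ) + 1) ^ 8 := by exact_mod_cast lt_YY_pow n
    rw [mul_pow, mul_comm]
    linarith
  have h6 : (|A| + 1) * Real.log n < (YY n : ℝ) + 1 :=
    lt_of_pow_lt_pow_left₀ 8 (by positivity) h4
  have h7 : A * Real.log n ≤ |A| * Real.log n :=
    mul_le_mul_of_nonneg_right (le_abs_self A) (by linarith)
  linarith

lemma YY_ge (m : ℕ) : ∀ᶠ n : ℕ in atTop, m ≤ YY n := by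
  filter_upwards [YY_large m, tendsto_log_nat.eventually_ge_atTop 1] with n h1 h2
  have : (m : ℝ) ≤ YY n := by
    have : (m : ℝ) * 1 ≤ m * Real.log n := mul_le_mul_of_nonneg_left h2 (Nat.cast_nonneg m)
    linarith
  exact_mod_cast this

/-- `A Y² (log₂(3n)+1)² ≤ ε n/log n` -/
lemma YY_small (A : ℝ) {ε : ℝ} (hε : 0 < ε) : ∀ᶠ n : ℕ in atTop,
    A * ((YY n : ℝ) ^ 2 * (Nat.log 2 (3 * n) + 1) ^ 2) ≤ ε * (n / Real.log n) := by
  have h1 : Tendsto (fun x : ℝ => Real.log x ^ 6 / x) atTop (𝓝 0) :=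
    (Real.isLittleO_pow_log_id_atTop (n := 6)).tendsto_div_nhds_zero
  have h2 := h1.comp tendsto_natCast_atTop_atTop
  set B : ℝ := 25 * (|A| + 1) / ε with hB
  have hB0 : 0 < B := by positivity
  filter_upwards [(tendsto_order.1 h2).2 (1 / B ^ 2) (by positivity),
    tendsto_log_nat.eventually_ge_atTop 1, eventually_ge_atTop 3] with n hn hlog h3
  have hn0 : (3 : ℝ) ≤ n := by exact_mod_cast h3
  have hn00 : (0 : ℝ) < n := by linarith
  simp only [Function.comp] at hn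
  rw [div_lt_div_iff₀ hn00 (by positivity), one_mul] at hn
  have hlog0 : 0 < Real.log n := by linarith
  -- B log^3 n ≤ √n
  have h4 : B * Real.log n ^ 3 ≤ Real.sqrt n := by
    apply Real.le_sqrt_of_sq_le
    have : (B * Real.log n ^ 3) ^ 2 = Real.log n ^ 6 * B ^ 2 := by ring
    rw [this]; exact hn.le
  -- Y² ≤ √n
  have h5 : (YY n : ℝ) ^ 2 ≤ Real.sqrt n := by
    apply Real.le_sqrt_of_sq_le
    have h6 : (YY n ^ 2) ^ 2 ≤ n := by
      rcases Nat.eq_zero_or_pos (YY n) with h0 | h0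
      · rw [h0]; simp
      · calc (YY n ^ 2) ^ 2 = YY n ^ 4 := by ring
          _ ≤ YY n ^ 8 := Nat.pow_le_pow_right h0 (by norm_num)
          _ ≤ n := YY_pow_le n
    exact_mod_cast h6
  have h7 : ((Nat.log 2 (3 * n) : ℝ) + 1) ^ 2 ≤ (5 * Real.log n) ^ 2 := by
    apply pow_le_pow_left₀ (by positivity)
    have := log2_le h3
    linarith
  have hs0 : 0 < Real.sqrt n := Real.sqrt_pos.2 hn00
  have hss : Real.sqrt n * Real.sqrt n = n := Real.mul_self_sqrt hn00.le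
  rw [mul_div_assoc', le_div_iff₀ hlog0]
  calc A * ((YY n : ℝ) ^ 2 * ((Nat.log 2 (3 * n) : ℝ) + 1) ^ 2) * Real.log n
      ≤ (|A| + 1) * (Real.sqrt n * (5 * Real.log n) ^ 2) * Real.log n := by
        apply mul_le_mul_of_nonneg_right _ hlog0.le
        apply mul_le_mul _ _ (by positivity) (by positivity)
        · linarith [le_abs_self A]
        · exact mul_le_mul h5 h7 (by positivity) hs0.le
    _ = ε * (B * Real.log n ^ 3) * Real.sqrt n := by
        rw [hB]; field_simp; ring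
    _ ≤ ε * Real.sqrt n * Real.sqrt n := by gcongr
    _ = ε * n := by rw [mul_assoc, hss]

/-- the prime count needed in phase L -/
lemma pi_phaseL : ∀ᶠ n : ℕ in atTop, ∀ t : ℕ, 1 ≤ t → t * YY n ≤ 2 * n →
    (Nat.primeCounting (2 * n / t) : ℝ) ≤ 36 * (n / Real.log n) / t := by
  obtain ⟨Y0, hY02, hY0⟩ := pi_le_two
  obtain ⟨m, hm⟩ := exists_nat_gt Y0
  filter_upwards [YY_ge m, YY_ge 1, tendsto_log_nat.eventually_ge_atTop (72 * Real.log 2),
    tendsto_log_nat.eventually_ge_atTop 1, eventually_ge_atTop 3] with n h1 h1' h2 hlog h3 t ht hty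
  have hn0 : (3 : ℝ) ≤ n := by exact_mod_cast h3
  have hn00 : (0 : ℝ) < n := by linarith
  have htr : (1 : ℝ) ≤ t := by exact_mod_cast ht
  have ht0 : (0 : ℝ) < t := by linarith
  have hlog0 : 0 < Real.log n := by linarith
  set z : ℝ := 2 * n / t with hz
  have hzY : (YY n : ℝ) ≤ z := by
    rw [hz, le_div_iff₀ ht0]
    have : ((t * YY n : ℕ) : ℝ) ≤ ((2 * n : ℕ) : ℝ) := by exact_mod_cast hty
    push_cast at this
    linarith
  have hmr : (m : ℝ) ≤ YY n := by exact_mod_cast h1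
  have hY1 : (1 : ℝ) ≤ YY n := by exact_mod_cast h1'
  have hb := hY0 z (by linarith)
  have e : ⌊z⌋₊ = 2 * n / t := by
    rw [hz]
    have : (2 * (n : ℝ)) / t = ((2 * n : ℕ) : ℝ) / (t : ℕ) := by push_cast; rfl
    rw [this, Nat.floor_div_eq_div]
  rw [e] at hb
  -- log z ≥ log n / 9
  have hlogY : Real.log n / 9 ≤ Real.log z := by
    have h5 : (n : ℝ) ≤ ((YY n : ℝ) + 1) ^ 8 := by exact_mod_cast (lt_YY_pow n).le
    have h6 : ((YY n : ℝ) + 1) ^ 8 ≤ (2 * z) ^ 8 := by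
      apply pow_le_pow_left₀ (by positivity)
      linarith
    have h7 := Real.log_le_log hn00 (h5.trans h6)
    have hz0 : 0 < z := by linarith
    rw [Real.log_pow, Real.log_mul (by norm_num) hz0.ne'] at h7
    push_cast at h7
    linarith
  have hz0 : 0 < z := by linarith
  refine hb.trans ?_
  calc 2 * (z / Real.log z) ≤ 2 * (z / (Real.log n / 9)) := by gcongr
    _ = 36 * (n / Real.log n) / t := by rw [hz]; field_simp; norm_num

/-- `log_q(3n) ≤ 8` for `q > Y`. -/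
lemma log_le_eight {n q : ℕ} (hn : 3 ≤ n) (hY : 3 ≤ YY n) (hq : YY n < q) : Nat.log q (3 * n) ≤ 8 := by
  rw [← Nat.lt_succ_iff]
  apply Nat.log_lt_of_lt_pow (by omega)
  have h1 : n < q ^ 8 := lt_of_lt_of_le (lt_YY_pow n) (Nat.pow_le_pow_left hq 8)
  calc 3 * n < 3 * q ^ 8 := by omega
    _ ≤ q * q ^ 8 := Nat.mul_le_mul_right _ (by omega)
    _ = q ^ (8 + 1) := by ring

/-- bounds for the length of the special windows -/
lemma hsp_bounds {η : ℝ} (hη0 : 0 < η) : ∀ᶠ n : ℕ in atTop, ∀ x : ℕ,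
    η * (n / Real.log n) ≤ x → (x : ℝ) ≤ 1 / η * (n / Real.log n) →
    η ^ 2 / 17 * (n / Real.log n) ≤ (⌊η * x / 16⌋₊ : ℝ) ∧
      (⌊η * x / 16⌋₊ : ℝ) ≤ 1 / 16 * (n / Real.log n) := by
  filter_upwards [pow_log_le 1 0 (ε := η ^ 2 / 16 - η ^ 2 / 17) (by
      have : 0 < η ^ 2 := by positivity
      linarith), eventually_ge_atTop 3] with n h1 h3 x hx1 hx2
  rw [pow_zero, mul_one] at h1
  have hn0 : (3 : ℝ) ≤ n := by exact_mod_cast h3
  have hlog : 0 < Real.log n := Real.log_pos (by linarith)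
  have hL : 0 < (n : ℝ) / Real.log n := by positivity
  constructor
  · have h2 := Nat.lt_floor_add_one (η * (x : ℝ) / 16)
    have h4 : η ^ 2 / 16 * (n / Real.log n) ≤ η * x / 16 := by
      calc η ^ 2 / 16 * (n / Real.log n) = η * (η * (n / Real.log n)) / 16 := by ring
        _ ≤ η * x / 16 := by gcongr
    linarith
  · refine (Nat.floor_le (by positivity)).trans ?_
    calc η * (x : ℝ) / 16 ≤ η * (1 / η * (n / Real.log n)) / 16 := by gcongr
      _ = _ := by field_simp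

end H20.EGS
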