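import Pool.Agent.H20.EGS.PhaseE
import Pool.Agent.H20.EGS.Numbers

/-!
# Lemmas for the core construction
-/

open Finset Filter Topology

namespace H20.EGS

lemma T3_sep {M₀ : ℕ} (hM : 0 < M₀) : ∃ Y : ℝ, ∀ t : ℕ, Y ≤ t → ∃ s : ℕ → ℕ,
    (∀ k < M₀, T3 (s k) ∧ 108 * t ≤ 100 * s k ∧ 10 * s k ≤ 11 * t) ∧
    ∀ k k', k < k' → k' < M₀ → s k * (1000 * M₀ + 9) ≤ s k' * (1000 * M₀) := by
  obtain ⟨Y, hY⟩ := T3_many (α := 1.08) (α' := 1.1) (by norm_num) (by norm_num) hM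
  refine ⟨Y, fun t ht => ?_⟩
  obtain ⟨s, hs⟩ := hY t ht
  have hMr : (0 : ℝ) < M₀ := by exact_mod_cast hM
  have ht0 : (0 : ℝ) ≤ t := Nat.cast_nonneg t
  set δ : ℝ := ((1.1 : ℝ) - 1.08) / (2 * M₀) with hδ
  have hδM : δ * M₀ = 0.01 := by rw [hδ]; field_simp; norm_num
  have hδ0 : 0 < δ := by rw [hδ]; apply div_pos (by norm_num) (by positivity)
  refine ⟨s, fun k hk => ?_, fun k k' hkk hk' => ?_⟩
  · obtain ⟨h1, h2, h3⟩ := hs k hk
    have hk1 : (k : ℝ) + 1 ≤ M₀ := by exact_mod_cast hk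
    have hk0 : (0 : ℝ) ≤ k := Nat.cast_nonneg k
    refine ⟨h1, ?_, ?_⟩
    · have h4 : (1.08 : ℝ) * t ≤ s k := by
        refine le_trans ?_ h2
        apply mul_le_mul_of_nonneg_right _ ht0
        have : 0 ≤ 2 * (k : ℝ) * δ := by positivity
        linarith
      have h5 : (108 : ℝ) * t ≤ 100 * s k := by linarith
      exact_mod_cast h5
    · have h4 : (s k : ℝ) ≤ 1.1 * t := by
        refine h3.trans ?_
        apply mul_le_mul_of_nonneg_right _ ht0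
        have h6 : (2 * (k : ℝ) + 1) * δ ≤ (2 * M₀) * δ := by
          apply mul_le_mul_of_nonneg_right _ hδ0.le
          linarith
        have h7 : (2 * (M₀ : ℝ)) * δ = 0.02 := by rw [mul_assoc, mul_comm (M₀ : ℝ), hδM]; norm_num
        linarith
      have h5 : (10 : ℝ) * s k ≤ 11 * t := by linarith
      exact_mod_cast h5
  · obtain ⟨_, _, h3⟩ := hs k (hkk.trans hk')
    obtain ⟨_, h2', _⟩ := hs k' hk'
    have hk1 : (k : ℝ) + 1 ≤ M₀ := by exact_mod_cast (hkk.trans hk')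
    have hkk' : (k : ℝ) + 1 ≤ k' := by exact_mod_cast hkk
    have h4 : (s k : ℝ) + δ * t ≤ s k' := by
      have h5 : (1.08 + (2 * (k : ℝ) + 1) * δ) * t + δ * t ≤ (1.08 + 2 * (k' : ℝ) * δ) * t := by
        have : (1.08 + (2 * (k : ℝ) + 1) * δ) * t + δ * t = (1.08 + (2 * (k : ℝ) + 2) * δ) * t := by
          ring
        rw [this]
        apply mul_le_mul_of_nonneg_right _ ht0
        have : (2 * (k : ℝ) + 2) * δ ≤ 2 * (k' : ℝ) * δ := by
          apply mul_le_mul_of_nonneg_right _ hδ0.le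
          linarith
        linarith
      linarith
    have h6 : (s k : ℝ) ≤ 1.1 * t := by
      refine h3.trans ?_
      apply mul_le_mul_of_nonneg_right _ ht0
      have h6 : (2 * (k : ℝ) + 1) * δ ≤ (2 * M₀) * δ := by
        apply mul_le_mul_of_nonneg_right _ hδ0.le
        linarith
      have h7 : (2 * (M₀ : ℝ)) * δ = 0.02 := by rw [mul_assoc, mul_comm (M₀ : ℝ), hδM]; norm_num
      linarith
    have h8 : (s k : ℝ) * (1000 * M₀ + 9) ≤ s k' * (1000 * M₀) := by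
      have h9 : ((s k : ℝ) + δ * t) * (1000 * M₀) ≤ s k' * (1000 * M₀) :=
        mul_le_mul_of_nonneg_right h4 (by positivity)
      have h10 : ((s k : ℝ) + δ * t) * (1000 * M₀) = s k * (1000 * M₀) + 1000 * (δ * M₀) * t := by
        ring
      rw [h10, hδM] at h9
      linarith
    exact_mod_cast h8

lemma T3_zone {C : ℕ} (hC : 0 < C) : ∃ Y : ℝ, ∀ n K q : ℕ, Y ≤ K → 0 < q → K * q ≤ n → 0 < n →
    ∃ S : Finset ℕ, C ≤ S.card ∧ ∀ s ∈ S, T3 s ∧ q * s ∈ ZA n := by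
  obtain ⟨Y, hY⟩ := T3_many (α := 1.755) (α' := 1.775) (by norm_num) (by norm_num) hC
  refine ⟨Y, fun n K q hK hq hKq hn => ?_⟩
  have hqr : (0 : ℝ) < q := by exact_mod_cast hq
  have hnr : (0 : ℝ) < n := by exact_mod_cast hn
  have h1 : Y ≤ (n : ℝ) / q := by
    refine hK.trans ?_
    rw [le_div_iff₀ hqr]
    exact_mod_cast hKq
  obtain ⟨s, hs⟩ := hY _ h1
  have hCr : (0 : ℝ) < C := by exact_mod_cast hC
  set δ : ℝ := ((1.775 : ℝ) - 1.755) / (2 * C) with hδ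
  have hδM : (2 * (C : ℝ)) * δ = 0.02 := by rw [hδ]; field_simp; norm_num
  have hδ0 : 0 < δ := by rw [hδ]; apply div_pos (by norm_num) (by positivity)
  have hy0 : 0 < (n : ℝ) / q := by positivity
  have hlt : ∀ k k', k < k' → k' < C → s k < s k' := by
    intro k k' hkk hk'
    obtain ⟨_, _, h3⟩ := hs k (hkk.trans hk')
    obtain ⟨_, h2', _⟩ := hs k' hk'
    have hkk' : (k : ℝ) + 1 ≤ k' := by exact_mod_cast hkk
    have h4 : (1.755 + (2 * (k : ℝ) + 1) * δ) * ((n : ℝ) / q) <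
        (1.755 + 2 * (k' : ℝ) * δ) * ((n : ℝ) / q) := by
      apply mul_lt_mul_of_pos_right _ hy0
      have : (2 * (k : ℝ) + 1) * δ < 2 * (k' : ℝ) * δ := by
        apply mul_lt_mul_of_pos_right _ hδ0
        linarith
      linarith
    have : (s k : ℝ) < s k' := by linarith
    exact_mod_cast this
  refine ⟨(range C).image s, ?_, ?_⟩
  · rw [card_image_of_injOn, card_range]
    intro k hk k' hk' heq
    rw [mem_coe, mem_range] at hk hk'
    rcases lt_trichotomy k k' with h | h | h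
    · have := hlt k k' h hk'; omega
    · exact h
    · have := hlt k' k h hk; omega
  · intro z hz
    rw [mem_image] at hz
    obtain ⟨k, hk, rfl⟩ := hz
    rw [mem_range] at hk
    obtain ⟨h1, h2, h3⟩ := hs k hk
    have hk1 : (k : ℝ) + 1 ≤ C := by exact_mod_cast hk
    have hk0 : (0 : ℝ) ≤ k := Nat.cast_nonneg k
    refine ⟨h1, ?_⟩
    have h4 : (1.755 : ℝ) * ((n : ℝ) / q) ≤ s k := by
      refine le_trans ?_ h2
      apply mul_le_mul_of_nonneg_right _ hy0.le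
      have : 0 ≤ 2 * (k : ℝ) * δ := by positivity
      linarith
    have h5 : (s k : ℝ) ≤ 1.775 * ((n : ℝ) / q) := by
      refine h3.trans ?_
      apply mul_le_mul_of_nonneg_right _ hy0.le
      have h6 : (2 * (k : ℝ) + 1) * δ ≤ (2 * C) * δ := by
        apply mul_le_mul_of_nonneg_right _ hδ0.le
        linarith
      linarith
    have h6 : (1.755 : ℝ) * n ≤ q * s k := by
      calc (1.755 : ℝ) * n = q * (1.755 * ((n : ℝ) / q)) := by field_simp
        _ ≤ q * s k := mul_le_mul_of_nonneg_left h4 hqr.le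
    have h7 : (q : ℝ) * s k ≤ 1.775 * n := by
      calc (q : ℝ) * s k ≤ q * (1.775 * ((n : ℝ) / q)) := mul_le_mul_of_nonneg_left h5 hqr.le
        _ = 1.775 * n := by field_simp
    have h6' : (1755 * n : ℝ) ≤ 1000 * (q * s k) := by linarith
    have h7' : (1000 * (q * s k) : ℝ) ≤ 1775 * n := by linarith
    have h6'' : 1755 * n ≤ 1000 * (q * s k) := by exact_mod_cast h6'
    have h7'' : 1000 * (q * s k) ≤ 1775 * n := by exact_mod_cast h7'
    unfold ZA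
    rw [mem_Ioc]
    constructor <;> omega

lemma hnum_ev {η : ℝ} (hη0 : 0 < η) {C M₀ K : ℕ} (hK : 1 ≤ K)
    (hM₀ : (108 * C + 1) * 136 / η ^ 2 ≤ M₀) {ε₁ : ℝ} (hε₁0 : 0 < ε₁) (hε₁ : ε₁ / η ≤ 1 / (2 * K)) :
    ∀ᶠ n : ℕ in atTop, ∀ x : ℕ,
    η * (n / Real.log n) ≤ x → (x : ℝ) ≤ 1 / η * (n / Real.log n) →
    ∀ t : ℕ, K ≤ t → t * YY n ≤ 2 * n → 3 * (C * Nat.primeCounting (2 * n / t)) +
      (if t < 2 * K then ⌊ε₁ * x⌋₊ else 0) ≤ M₀ * (⌊η * x / 16⌋₊ / (6 * (11 * t / 10))) := by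
  filter_upwards [pi_phaseL, hsp_bounds hη0, YY_large (1904 / η ^ 2), eventually_ge_atTop 3,
    YY_ge 1] with n hpi hhsp hYl h3 hY1 x hx1 hx2 t htK htY
  have hn0 : (3 : ℝ) ≤ n := by exact_mod_cast h3
  have hn00 : (0 : ℝ) < n := by linarith
  have hlog : 0 < Real.log n := Real.log_pos (by linarith)
  set L : ℝ := (n : ℝ) / Real.log n with hL
  have hL0 : 0 < L := by positivity
  have ht1 : 1 ≤ t := hK.trans htK
  have htr : (1 : ℝ) ≤ t := by exact_mod_cast ht1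
  have ht0 : (0 : ℝ) < t := by linarith
  have hKr : (0 : ℝ) < K := by exact_mod_cast hK
  obtain ⟨hh1, hh2⟩ := hhsp x hx1 hx2
  set hsp : ℕ := ⌊η * x / 16⌋₊ with hhspd
  have hpi' := hpi t ht1 htY
  have hY0 : (0 : ℝ) < YY n := by exact_mod_cast hY1
  -- hsp ≥ 56 t
  have h56 : (56 : ℝ) * t ≤ hsp := by
    have h4 : (t : ℝ) * YY n ≤ 2 * n := by exact_mod_cast htY
    have h5 : (t : ℝ) * (1904 / η ^ 2 * Real.log n) ≤ 2 * n :=
      (mul_le_mul_of_nonneg_left hYl ht0.le).trans h4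
    have h6 : (56 : ℝ) * t ≤ η ^ 2 / 17 * L := by
      rw [hL, mul_div_assoc', le_div_iff₀ hlog]
      have h7 : (56 : ℝ) * t * Real.log n = (η ^ 2 / 34) * (t * (1904 / η ^ 2 * Real.log n)) := by
        field_simp; norm_num
      rw [h7]
      calc η ^ 2 / 34 * (t * (1904 / η ^ 2 * Real.log n)) ≤ η ^ 2 / 34 * (2 * n) :=
            mul_le_mul_of_nonneg_left h5 (by positivity)
        _ = η ^ 2 / 17 * n := by ring
    exact h6.trans hh1
  -- lower bound for the right side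
  have hdiv : (hsp : ℝ) / (8 * t) ≤ ((hsp / (6 * (11 * t / 10)) : ℕ) : ℝ) := by
    have h4 : hsp / (7 * t) ≤ hsp / (6 * (11 * t / 10)) :=
      Nat.div_le_div_left (by omega) (by omega)
    have h5 : ((hsp / (7 * t) : ℕ) : ℝ) ≤ ((hsp / (6 * (11 * t / 10)) : ℕ) : ℝ) := by
      exact_mod_cast h4
    have h6 : (hsp : ℝ) / (7 * t) - 1 ≤ ((hsp / (7 * t) : ℕ) : ℝ) := by
      have := Nat.lt_floor_add_one ((hsp : ℝ) / ((7 * t : ℕ) : ℝ))
      rw [Nat.floor_div_eq_div] at this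
      push_cast at this
      linarith
    have h7 : (hsp : ℝ) / (8 * t) ≤ (hsp : ℝ) / (7 * t) - 1 := by
      rw [div_le_iff₀ (by positivity)]
      have : ((hsp : ℝ) / (7 * t) - 1) * (8 * t) = 8 / 7 * hsp - 8 * t := by field_simp
      rw [this]; linarith
    linarith
  have hM₀pos : (0 : ℝ) < M₀ := lt_of_lt_of_le (by positivity) hM₀
  have hRHS : (108 * C + 1) * (L / t) ≤ (M₀ : ℝ) * ((hsp / (6 * (11 * t / 10)) : ℕ) : ℝ) := by
    have h4 : η ^ 2 / 136 * (L / t) ≤ (hsp : ℝ) / (8 * t) := by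
      calc η ^ 2 / 136 * (L / t) = (η ^ 2 / 17 * L) / (8 * t) := by field_simp; norm_num
        _ ≤ (hsp : ℝ) / (8 * t) := by gcongr
    calc (108 * C + 1) * (L / t) = ((108 * C + 1) * 136 / η ^ 2) * (η ^ 2 / 136 * (L / t)) := by
          field_simp
      _ ≤ M₀ * (η ^ 2 / 136 * (L / t)) := mul_le_mul_of_nonneg_right hM₀ (by positivity)
      _ ≤ M₀ * ((hsp : ℝ) / (8 * t)) := mul_le_mul_of_nonneg_left h4 hM₀pos.le
      _ ≤ _ := mul_le_mul_of_nonneg_left hdiv hM₀pos.le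
  have hLHS1 : (3 : ℝ) * (C * Nat.primeCounting (2 * n / t)) ≤ 108 * C * (L / t) := by
    calc (3 : ℝ) * (C * Nat.primeCounting (2 * n / t)) ≤ 3 * (C * (36 * L / t)) := by gcongr
      _ = _ := by ring
  have hLHS2 : ((if t < 2 * K then ⌊ε₁ * x⌋₊ else 0 : ℕ) : ℝ) ≤ L / t := by
    split_ifs with ht2
    · have h5 : (⌊ε₁ * (x : ℝ)⌋₊ : ℝ) ≤ ε₁ * x := Nat.floor_le (by positivity)
      have h6 : ε₁ * (x : ℝ) ≤ ε₁ / η * L := by
        calc ε₁ * (x : ℝ) ≤ ε₁ * (1 / η * L) := mul_le_mul_of_nonneg_left hx2 hε₁0.le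
          _ = _ := by ring
      have h7 : ε₁ / η * L ≤ 1 / (2 * K) * L := mul_le_mul_of_nonneg_right hε₁ hL0.le
      have h8 : (t : ℝ) ≤ 2 * K := by exact_mod_cast ht2.le
      calc (⌊ε₁ * (x : ℝ)⌋₊ : ℝ) ≤ 1 / (2 * K) * L := by linarith
        _ = L / (2 * K) := by ring
        _ ≤ L / t := by gcongr
    · simp only [Nat.cast_zero]; positivity
  have hfin : ((3 * (C * Nat.primeCounting (2 * n / t)) +
      (if t < 2 * K then ⌊ε₁ * x⌋₊ else 0) : ℕ) : ℝ) ≤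
      ((M₀ * (hsp / (6 * (11 * t / 10))) : ℕ) : ℝ) := by
    rw [Nat.cast_add, Nat.cast_mul, Nat.cast_mul, Nat.cast_mul M₀]
    push_cast at hLHS1 hLHS2 ⊢
    linarith
  exact_mod_cast hfin

end H20.EGS
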