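import Pool.Agent.H20.EGS.PhaseE
import Pool.Agent.H20.EGS.Config
import Pool.Agent.H20.EGS.CoreLemmas

/-!
# The core construction
-/

open Finset Filter Topology

namespace H20.EGS

/-- phase D sums at primes `≥ 5` -/
lemma sumD_prime {R : Finset ℕ} (hR : ∀ r ∈ R, r.Prime) (d : ℕ → ℤ) {q : ℕ} (hq : q.Prime)
    (h5 : 5 ≤ q) : ∑ r ∈ R, d r * ((r.factorization q : ℤ) - ((sn r).factorization q : ℤ)) =
      if q ∈ R then d q else 0 := by
  have h1 : ∀ r ∈ R, d r * ((r.factorization q : ℤ) - ((sn r).factorization q : ℤ)) =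
      if q = r then d r else 0 := by
    intro r hr
    rw [(sn_T3 r).fac_other (by omega) (by omega)]
    by_cases h : q = r
    · subst h
      rw [if_pos rfl, hq.factorization_self]
      simp
    · rw [if_neg h, Nat.factorization_eq_zero_of_not_dvd]
      · simp
      · intro hd
        exact h ((Nat.prime_dvd_prime_iff_eq hq (hR r hr)).1 hd)
  rw [sum_congr rfl h1, sum_ite_eq]

/-- phase D sums at `p ∈ {2,3}` -/
lemma sumD_small {R : Finset ℕ} (hR : ∀ r ∈ R, r.Prime ∧ 5 ≤ r) (d : ℕ → ℤ) {p : ℕ}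
    (hp : p = 2 ∨ p = 3) {ℓ : ℕ} (hℓ : ∀ r ∈ R, Nat.log 2 (sn r) ≤ ℓ) :
    |∑ r ∈ R, d r * ((r.factorization p : ℤ) - ((sn r).factorization p : ℤ))| ≤
      ((∑ r ∈ R, (d r).natAbs) * ℓ : ℕ) := by
  refine (abs_sum_le_sum_abs _ _).trans ?_
  rw [sum_mul, Nat.cast_sum]
  apply sum_le_sum
  intro r hr
  have hpp : p.Prime := by
    rcases hp with rfl | rfl
    · exact Nat.prime_two
    · exact Nat.prime_three
  have h0 : r.factorization p = 0 := by
    apply Nat.factorization_eq_zero_of_not_dvd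
    intro hd
    have := (Nat.prime_dvd_prime_iff_eq hpp (hR r hr).1).1 hd
    have := (hR r hr).2
    omega
  rw [h0, abs_mul]
  push_cast
  rw [zero_sub, abs_neg, Nat.abs_cast]
  apply mul_le_mul_of_nonneg_left _ (abs_nonneg _)
  have := ((sn_T3 r).fac_le' p).trans (hℓ r hr)
  exact_mod_cast this

/-- the log sum of phase L -/
lemma sumL_bound {n K : ℕ} {Y C : ℕ} {κ L : ℝ} (hC : 0 < C)
    (hn : 0 < n) (d : ℕ → ℤ) (hd : ∀ q ∈ QL n K Y, (d q).natAbs ≤ C)
    (hsum : ∑ q ∈ Nat.primesLE (n / K), Real.log (4 * n / q) ≤ κ * Real.log 2 / (4 * C) * L) :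
    ((∑ q ∈ QL n K Y, ((d q).natAbs * Nat.log 2 (4 * n / q) : ℕ) : ℕ) : ℝ) ≤ κ / 4 * L := by
  have hlog2 : 0 < Real.log 2 := Real.log_pos (by norm_num)
  have hCr : (0 : ℝ) < C := by exact_mod_cast hC
  have hnr : (0 : ℝ) < n := by exact_mod_cast hn
  have hsub : QL n K Y ⊆ Nat.primesLE (n / K) := by
    intro q hq
    unfold QL at hq
    rw [mem_filter, mem_Ioc] at hq
    rw [Nat.mem_primesLE]
    exact ⟨hq.1.2, hq.2⟩
  have hpos : ∀ q ∈ Nat.primesLE (n / K), 0 ≤ Real.log (4 * n / q) := by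
    intro q hq
    rw [Nat.mem_primesLE] at hq
    apply Real.log_nonneg
    have hq0 : (0 : ℝ) < q := by exact_mod_cast hq.2.pos
    rw [one_le_div hq0]
    have h1 : q ≤ n := hq.1.trans (Nat.div_le_self _ _)
    have h2 : (q : ℝ) ≤ n := by exact_mod_cast h1
    linarith
  have hterm : ∀ q ∈ QL n K Y, (((d q).natAbs * Nat.log 2 (4 * n / q) : ℕ) : ℝ) ≤
      C / Real.log 2 * Real.log (4 * n / q) := by
    intro q hq
    have hq' := Nat.mem_primesLE.1 (hsub hq)
    have hq0 : (0 : ℝ) < q := by exact_mod_cast hq'.2.pos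
    have hqn : q ≤ n := hq'.1.trans (Nat.div_le_self _ _)
    have h1 : ((d q).natAbs : ℝ) ≤ C := by exact_mod_cast hd q hq
    have hpos4 : 0 < 4 * n / q := Nat.div_pos (by omega) hq'.2.pos
    have h2 : (Nat.log 2 (4 * n / q) : ℝ) ≤ Real.log (4 * n / q) / Real.log 2 := by
      rw [le_div_iff₀ hlog2]
      have h3 : (2 : ℝ) ^ (Nat.log 2 (4 * n / q)) ≤ ((4 * n / q : ℕ) : ℝ) := by
        exact_mod_cast Nat.pow_log_le_self 2 hpos4.ne'
      have h4 : ((4 * n / q : ℕ) : ℝ) ≤ 4 * n / q := by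
        have : ((4 * n / q : ℕ) : ℝ) ≤ ((4 * n : ℕ) : ℝ) / (q : ℕ) := Nat.cast_div_le
        push_cast at this
        exact this
      have h5 := Real.log_le_log (by positivity) (h3.trans h4)
      rw [Real.log_pow] at h5
      exact h5
    rw [Nat.cast_mul]
    calc ((d q).natAbs : ℝ) * (Nat.log 2 (4 * n / q) : ℝ) ≤ C * (Real.log (4 * n / q) / Real.log 2) :=
          mul_le_mul h1 h2 (Nat.cast_nonneg _) hCr.le
      _ = _ := by ring
  rw [Nat.cast_sum]
  calc ∑ q ∈ QL n K Y, (((d q).natAbs * Nat.log 2 (4 * n / q) : ℕ) : ℝ)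
      ≤ ∑ q ∈ QL n K Y, C / Real.log 2 * Real.log (4 * n / q) := sum_le_sum hterm
    _ ≤ ∑ q ∈ Nat.primesLE (n / K), C / Real.log 2 * Real.log (4 * n / q) := by
        apply sum_le_sum_of_subset_of_nonneg hsub
        intro q hq _
        exact mul_nonneg (by positivity) (hpos q hq)
    _ = C / Real.log 2 * ∑ q ∈ Nat.primesLE (n / K), Real.log (4 * n / q) := by rw [mul_sum]
    _ ≤ C / Real.log 2 * (κ * Real.log 2 / (4 * C) * L) :=
        mul_le_mul_of_nonneg_left hsum (by positivity)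
    _ = κ / 4 * L := by field_simp

/-- The core construction. -/
theorem core (K₁ : ℕ) {η : ℝ} (hη0 : 0 < η) (hη1 : η ≤ 1) :
    ∃ K₀ : ℕ, ∀ K : ℕ, K₀ ≤ K → ∃ ε : ℝ, 0 < ε ∧ ∀ᶠ n : ℕ in atTop,
    ∀ x : ℕ, η * (n / Real.log n) ≤ x → (x : ℝ) ≤ 1 / η * (n / Real.log n) →
    ∀ (e : ℕ → ℕ) (φ : ℕ → ℝ), (∀ q, η ≤ φ q ∧ φ q ≤ 1) → (∀ q, K₁ < q → φ q = 1) →
    (∀ q : ℕ, q.Prime → q ≤ 2 * K → |(e q : ℝ) - φ q * x / (q - 1)| ≤ ε * x) →
    (∀ q : ℕ, q.Prime → 2 * K < q → K * q ≤ n →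
        |(e q : ℝ) - x / (q - 1)| ≤ 4 * (Nat.log q (3 * n) + 1)) →
    ∃ D : Finset ℕ, (∀ b ∈ D, n < b ∧ b ≤ 2 * n) ∧
      ∀ q : ℕ, q.Prime → V D q = if K * q ≤ n then e q else 0 := by
  classical
  obtain ⟨C₁, hC₁, hwin⟩ := windows K₁ hη0 hη1
  set C : ℕ := ⌈9 * (C₁ + 4)⌉₊ + 1 with hC
  have hCr : 9 * (C₁ + 4) ≤ C := by
    rw [hC]; push_cast
    linarith [Nat.le_ceil (9 * (C₁ + 4))]
  have hC0 : 0 < C := by omega
  have hCr0 : (0 : ℝ) < C := by exact_mod_cast hC0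
  set M₀ : ℕ := ⌈(108 * C + 1) * 136 / η ^ 2⌉₊ + 1 with hM₀
  have hM₀0 : 0 < M₀ := by omega
  have hM₀r : (108 * C + 1) * 136 / η ^ 2 ≤ M₀ := by
    rw [hM₀]; push_cast
    linarith [Nat.le_ceil ((108 * (C : ℝ) + 1) * 136 / η ^ 2)]
  set κ : ℝ := η ^ 2 / 60000 with hκ
  have hκ0 : 0 < κ := by positivity
  have hlog2 : 0 < Real.log 2 := Real.log_pos (by norm_num)
  obtain ⟨K1, hK1⟩ := sum_log (ε := κ * Real.log 2 / (4 * C)) (by positivity)
  obtain ⟨YT1, hYT1⟩ := T3_sep hM₀0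
  obtain ⟨YT2, hYT2⟩ := T3_zone hC0
  refine ⟨K₁ + 2 + K1 + ⌈YT1⌉₊ + ⌈YT2⌉₊, fun K hK => ?_⟩
  have hKK₁ : K₁ ≤ K := by omega
  have hK2 : 2 ≤ K := by omega
  have hK1' : K1 ≤ K := by omega
  have hKr : (2 : ℝ) ≤ K := by exact_mod_cast hK2
  have hKT1 : YT1 ≤ K := by
    have h1 : (⌈YT1⌉₊ : ℝ) ≤ K := by exact_mod_cast (by omega : ⌈YT1⌉₊ ≤ K)
    exact (Nat.le_ceil YT1).trans h1
  have hKT2 : YT2 ≤ K := by
    have h1 : (⌈YT2⌉₊ : ℝ) ≤ K := by exact_mod_cast (by omega : ⌈YT2⌉₊ ≤ K)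
    exact (Nat.le_ceil YT2).trans h1
  set ε₁ : ℝ := η * κ / (200 * K ^ 2) with hε₁
  have hε₁0 : 0 < ε₁ := by positivity
  have hη2 : η ^ 2 ≤ 1 := pow_le_one₀ hη0.le hη1
  have hKs1 : (K : ℝ) ≤ (K : ℝ) ^ 2 := le_self_pow₀ (by linarith) two_ne_zero
  have hKs4 : (4 : ℝ) ≤ (K : ℝ) ^ 2 := by
    calc (4 : ℝ) = 2 ^ 2 := by norm_num
      _ ≤ (K : ℝ) ^ 2 := pow_le_pow_left₀ (by norm_num) hKr 2
  have hκ1 : κ ≤ 1 / 60000 := by rw [hκ]; linarith
  have hε₁η : ε₁ / η = κ / (200 * K ^ 2) := by rw [hε₁]; field_simp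
  have hε₁K : ε₁ / η ≤ 1 / (2 * K) := by
    rw [hε₁η, div_le_div_iff₀ (by positivity) (by positivity)]
    nlinarith
  refine ⟨ε₁, hε₁0, ?_⟩
  filter_upwards [hwin K hKK₁ (by omega) ε₁ hε₁0, hsp_bounds hη0, hK1 K hK1',
    hnum_ev hη0 (C := C) (M₀ := M₀) (K := K) (by omega) hM₀r hε₁0 hε₁K,
    YY_large (68 * C / η ^ 2), YY_ge (2 * K + 5),
    YY_small (6 * (4 + C₁)) (ε := η ^ 2 / 17) (by positivity),
    YY_small (4 + C₁) (ε := κ / (100 * K)) (by positivity),
    div_log_small (200 * M₀ / 16) (δ := 1) one_pos, div_log_small 125 (δ := 1 / 2) (by norm_num),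
    eventually_ge_atTop (4000 + 10 * K)] with n hW hhsp hsumlog hnum hYl hYK hYs1 hYs2 hdl1 hdl2 hnbig
      x hx1 hx2 e φ hφ1 hφ2 he1 he2
  have hn3 : 3 ≤ n := by omega
  have hn0 : (3 : ℝ) ≤ n := by exact_mod_cast hn3
  have hn00 : (0 : ℝ) < n := by linarith
  have hlog : 0 < Real.log n := Real.log_pos (by linarith)
  set L : ℝ := (n : ℝ) / Real.log n with hL
  have hL0 : 0 < L := by positivity
  have hx0 : (0 : ℝ) < x := lt_of_lt_of_le (by positivity) hx1
  obtain ⟨hh1, hh2⟩ := hhsp x hx1 hx2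
  have hnum' := hnum x hx1 hx2
  set hsp : ℕ := ⌊η * x / 16⌋₊ with hhspd
  set Y : ℕ := YY n with hY
  set ℓ : ℝ := (Nat.log 2 (3 * n) : ℝ) + 1 with hℓ
  have hℓ1 : 1 ≤ ℓ := by
    have : (0 : ℝ) ≤ Nat.log 2 (3 * n) := Nat.cast_nonneg _
    linarith
  have hYr : (1 : ℝ) ≤ Y := by exact_mod_cast (by omega : 1 ≤ Y)
  have h16 : (16 * hsp : ℝ) ≤ η * x := by
    have := Nat.floor_le (show 0 ≤ η * (x : ℝ) / 16 by positivity)
    linarith
  obtain ⟨D0, w1, w2, w3, w4, w5⟩ := hW x hx1 hx2 φ hφ1 hφ2 hsp h16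
  set Bd : ℕ := ⌊ε₁ * x⌋₊ with hBd
  have hε₁x : ε₁ * x ≤ κ / (200 * K ^ 2) * L := by
    calc ε₁ * (x : ℝ) ≤ ε₁ * (1 / η * L) := mul_le_mul_of_nonneg_left hx2 hε₁0.le
      _ = ε₁ / η * L := by ring
      _ = _ := by rw [hε₁η]
  have hBdr : (Bd : ℝ) ≤ κ / (200 * K ^ 2) * L :=
    (Nat.floor_le (by positivity)).trans hε₁x
  -- configuration
  have hconf : Conf n K hsp Bd D0 := by
    refine ⟨hK2, ?_, fun b hb => (w1 b hb).2, w2, fun c hc => ?_⟩
    · have h1 : (2000 : ℝ) * hsp ≤ 1 / 2 * n := by linarith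
      have h2 : (4000 * hsp : ℝ) ≤ n := by linarith
      have h3 : 4000 * hsp ≤ n := by exact_mod_cast h2
      omega
    · exact Nat.le_floor (w3 c hc)
  have hYn : Y * Y ≤ n := by
    calc Y * Y = Y ^ 2 := by ring
      _ ≤ Y ^ 8 := Nat.pow_le_pow_right (by omega) (by norm_num)
      _ ≤ n := YY_pow_le n
  have hKY : K * Y ≤ n := (Nat.mul_le_mul_right Y (by omega)).trans hYn
  -- deviations
  set dD : ℕ → ℤ := fun r => (e r : ℤ) - V D0 r with hdD
  have hdDr : ∀ r, ((dD r).natAbs : ℝ) = |(e r : ℝ) - V D0 r| := by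
    intro r
    rw [Nat.cast_natAbs, hdD]
    push_cast
    rfl
  have hdev1 : ∀ q : ℕ, q.Prime → q ≤ 2 * K → ((dD q).natAbs : ℝ) ≤ 2 * (ε₁ * x) := by
    intro q hq hqK
    rw [hdDr]
    have h1 := he1 q hq hqK
    have h2 := w4 q hq hqK
    rw [abs_le] at h1 h2 ⊢
    constructor <;> linarith [h1.1, h1.2, h2.1, h2.2]
  have hdev2 : ∀ q : ℕ, q.Prime → 2 * K < q → K * q ≤ n → ((dD q).natAbs : ℝ) ≤
      (4 + C₁) * (Nat.log q (3 * n) + 1) := by
    intro q hq hqK hqn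
    rw [hdDr]
    have h1 := he2 q hq hqK hqn
    have h2 := w5 q hq hqK hqn
    rw [abs_le] at h1 h2 ⊢
    constructor <;> linarith [h1.1, h1.2, h2.1, h2.2]
  set R1 := (Ioc (2 * K) Y).filter Nat.Prime with hR1
  set R2 := (Icc 5 (2 * K)).filter Nat.Prime with hR2
  set U1 := ∑ r ∈ R1, (dD r).natAbs with hU1
  set U2 := ∑ r ∈ R2, (dD r).natAbs with hU2
  have hU1r : (U1 : ℝ) ≤ Y * ((4 + C₁) * ℓ) := by
    rw [hU1, Nat.cast_sum]
    have h1 : ∀ r ∈ R1, ((dD r).natAbs : ℝ) ≤ (4 + C₁) * ℓ := by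
      intro r hr
      rw [hR1, mem_filter, mem_Ioc] at hr
      refine (hdev2 r hr.2 hr.1.1 ((Nat.mul_le_mul_left K hr.1.2).trans hKY)).trans ?_
      apply mul_le_mul_of_nonneg_left _ (by linarith)
      have h2 : Nat.log r (3 * n) ≤ Nat.log 2 (3 * n) := Nat.log_anti_left (by norm_num) hr.2.two_le
      have h3 : (Nat.log r (3 * n) : ℝ) ≤ Nat.log 2 (3 * n) := by exact_mod_cast h2
      linarith
    refine (sum_le_card_nsmul _ _ _ h1).trans ?_
    rw [nsmul_eq_mul]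
    apply mul_le_mul_of_nonneg_right _ (by positivity)
    have h4 : R1.card ≤ Y := by
      refine (card_filter_le _ _).trans ?_
      rw [Nat.card_Ioc]; omega
    exact_mod_cast h4
  have hU2r : (U2 : ℝ) ≤ κ / (50 * K) * L := by
    rw [hU2, Nat.cast_sum]
    have h1 : ∀ r ∈ R2, ((dD r).natAbs : ℝ) ≤ 2 * (ε₁ * x) := by
      intro r hr
      rw [hR2, mem_filter, mem_Icc] at hr
      exact hdev1 r hr.2 hr.1.2
    refine (sum_le_card_nsmul _ _ _ h1).trans ?_
    rw [nsmul_eq_mul]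
    have h4 : R2.card ≤ 2 * K := by
      refine (card_filter_le _ _).trans ?_
      rw [Nat.card_Icc]; omega
    have h5 : (R2.card : ℝ) ≤ 2 * K := by exact_mod_cast h4
    calc (R2.card : ℝ) * (2 * (ε₁ * x)) ≤ (2 * K) * (2 * (κ / (200 * K ^ 2) * L)) := by gcongr
      _ = κ / (50 * K) * L := by field_simp; norm_num
  have hYℓ : (Y : ℝ) * ℓ ≤ (Y : ℝ) ^ 2 * ℓ ^ 2 := by
    have h1 : 1 ≤ (Y : ℝ) * ℓ := one_le_mul_of_one_le_of_one_le hYr hℓ1
    calc (Y : ℝ) * ℓ = (Y * ℓ) * 1 := by ring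
      _ ≤ (Y * ℓ) * (Y * ℓ) := mul_le_mul_of_nonneg_left h1 (by positivity)
      _ = _ := by ring
  have hU1s : (U1 : ℝ) ≤ κ / (100 * K) * L := by
    calc (U1 : ℝ) ≤ Y * ((4 + C₁) * ℓ) := hU1r
      _ = (4 + C₁) * (Y * ℓ) := by ring
      _ ≤ (4 + C₁) * ((Y : ℝ) ^ 2 * ℓ ^ 2) := mul_le_mul_of_nonneg_left hYℓ (by linarith)
      _ ≤ _ := hYs2
  have hcap1 : 3 * U1 ≤ hsp / (2 * Y) := by
    rw [Nat.le_div_iff_mul_le (by omega)]
    have h1 : (3 * U1 : ℝ) * (2 * Y) ≤ hsp := by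
      calc (3 * U1 : ℝ) * (2 * Y) ≤ (3 * (Y * ((4 + C₁) * ℓ))) * (2 * Y) := by gcongr
        _ = 6 * (4 + C₁) * ((Y : ℝ) ^ 2 * ℓ) := by ring
        _ ≤ 6 * (4 + C₁) * ((Y : ℝ) ^ 2 * ℓ ^ 2) := by
            apply mul_le_mul_of_nonneg_left _ (by linarith)
            exact mul_le_mul_of_nonneg_left (le_self_pow₀ hℓ1 two_ne_zero) (by positivity)
        _ ≤ _ := hYs1.trans hh1
    exact_mod_cast h1
  have hcap2 : Bd + 2 * U1 + 3 * U2 ≤ hsp / (4 * K) := by
    rw [Nat.le_div_iff_mul_le (by omega)]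
    have h1 : ((Bd : ℝ) + 2 * U1 + 3 * U2) * (4 * K) ≤ hsp := by
      have h2 : (Bd : ℝ) ≤ κ / (200 * K) * L := by
        refine hBdr.trans ?_
        have : κ / (200 * (K : ℝ) ^ 2) ≤ κ / (200 * K) := by
          apply div_le_div_of_nonneg_left hκ0.le (by positivity)
          exact mul_le_mul_of_nonneg_left hKs1 (by norm_num)
        exact mul_le_mul_of_nonneg_right this hL0.le
      calc ((Bd : ℝ) + 2 * U1 + 3 * U2) * (4 * K)
          ≤ (κ / (200 * K) * L + 2 * (κ / (100 * K) * L) + 3 * (κ / (50 * K) * L)) * (4 * K) := by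
            gcongr
        _ = 17 / 50 * κ * L := by field_simp; ring
        _ ≤ η ^ 2 / 17 * L := by
            apply mul_le_mul_of_nonneg_right _ hL0.le
            rw [hκ]
            have : 0 ≤ η ^ 2 := sq_nonneg η
            linarith only [this]
        _ ≤ _ := hh1
    exact_mod_cast h1
  obtain ⟨D2, a1, a2, a3⟩ := phaseD hconf dD hKY (by omega) hcap1 hcap2
  have hR1p : ∀ r ∈ R1, r.Prime ∧ 5 ≤ r := by
    intro r hr
    rw [hR1, mem_filter, mem_Ioc] at hr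
    exact ⟨hr.2, by omega⟩
  have hR2p : ∀ r ∈ R2, r.Prime ∧ 5 ≤ r := by
    intro r hr
    rw [hR2, mem_filter, mem_Icc] at hr
    exact ⟨hr.2, hr.1.1⟩
  -- valuations of D2 at primes ≥ 5
  have hV2 : ∀ q : ℕ, q.Prime → 5 ≤ q → (V D2 q : ℤ) = if q ≤ Y then (e q : ℤ) else V D0 q := by
    intro q hq h5
    rw [a3 q, sumD_prime (fun r hr => (hR1p r hr).1) dD hq h5,
      sumD_prime (fun r hr => (hR2p r hr).1) dD hq h5]
    by_cases hqY : q ≤ Y
    · rw [if_pos hqY]
      by_cases hqK : q ≤ 2 * K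
      · rw [if_neg, if_pos]
        · rw [hdD]; ring
        · rw [hR2, mem_filter, mem_Icc]; exact ⟨⟨h5, hqK⟩, hq⟩
        · rw [hR1, mem_filter, mem_Ioc]; omega
      · rw [if_pos, if_neg]
        · rw [hdD]; ring
        · rw [hR2, mem_filter, mem_Icc]; omega
        · rw [hR1, mem_filter, mem_Ioc]; exact ⟨⟨by omega, hqY⟩, hq⟩
    · rw [if_neg hqY, if_neg, if_neg]
      · ring
      · rw [hR2, mem_filter, mem_Icc]; omega
      · rw [hR1, mem_filter, mem_Ioc]; omega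
  -- phase L
  set dL : ℕ → ℤ := fun q => (e q : ℤ) - V D2 q with hdL
  have hK0 : 0 < K := by omega
  have hdLC : ∀ q ∈ QL n K Y, (dL q).natAbs ≤ C := by
    intro q hq
    obtain ⟨⟨h1, h2⟩, h3⟩ := (mem_QL hK0).1 hq
    have h4 : dL q = dD q := by
      rw [hdL, hdD]
      simp only
      rw [hV2 q h3 (by omega), if_neg (by omega)]
    rw [h4]
    have h5 := hdev2 q h3 (by omega) h2
    have h6 : Nat.log q (3 * n) ≤ 8 := log_le_eight hn3 (by omega) h1
    have h7 : (Nat.log q (3 * n) : ℝ) ≤ 8 := by exact_mod_cast h6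
    have h8 : ((dD q).natAbs : ℝ) ≤ C := by
      refine h5.trans (le_trans ?_ hCr)
      have h9 : (4 + C₁) * ((Nat.log q (3 * n) : ℝ) + 1) ≤ (4 + C₁) * 9 :=
        mul_le_mul_of_nonneg_left (by linarith only [h7]) (by linarith only [hC₁])
      linarith only [h9]
    exact_mod_cast h8
  have hYC : C * (4 * n) ≤ hsp * Y := by
    have h1 : (C : ℝ) * (4 * n) ≤ hsp * Y := by
      have h2 : η ^ 2 / 17 * L * (68 * C / η ^ 2 * Real.log n) ≤ hsp * Y :=
        mul_le_mul hh1 hYl (by positivity) (Nat.cast_nonneg _)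
      have h3 : η ^ 2 / 17 * L * (68 * C / η ^ 2 * Real.log n) = C * (4 * n) := by
        rw [hL]; field_simp; norm_num
      linarith
    exact_mod_cast h1
  have hMh : 200 * M₀ * hsp ≤ n := by
    have h1 : (200 * M₀ * hsp : ℝ) ≤ n := by
      calc (200 * M₀ * hsp : ℝ) ≤ 200 * M₀ * (1 / 16 * L) := by gcongr
        _ = 200 * M₀ / 16 * L := by ring
        _ ≤ 1 * n := hdl1
        _ = n := one_mul _
    exact_mod_cast h1
  obtain ⟨D4, b1, b2, E, b3, b4, b5⟩ := phaseL hconf a1 a2 (by omega) hKY hYC hM₀0 hMh dL hdLC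
    (fun q _ => by rw [hdL]; simp)
    (fun t ht => hYT1 t (hKT1.trans (by exact_mod_cast ht)))
    (fun q hq => by
      obtain ⟨⟨h1, h2⟩, h3⟩ := (mem_QL hK0).1 hq
      exact hYT2 n K q hKT2 h3.pos h2 (by omega))
    hnum'
  set SL : ℕ := ∑ q ∈ QL n K Y, ((dL q).natAbs * Nat.log 2 (4 * n / q) : ℕ) with hSL
  have hSLr : (SL : ℝ) ≤ κ / 4 * L := sumL_bound hC0 (by omega) dL hdLC hsumlog
  set UL : ℕ := ∑ q ∈ QL n K Y, (dL q).natAbs with hUL
  have hULS : UL ≤ SL := by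
    apply sum_le_sum
    intro q hq
    obtain ⟨⟨h1, h2⟩, h3⟩ := (mem_QL hK0).1 hq
    apply Nat.le_mul_of_pos_right
    apply Nat.log_pos (by norm_num)
    rw [Nat.le_div_iff_mul_le h3.pos]
    have : 2 * q ≤ K * q := Nat.mul_le_mul_right q hK2
    omega
  -- valuations of D4
  have hsumL : ∀ p : ℕ, p.Prime → ∑ q ∈ QL n K Y, dL q * (q.factorization p : ℤ) =
      if p ∈ QL n K Y then dL p else 0 := by
    intro p hp
    have h1 : ∀ q ∈ QL n K Y, dL q * (q.factorization p : ℤ) = if p = q then dL q else 0 := by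
      intro q hq
      obtain ⟨_, h3⟩ := (mem_QL hK0).1 hq
      by_cases h : p = q
      · subst h; rw [if_pos rfl, hp.factorization_self]; simp
      · rw [if_neg h, Nat.factorization_eq_zero_of_not_dvd]
        · simp
        · intro hd
          exact h ((Nat.prime_dvd_prime_iff_eq hp h3).1 hd)
    rw [sum_congr rfl h1, sum_ite_eq]
  have hV4 : ∀ q : ℕ, q.Prime → 5 ≤ q → (V D4 q : ℤ) = if K * q ≤ n then (e q : ℤ) else 0 := by
    intro q hq h5
    rw [b5 q, b3 q (by omega) (by omega), hsumL q hq, hV2 q hq h5]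
    by_cases hqY : q ≤ Y
    · have h1 : K * q ≤ n := (Nat.mul_le_mul_left K hqY).trans hKY
      rw [if_pos hqY, if_pos h1, if_neg]
      · ring
      · rw [mem_QL hK0]; omega
    · by_cases hqn : K * q ≤ n
      · have h1 : q ∈ QL n K Y := (mem_QL hK0).2 ⟨⟨by omega, hqn⟩, hq⟩
        rw [if_neg hqY, if_pos hqn, if_pos h1, hdL]
        simp only
        rw [hV2 q hq h5, if_neg hqY]
        ring
      · rw [if_neg hqY, if_neg hqn, if_neg]
        · have h0 : V D0 q = 0 := by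
            unfold V
            apply sum_eq_zero
            intro b hb
            apply Nat.factorization_eq_zero_of_not_dvd
            intro hd
            exact hqn ((w1 b hb).1 q hq hd)
          rw [h0]; simp
        · rw [mem_QL hK0]; omega
  -- deviation at 2 and 3
  have hdev : ∀ p : ℕ, p = 2 ∨ p = 3 → (((e p : ℤ) - V D4 p).natAbs : ℝ) ≤ 17 / 50 * κ * L := by
    intro p hp
    have hpp : p.Prime := by
      rcases hp with rfl | rfl
      · exact Nat.prime_two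
      · exact Nat.prime_three
    have hpQ : p ∉ QL n K Y := by rw [mem_QL hK0]; omega
    have h1 : (V D4 p : ℤ) = V D2 p + E p := by
      rw [b5 p, hsumL p hpp, if_neg hpQ]; ring
    have h2 := a3 p
    have h3 := sumD_small (R := R1) hR1p dD hp (ℓ := Nat.log 2 (3 * n)) (by
      intro r hr
      apply Nat.log_mono_right
      have h4 := sn_high (hR1p r hr).2
      rw [hR1, mem_filter, mem_Ioc] at hr
      have h5 : Y ≤ Y * Y := Nat.le_mul_of_pos_left Y (by omega)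
      omega)
    have h4 := sumD_small (R := R2) hR2p dD hp (ℓ := 4 * K) (by
      intro r hr
      have h4 := sn_high (hR2p r hr).2
      rw [hR2, mem_filter, mem_Icc] at hr
      have h5 : sn r ≤ 4 * K := by omega
      exact (Nat.log_mono_right h5).trans (Nat.log_le_self 2 _))
    have h5 := b4 p
    have h6 : |((e p : ℤ) - V D4 p)| ≤ |dD p| + ((U1 * Nat.log 2 (3 * n) : ℕ) : ℤ) +
        ((U2 * (4 * K) : ℕ) : ℤ) + (SL : ℤ) := by
      have e1 : (e p : ℤ) - V D4 p = dD p -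
          (∑ r ∈ R1, dD r * ((r.factorization p : ℤ) - ((sn r).factorization p : ℤ))) -
          (∑ r ∈ R2, dD r * ((r.factorization p : ℤ) - ((sn r).factorization p : ℤ))) - E p := by
        rw [h1, h2, hdD]; ring
      rw [e1]
      have h7 := le_abs_self (dD p)
      have h8 := neg_abs_le (dD p)
      rw [abs_le] at h3 h4 h5 ⊢
      constructor <;> linarith [h3.1, h3.2, h4.1, h4.2, h5.1, h5.2]
    have h7 : (((e p : ℤ) - V D4 p).natAbs : ℝ) ≤ ((dD p).natAbs : ℝ) +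
        (U1 : ℝ) * (Nat.log 2 (3 * n) : ℝ) + (U2 : ℝ) * (4 * K) + SL := by
      have h8 : (((e p : ℤ) - V D4 p).natAbs : ℤ) ≤ (((dD p).natAbs + U1 * Nat.log 2 (3 * n) +
          U2 * (4 * K) + SL : ℕ) : ℤ) := by
        rw [Int.natCast_natAbs]
        refine h6.trans (le_of_eq ?_)
        push_cast
        rfl
      have h9 : ((e p : ℤ) - V D4 p).natAbs ≤ (dD p).natAbs + U1 * Nat.log 2 (3 * n) +
          U2 * (4 * K) + SL := by exact_mod_cast h8
      exact_mod_cast h9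
    have h8 : ((dD p).natAbs : ℝ) ≤ 1 / 400 * κ * L := by
      refine (hdev1 p hpp (by omega)).trans ?_
      calc 2 * (ε₁ * (x : ℝ)) ≤ 2 * (κ / (200 * K ^ 2) * L) := by gcongr
        _ = κ / (100 * K ^ 2) * L := by field_simp; norm_num
        _ ≤ κ / 400 * L := by
            apply mul_le_mul_of_nonneg_right _ hL0.le
            apply div_le_div_of_nonneg_left hκ0.le (by norm_num)
            linarith only [hKs4]
        _ = _ := by ring
    have h9 : (U1 : ℝ) * (Nat.log 2 (3 * n) : ℝ) ≤ 1 / 200 * κ * L := by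
      have g1 : (Nat.log 2 (3 * n) : ℝ) ≤ ℓ := by rw [hℓ]; linarith
      calc (U1 : ℝ) * (Nat.log 2 (3 * n) : ℝ) ≤ (Y * ((4 + C₁) * ℓ)) * ℓ :=
            mul_le_mul hU1r g1 (Nat.cast_nonneg _) (by positivity)
        _ = (4 + C₁) * (Y * ℓ ^ 2) := by ring
        _ ≤ (4 + C₁) * ((Y : ℝ) ^ 2 * ℓ ^ 2) := by
            apply mul_le_mul_of_nonneg_left _ (by linarith)
            exact mul_le_mul_of_nonneg_right (le_self_pow₀ hYr two_ne_zero) (by positivity)
        _ ≤ κ / (100 * K) * L := hYs2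
        _ ≤ κ / 200 * L := by
            apply mul_le_mul_of_nonneg_right _ hL0.le
            apply div_le_div_of_nonneg_left hκ0.le (by norm_num)
            linarith
        _ = _ := by ring
    have h10 : (U2 : ℝ) * (4 * K) ≤ 2 / 25 * κ * L := by
      calc (U2 : ℝ) * (4 * K) ≤ (κ / (50 * K) * L) * (4 * K) := by gcongr
        _ = _ := by field_simp; norm_num
    have hκL : 0 < κ * L := by positivity
    linarith
  -- phase E
  have hbase : D4 ⊆ (D0 ∪ ZD n) ∪ ZA n ∪ ZB n := by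
    intro b hb
    have h1 := b1 hb
    rw [mem_union, mem_union] at h1 ⊢
    rcases h1 with (h1 | h1) | h1
    · exact Or.inl (Or.inl (a1 h1))
    · exact Or.inl (Or.inr h1)
    · exact Or.inr h1
  have hcn := hconf.hn
  have hZE : ∀ b ∈ D4, b ∉ ZE1 n ∧ b ∉ ZE2 n := by
    intro b hb
    have h1 := hbase hb
    unfold ZE1 ZE2
    rw [mem_union, mem_union, mem_union] at h1
    rw [mem_union, mem_union, mem_Ioc, mem_Ioc, mem_Ioc, mem_Ioc]
    rcases h1 with ((h1 | h1) | h1) | h1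
    · rcases hconf.pos b h1 with ⟨c, hc, h2, h3⟩ | ⟨h2, h3⟩
      · unfold Sp at hc
        simp only [mem_insert, mem_singleton] at hc
        rcases hc with rfl | rfl | rfl | rfl | rfl | rfl | rfl | rfl <;>
          constructor <;> intro h4 <;> rcases h4 with h4 | h4 <;> omega
      · constructor <;> intro h4 <;> rcases h4 with h4 | h4 <;> omega
    · unfold ZD at h1
      rw [mem_Ioc] at h1
      constructor <;> intro h4 <;> rcases h4 with h4 | h4 <;> omega
    · unfold ZA at h1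
      rw [mem_Ioc] at h1
      constructor <;> intro h4 <;> rcases h4 with h4 | h4 <;> omega
    · unfold ZB at h1
      rw [mem_Ioc] at h1
      constructor <;> intro h4 <;> rcases h4 with h4 | h4 <;> omega
  have hmissE : ∀ c ∈ Sp, ∀ a, c = 1620 ∨ c = 1700 ∨ c = 1940 ∨ c = 1980 →
      miss D4 (c * n / 1000) hsp a ≤ Bd + 2 * UL := by
    intro c hc a hc'
    refine (miss_le D2 D4 _ _ _).trans (Nat.add_le_add ?_ b2)
    refine le_trans ?_ (hconf.miss_le hc a)
    unfold miss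
    apply card_le_card
    intro b hb
    rw [mem_filter, mem_Ioc] at hb ⊢
    refine ⟨hb.1, hb.2.1, fun hbD => ?_⟩
    have h3 := a2 (mem_sdiff.2 ⟨hbD, hb.2.2⟩)
    unfold ZD at h3
    rw [mem_union, mem_union, mem_Ioc, mem_Ioc, mem_Ioc] at h3
    rcases hc' with rfl | rfl | rfl | rfl <;> omega
  obtain ⟨D6, f1, f2, f3, f4⟩ := phaseE (Mi := Bd + 2 * UL) (by omega : 2000 * hsp + 2000 ≤ n)
    ((e 2 : ℤ) - V D4 2) ((e 3 : ℤ) - V D4 3) hmissE
    (by
      rw [← disjoint_iff_inter_eq_empty, disjoint_left]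
      intro b hb; exact (hZE b hb).1)
    (by
      rw [← disjoint_iff_inter_eq_empty, disjoint_left]
      intro b hb; exact (hZE b hb).2)
    (by
      rw [Nat.le_div_iff_mul_le (by norm_num)]
      have h2 := hdev 2 (Or.inl rfl)
      have h3 := hdev 3 (Or.inr rfl)
      have h4 : (UL : ℝ) ≤ κ / 4 * L := by
        have : (UL : ℝ) ≤ SL := by exact_mod_cast hULS
        linarith
      have h5 : (Bd : ℝ) ≤ 1 / 100 * κ * L := by
        refine hBdr.trans ?_
        calc κ / (200 * (K : ℝ) ^ 2) * L ≤ κ / 100 * L := by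
              apply mul_le_mul_of_nonneg_right _ hL0.le
              apply div_le_div_of_nonneg_left hκ0.le (by norm_num)
              linarith only [hKs4]
          _ = _ := by ring
      have hκL : κ * L = η ^ 2 / 60000 * L := by rw [hκ]
      have hηL : 0 < η ^ 2 * L := by positivity
      have h6 : ((Bd : ℝ) + 2 * UL + 4 * (5 * ((e 2 : ℤ) - V D4 2).natAbs +
          8 * ((e 3 : ℤ) - V D4 3).natAbs)) * 32 ≤ hsp := by linarith
      exact_mod_cast h6)
  refine ⟨D6, ?_, ?_⟩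
  · intro b hb
    have h1 := f1 hb
    rw [mem_union, mem_union] at h1
    rcases h1 with (h1 | h1) | h1
    · have h2 := hbase h1
      rw [mem_union, mem_union] at h2
      rcases h2 with (h2 | h2) | h2
      · exact hconf.range le_rfl h2
      · unfold ZA at h2
        rw [mem_Ioc] at h2
        omega
      · unfold ZB at h2
        rw [mem_Ioc] at h2
        omega
    · unfold ZE1 at h1
      rw [mem_union, mem_Ioc, mem_Ioc] at h1
      omega
    · unfold ZE2 at h1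
      rw [mem_union, mem_Ioc, mem_Ioc] at h1
      omega
  · intro q hq
    by_cases h2 : q = 2
    · subst h2
      have h3 : K * 2 ≤ n := by omega
      rw [if_pos h3]
      have : (V D6 2 : ℤ) = e 2 := by rw [f2]; ring
      exact_mod_cast this
    · by_cases h3 : q = 3
      · subst h3
        have h4 : K * 3 ≤ n := by omega
        rw [if_pos h4]
        have : (V D6 3 : ℤ) = e 3 := by rw [f3]; ring
        exact_mod_cast this
      · have h5 : 5 ≤ q := by
          have := hq.two_le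
          by_contra hcon
          push Not at hcon
          have : q = 4 := by omega
          subst this
          exact absurd hq (by norm_num)
        rw [f4 q h2 h3]
        have := hV4 q hq h5
        split_ifs at this ⊢ with h6
        · exact_mod_cast this
        · exact_mod_cast this

end H20.EGS
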