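import Pool.Agent.H20.EGS.Swap
import Pool.Agent.H20.EGS.Primes

/-!
# Counting multiples in windows
-/

open Finset

namespace H20.EGS

lemma cop_period {a : ℕ} (k i : ℕ) : ((Ico k (k + a * i)).filter fun x => a.Coprime x).card =
    a.totient * i := by
  induction i with
  | zero => simp
  | succ i ih =>
    have h1 : Ico k (k + a * (i + 1)) = Ico k (k + a * i) ∪ Ico (k + a * i) (k + a * i + a) := by
      rw [Ico_union_Ico_eq_Ico (by omega) (by omega)]
      congr 1
      ring
    rw [h1, filter_union, card_union_of_disjoint, ih, Nat.filter_coprime_Ico_eq_totient]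
    · ring
    · apply disjoint_filter_filter
      rw [disjoint_left]
      intro x hx hx'
      rw [mem_Ico] at hx hx'
      omega

/-- integers coprime to `M` in an interval -/
lemma cop_count {M : ℕ} (hM : 0 < M) (u L : ℕ) :
    |(((Ioc u (u + L)).filter fun b => M.Coprime b).card : ℝ) - (M.totient : ℝ) / M * L| ≤ M := by
  have hI : Ioc u (u + L) = Ico (u + 1) (u + 1 + L) := by
    ext b; rw [mem_Ioc, mem_Ico]; omega
  rw [hI]
  have h1 := Nat.Ico_filter_coprime_le (u + 1) L hM.ne'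
  have hMr : (0 : ℝ) < M := by exact_mod_cast hM
  have htot : (M.totient : ℝ) ≤ M := by exact_mod_cast Nat.totient_le M
  have htot0 : (0 : ℝ) ≤ M.totient := Nat.cast_nonneg _
  have h2 : M.totient * (L / M) ≤ ((Ico (u + 1) (u + 1 + L)).filter fun b => M.Coprime b).card := by
    rw [← cop_period (u + 1) (L / M)]
    apply card_le_card
    apply filter_subset_filter
    apply Ico_subset_Ico_right
    have := Nat.mul_div_le L M
    omega
  have h1' : ((((Ico (u + 1) (u + 1 + L)).filter fun b => M.Coprime b).card : ℕ) : ℝ) ≤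
      M.totient * ((L / M : ℕ) + 1 : ℝ) := by exact_mod_cast h1
  have h2' : (M.totient : ℝ) * (L / M : ℕ) ≤
      ((((Ico (u + 1) (u + 1 + L)).filter fun b => M.Coprime b).card : ℕ) : ℝ) := by exact_mod_cast h2
  have h3 : ((L / M : ℕ) : ℝ) ≤ (L : ℝ) / M := Nat.cast_div_le
  have h4 : (L : ℝ) / M - 1 ≤ ((L / M : ℕ) : ℝ) := by
    have := Nat.lt_floor_add_one ((L : ℝ) / M)
    rw [Nat.floor_div_eq_div] at this
    linarith
  have e : (M.totient : ℝ) / M * L = M.totient * (L / M) := by ring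
  rw [e, abs_le]
  constructor
  · have : (M.totient : ℝ) * ((L : ℝ) / M - 1) ≤ M.totient * (L / M : ℕ) :=
      mul_le_mul_of_nonneg_left h4 htot0
    linarith
  · have : (M.totient : ℝ) * (((L / M : ℕ) : ℝ) + 1) ≤ M.totient * ((L : ℝ) / M + 1) :=
      mul_le_mul_of_nonneg_left (by linarith) htot0
    linarith

/-- multiples of `g` in a window, coprime to `M` -/
lemma mult_count {M g : ℕ} (hM : 0 < M) (hg : 0 < g) (hgM : M.Coprime g) (y h : ℕ) :
    |(((Ioc y (y + h)).filter fun b => M.Coprime b ∧ g ∣ b).card : ℝ) -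
      (M.totient : ℝ) / M * (h / g)| ≤ M + 1 := by
  -- bijection with the quotient window
  have hbij : ((Ioc y (y + h)).filter fun b => M.Coprime b ∧ g ∣ b).card =
      ((Ioc (y / g) (y / g + ((y + h) / g - y / g))).filter fun b => M.Coprime b).card := by
    have hle : y / g ≤ (y + h) / g := Nat.div_le_div_right (by omega)
    rw [show y / g + ((y + h) / g - y / g) = (y + h) / g by omega]
    symm
    apply card_bij (fun v _ => g * v)
    · intro v hv
      rw [mem_filter, mem_Ioc] at hv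
      rw [mem_filter, mem_Ioc]
      refine ⟨⟨?_, ?_⟩, hgM.mul_right hv.2, dvd_mul_right g v⟩
      · rw [mul_comm]; exact (Nat.div_lt_iff_lt_mul hg).1 hv.1.1
      · rw [mul_comm]; exact (Nat.le_div_iff_mul_le hg).1 hv.1.2
    · intro v _ v' _ h
      exact Nat.eq_of_mul_eq_mul_left hg h
    · intro b hb
      rw [mem_filter, mem_Ioc] at hb
      obtain ⟨⟨h1, h2⟩, h3, v, rfl⟩ := hb
      refine ⟨v, ?_, rfl⟩
      rw [mem_filter, mem_Ioc]
      refine ⟨⟨?_, ?_⟩, Nat.Coprime.coprime_mul_left_right h3⟩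
      · rw [Nat.div_lt_iff_lt_mul hg, mul_comm]; exact h1
      · rw [Nat.le_div_iff_mul_le hg, mul_comm]; exact h2
  rw [hbij]
  have h1 := cop_count hM (y / g) ((y + h) / g - y / g)
  set L := (y + h) / g - y / g with hL
  have hgr : (0 : ℝ) < g := by exact_mod_cast hg
  -- |L - h/g| ≤ 1
  have hLr : |(L : ℝ) - h / g| ≤ 1 := by
    have hle : y / g ≤ (y + h) / g := Nat.div_le_div_right (by omega)
    have e : (L : ℝ) = ((y + h) / g : ℕ) - (y / g : ℕ) := by
      rw [hL]; push_cast [Nat.cast_sub hle]; rfl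
    have a1 : (((y + h) / g : ℕ) : ℝ) ≤ ((y + h : ℕ) : ℝ) / g := Nat.cast_div_le
    have a2 : ((y / g : ℕ) : ℝ) ≤ (y : ℝ) / g := Nat.cast_div_le
    have a3 := Nat.lt_floor_add_one (((y + h : ℕ) : ℝ) / g)
    rw [Nat.floor_div_eq_div] at a3
    have a4 := Nat.lt_floor_add_one ((y : ℝ) / g)
    rw [Nat.floor_div_eq_div] at a4
    have a5 : ((y + h : ℕ) : ℝ) / g = (y : ℝ) / g + h / g := by push_cast; ring
    rw [a5] at a1 a3
    rw [e, abs_le]
    constructor <;> linarith
  have htot : (M.totient : ℝ) / M ≤ 1 := by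
    rw [div_le_one (by exact_mod_cast hM)]
    exact_mod_cast Nat.totient_le M
  have htot0 : (0 : ℝ) ≤ (M.totient : ℝ) / M := by positivity
  have h2 : |(M.totient : ℝ) / M * L - (M.totient : ℝ) / M * (h / g)| ≤ 1 := by
    rw [← mul_sub, abs_mul, abs_of_nonneg htot0]
    calc (M.totient : ℝ) / M * |(L : ℝ) - h / g| ≤ 1 * 1 :=
          mul_le_mul htot hLr (abs_nonneg _) zero_le_one
      _ = 1 := one_mul 1
  calc _ ≤ _ := abs_sub_le _ ((M.totient : ℝ) / M * L) _
    _ ≤ M + 1 := add_le_add h1 h2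

/-- The valuation of a window as a sum over powers. -/
lemma V_eq_sum {W : Finset ℕ} {q b : ℕ} (hq : q.Prime) (h0 : ∀ x ∈ W, x ≠ 0)
    (hb : ∀ x ∈ W, x < q ^ b) :
    V W q = ∑ i ∈ Ico 1 b, (W.filter fun x => q ^ i ∣ x).card := by
  unfold V
  calc ∑ x ∈ W, x.factorization q = ∑ x ∈ W, ∑ i ∈ Ico 1 b, if q ^ i ∣ x then 1 else 0 := by
        apply sum_congr rfl
        intro x hx
        rw [Nat.factorization_eq_card_pow_dvd_of_lt hq (Nat.pos_of_ne_zero (h0 x hx)) (hb x hx),
          card_filter]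
    _ = ∑ i ∈ Ico 1 b, ∑ x ∈ W, if q ^ i ∣ x then 1 else 0 := sum_comm
    _ = _ := by
        apply sum_congr rfl
        intro i _
        rw [card_filter]

/-- the window restricted to integers coprime to `M` -/
def Win (M y h : ℕ) : Finset ℕ := (Ioc y (y + h)).filter fun b => M.Coprime b

/-- Main count for windows. -/
lemma V_win {n M y h q : ℕ} (hM : 0 < M) (hq : q.Prime) (hqM : M.Coprime q)
    (hyn : y + h ≤ 3 * n) (hh : h ≤ n) (hn : 0 < n) :
    |(V (Win M y h) q : ℝ) - (M.totient : ℝ) / M * h / (q - 1)| ≤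
      (M + 1) * Nat.log q (3 * n) + 1 := by
  set b := Nat.log q (3 * n) + 1 with hb
  have hqr : (1 : ℝ) < q := by exact_mod_cast hq.one_lt
  have h3n : 3 * n < q ^ b := Nat.lt_pow_succ_log_self hq.one_lt _
  rw [V_eq_sum hq (b := b) (by
    intro x hx
    unfold Win at hx
    rw [mem_filter, mem_Ioc] at hx
    omega) (by
    intro x hx
    unfold Win at hx
    rw [mem_filter, mem_Ioc] at hx
    omega)]
  have hfil : ∀ i, ((Win M y h).filter fun x => q ^ i ∣ x) =
      (Ioc y (y + h)).filter fun b => M.Coprime b ∧ q ^ i ∣ b := by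
    intro i
    unfold Win
    rw [filter_filter]
  push_cast
  simp only [hfil]
  have hterm : ∀ i ∈ Ico 1 b, |(((Ioc y (y + h)).filter fun b => M.Coprime b ∧ q ^ i ∣ b).card : ℝ) -
      (M.totient : ℝ) / M * (h / (q : ℝ) ^ i)| ≤ M + 1 := by
    intro i _
    have := mult_count hM (g := q ^ i) (pow_pos hq.pos i) (hqM.pow_right i) y h
    push_cast at this
    exact this
  have hsum1 : |(∑ i ∈ Ico 1 b, (((Ioc y (y + h)).filter fun b => M.Coprime b ∧ q ^ i ∣ b).card : ℝ)) -
      ∑ i ∈ Ico 1 b, (M.totient : ℝ) / M * (h / (q : ℝ) ^ i)| ≤ (M + 1) * Nat.log q (3 * n) := by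
    rw [← sum_sub_distrib]
    refine (abs_sum_le_sum_abs _ _).trans ((sum_le_sum hterm).trans ?_)
    rw [sum_const, Nat.card_Ico, nsmul_eq_mul, hb]
    simp only [Nat.add_sub_cancel]
    rw [mul_comm]
  -- the geometric sum
  have hgeom : ∀ k : ℕ, ∑ i ∈ Ico 1 (k + 1), (1 : ℝ) / (q : ℝ) ^ i =
      (1 - 1 / (q : ℝ) ^ k) / (q - 1) := by
    intro k
    induction k with
    | zero => simp
    | succ k ih =>
      rw [sum_Ico_succ_top (by omega), ih]
      have h1 : (q : ℝ) - 1 ≠ 0 := by linarith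
      have h2 : (q : ℝ) ≠ 0 := by linarith
      field_simp
      ring
  have htot : (M.totient : ℝ) / M ≤ 1 := by
    rw [div_le_one (by exact_mod_cast hM)]
    exact_mod_cast Nat.totient_le M
  have htot0 : (0 : ℝ) ≤ (M.totient : ℝ) / M := by positivity
  have e1 : ∑ i ∈ Ico 1 b, (M.totient : ℝ) / M * (h / (q : ℝ) ^ i) =
      (M.totient : ℝ) / M * h / (q - 1) -
        (M.totient : ℝ) / M * h / (q - 1) * (1 / (q : ℝ) ^ (Nat.log q (3 * n))) := by
    have : ∀ i ∈ Ico 1 b, (M.totient : ℝ) / M * (h / (q : ℝ) ^ i) =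
        ((M.totient : ℝ) / M * h) * (1 / (q : ℝ) ^ i) := by intro i _; ring
    rw [sum_congr rfl this, ← mul_sum, hb, hgeom]
    ring
  have e2 : |(M.totient : ℝ) / M * h / (q - 1) * (1 / (q : ℝ) ^ (Nat.log q (3 * n)))| ≤ 1 := by
    have hq1 : (0 : ℝ) < q - 1 := by linarith
    rw [abs_of_nonneg (by positivity)]
    have h5 : (3 * n : ℝ) < (q : ℝ) ^ (Nat.log q (3 * n)) * q := by
      rw [← pow_succ]
      exact_mod_cast h3n
    have h6 : (0 : ℝ) < (q : ℝ) ^ (Nat.log q (3 * n)) := by positivity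
    rw [mul_one_div, div_div, div_le_one (by positivity)]
    have hhn : (h : ℝ) ≤ n := by exact_mod_cast hh
    have hn0 : (0 : ℝ) < n := by exact_mod_cast hn
    have h7 : (M.totient : ℝ) / M * h ≤ n := by
      calc (M.totient : ℝ) / M * h ≤ 1 * n := mul_le_mul htot hhn (Nat.cast_nonneg _) zero_le_one
        _ = n := one_mul _
    have h8 : (q : ℝ) ≤ 2 * (q - 1) := by
      have : (2 : ℝ) ≤ q := by exact_mod_cast hq.two_le
      linarith
    have h9 : (q : ℝ) ^ (Nat.log q (3 * n)) * q ≤ (q : ℝ) ^ (Nat.log q (3 * n)) * (2 * (q - 1)) :=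
      mul_le_mul_of_nonneg_left h8 h6.le
    nlinarith
  rw [e1] at hsum1
  rw [abs_le] at hsum1 e2 ⊢
  constructor <;> linarith [hsum1.1, hsum1.2, e2.1, e2.2]

/-- the window has no content at primes dividing `M`. -/
lemma V_win_dvd {M y h q : ℕ} (hqM : q ∣ M) (hq : q.Prime) : V (Win M y h) q = 0 := by
  unfold V
  apply sum_eq_zero
  intro b hb
  unfold Win at hb
  rw [mem_filter] at hb
  apply Nat.factorization_eq_zero_of_not_dvd
  intro hdvd
  exact Nat.not_coprime_of_dvd_of_dvd hq.one_lt hqM hdvd hb.2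

end H20.EGS
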