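import Mathlib

/-!
# Factorisations of `n!` into distinct parts exceeding `n` (Erdős–Guy–Selfridge)
-/

namespace H20.EGS

/-- `m` is admissible for `n`: `n!` is a product of distinct integers `> n` (the elements of the
finite set `s`), the largest of which is `m`. -/
def Adm (n m : ℕ) : Prop :=
  ∃ s : Finset ℕ, (∀ a ∈ s, n < a ∧ a ≤ m) ∧ m ∈ s ∧ ∏ a ∈ s, a = n.factorial

/-- `f n` is the least admissible `m`. -/
noncomputable def f (n : ℕ) : ℕ := sInf {m | Adm n m}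

/-- The constant `c`: `(∑_{j ≤ 13} 1/((j+1)(2j+1))) / (∑_{q ≤ 23, q prime} 1/(q-1))`. -/
noncomputable def cstar : ℝ :=
  (∑ j ∈ Finset.Icc (1 : ℕ) 13, 1 / (((j : ℝ) + 1) * (2 * j + 1))) /
    (∑ q ∈ (Finset.range 24).filter Nat.Prime, 1 / ((q : ℝ) - 1))

/-- `n! ` itself is admissible for `n ≥ 3`. -/
lemma adm_factorial {n : ℕ} (hn : 3 ≤ n) : Adm n n.factorial := by
  refine ⟨{n.factorial}, ?_, by simp, by simp⟩
  intro a ha
  rw [Finset.mem_singleton] at ha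
  subst ha
  exact ⟨Nat.lt_factorial_self hn, le_rfl⟩

lemma adm_f {n : ℕ} (hn : 3 ≤ n) : Adm n (f n) :=
  Nat.sInf_mem (s := {m | Adm n m}) ⟨_, adm_factorial hn⟩

lemma f_le {n m : ℕ} (h : Adm n m) : f n ≤ m := Nat.sInf_le h

end H20.EGS
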