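import Pool.Agent.H20.EGS.Swap

/-!
# The exponents of the target integer
-/

open Finset Filter Topology
open scoped Nat

namespace H20.EGS

/-- the integer to be removed -/
def Tg (n x : ℕ) : ℕ := (2 * n + x).choose (2 * n) * x ! * (2 * n).choose n

lemma Tg_ne {n x : ℕ} : Tg n x ≠ 0 := by
  unfold Tg
  have a1 := (Nat.choose_pos (show 2 * n ≤ 2 * n + x by omega)).ne'
  have a2 := (Nat.choose_pos (show n ≤ 2 * n by omega)).ne'
  exact mul_ne_zero (mul_ne_zero a1 (Nat.factorial_ne_zero _)) a2

/-- the interval product -/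
lemma prod_Ioc_two (n x : ℕ) : ∏ a ∈ Ioc (2 * n) (2 * n + x), a =
    (2 * n + x).choose (2 * n) * x ! := by
  have h1 : (2 * n)! * ∏ a ∈ Ioc (2 * n) (2 * n + x), a = (2 * n + x)! := by
    induction x with
    | zero => simp
    | succ k ih =>
      rw [← add_assoc, prod_Ioc_succ_top (by omega), ← mul_assoc, ih, Nat.factorial_succ]
      ring
  have h2 := Nat.choose_mul_factorial_mul_factorial (show 2 * n ≤ 2 * n + x by omega)
  rw [Nat.add_sub_cancel_left] at h2
  apply Nat.eq_of_mul_eq_mul_left (Nat.factorial_pos (2 * n))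
  rw [h1, ← h2]
  ring

lemma Tg_fact (n x q : ℕ) : (Tg n x).factorization q =
    V (Ioc (2 * n) (2 * n + x)) q + ((2 * n).choose n).factorization q := by
  have a1 := (Nat.choose_pos (show 2 * n ≤ 2 * n + x by omega)).ne'
  have a2 := (Nat.choose_pos (show n ≤ 2 * n by omega)).ne'
  unfold Tg
  rw [Nat.factorization_mul (mul_ne_zero a1 (Nat.factorial_ne_zero _)) a2, ← prod_Ioc_two]
  simp only [Finsupp.coe_add, Pi.add_apply]
  rw [V_prod]
  intro b hb
  rw [mem_Ioc] at hb
  omega

/-- Product over the complement. -/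
lemma prod_total (n x : ℕ) : n ! * Tg n x = ∏ a ∈ Ioc n (2 * n + x), a := by
  have h1 : n ! * ∏ a ∈ Ioc n (2 * n), a = (2 * n)! := by
    have : ∀ k, n ! * ∏ a ∈ Ioc n (n + k), a = (n + k)! := by
      intro k
      induction k with
      | zero => simp
      | succ k ih =>
        rw [← add_assoc, prod_Ioc_succ_top (by omega), ← mul_assoc, ih, Nat.factorial_succ]
        ring
    have h := this n
    rwa [← two_mul] at h
  have h2 : ∏ a ∈ Ioc n (2 * n + x), a =
      (∏ a ∈ Ioc n (2 * n), a) * ∏ a ∈ Ioc (2 * n) (2 * n + x), a := by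
    rw [← prod_union]
    · rw [Ioc_union_Ioc_eq_Ioc (by omega) (by omega)]
    · rw [disjoint_left]
      intro a ha hb
      rw [mem_Ioc] at ha hb
      omega
  have h3 : (2 * n).choose n * n ! * n ! = (2 * n)! := by
    have := Nat.choose_mul_factorial_mul_factorial (show n ≤ 2 * n by omega)
    rwa [show 2 * n - n = n by omega] at this
  apply Nat.eq_of_mul_eq_mul_left (Nat.factorial_pos n)
  rw [h2, prod_Ioc_two]
  unfold Tg
  calc n ! * (n ! * ((2 * n + x).choose (2 * n) * x ! * (2 * n).choose n))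
      = ((2 * n).choose n * n ! * n !) * ((2 * n + x).choose (2 * n) * x !) := by ring
    _ = (n ! * ∏ a ∈ Ioc n (2 * n), a) * ((2 * n + x).choose (2 * n) * x !) := by rw [h3, h1]
    _ = _ := by ring

lemma fact_factorial_lower {x q : ℕ} (hq : q.Prime) :
    (x : ℝ) / (q - 1) - (Nat.log q x + 1) ≤ (x !).factorization q := by
  have hq1 : (0 : ℝ) < (q : ℝ) - 1 := by
    have : (1 : ℝ) < q := by exact_mod_cast hq.one_lt
    linarith
  have h1 := Nat.sub_one_mul_factorization_factorial (n := x) hq
  have h2 : (q.digits x).sum ≤ (q - 1) * (Nat.log q x + 1) := by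
    rcases Nat.eq_zero_or_pos x with h0 | h0
    · subst h0; simp
    · have h3 : ∀ d ∈ q.digits x, d ≤ q - 1 := fun d hd => by
        have := Nat.digits_lt_base hq.one_lt hd
        omega
      have h4 := List.sum_le_card_nsmul _ _ h3
      rw [Nat.length_digits q x hq.one_lt (by omega), smul_eq_mul] at h4
      rw [mul_comm]
      exact h4
  have h5 : x ≤ (q - 1) * (x !).factorization q + (q - 1) * (Nat.log q x + 1) := by omega
  have h6 : (x : ℝ) ≤ ((q : ℝ) - 1) * (x !).factorization q + ((q : ℝ) - 1) * (Nat.log q x + 1) := by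
    have : ((x : ℕ) : ℝ) ≤ (((q - 1) * (x !).factorization q +
        (q - 1) * (Nat.log q x + 1) : ℕ) : ℝ) := by exact_mod_cast h5
    push_cast [Nat.cast_sub hq.one_lt.le] at this
    exact this
  rw [sub_le_iff_le_add, div_le_iff₀ hq1]
  linarith

/-- The exponents of `Tg`. -/
lemma Tg_bound {n x q : ℕ} (hq : q.Prime) (hx : x ≤ n) :
    |((Tg n x).factorization q : ℝ) - x / (q - 1)| ≤ 2 * (Nat.log q (3 * n) + 1) := by
  have hq1 : (0 : ℝ) < (q : ℝ) - 1 := by
    have : (1 : ℝ) < q := by exact_mod_cast hq.one_lt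
    linarith
  have a1 := (Nat.choose_pos (show 2 * n ≤ 2 * n + x by omega)).ne'
  have a2 := (Nat.choose_pos (show n ≤ 2 * n by omega)).ne'
  have h1 : (Tg n x).factorization q = ((2 * n + x).choose (2 * n)).factorization q +
      (x !).factorization q + ((2 * n).choose n).factorization q := by
    unfold Tg
    rw [Nat.factorization_mul (mul_ne_zero a1 (Nat.factorial_ne_zero _)) a2,
      Nat.factorization_mul a1 (Nat.factorial_ne_zero _)]
    rfl
  have h2 : ((2 * n + x).choose (2 * n)).factorization q ≤ Nat.log q (3 * n) :=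
    Nat.factorization_choose_le_log.trans (Nat.log_mono_right (by omega))
  have h3 : ((2 * n).choose n).factorization q ≤ Nat.log q (3 * n) :=
    Nat.factorization_choose_le_log.trans (Nat.log_mono_right (by omega))
  have h4 := Nat.factorization_factorial_le_div_pred hq x
  have h5 : ((x / (q - 1) : ℕ) : ℝ) ≤ (x : ℝ) / (q - 1) := by
    refine Nat.cast_div_le.trans ?_
    rw [Nat.cast_sub hq.one_lt.le]
    push_cast
    rfl
  have h6 : ((x !).factorization q : ℝ) ≤ ((x / (q - 1) : ℕ) : ℝ) := by exact_mod_cast h4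
  have h7 := fact_factorial_lower (x := x) hq
  have h8 : (Nat.log q x : ℝ) ≤ Nat.log q (3 * n) := by
    exact_mod_cast Nat.log_mono_right (by omega)
  have h2' : (((2 * n + x).choose (2 * n)).factorization q : ℝ) ≤ Nat.log q (3 * n) := by
    exact_mod_cast h2
  have h3' : (((2 * n).choose n).factorization q : ℝ) ≤ Nat.log q (3 * n) := by exact_mod_cast h3
  have h9 : (0 : ℝ) ≤ Nat.log q (3 * n) := Nat.cast_nonneg _
  have h10 : (0 : ℝ) ≤ ((2 * n + x).choose (2 * n)).factorization q := Nat.cast_nonneg _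
  have h11 : (0 : ℝ) ≤ ((2 * n).choose n).factorization q := Nat.cast_nonneg _
  rw [h1]
  push_cast
  rw [abs_le]
  constructor <;> linarith

/-- The exponent of a large prime in the central binomial coefficient. -/
lemma central_large {n p : ℕ} (hp : p.Prime) (hn : 2 * n < p ^ 2) :
    ((2 * n).choose n).factorization p = if (2 * (n / p) + 1) * p ≤ 2 * n then 1 else 0 := by
  have hlog : Nat.log p (n + n) < 2 := by
    rw [← two_mul]
    apply Nat.log_lt_of_lt_pow' (by norm_num)
    exact hn
  have h1 := Nat.factorization_choose' hp hlog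
  rw [← two_mul] at h1
  rw [h1]
  have h2 : Ico 1 2 = {1} := by decide
  rw [h2, filter_singleton]
  simp only [pow_one]
  have h3 := Nat.div_add_mod n p
  have h4 : n % p < p := Nat.mod_lt _ hp.pos
  have h5 : (p ≤ n % p + n % p) ↔ (2 * (n / p) + 1) * p ≤ 2 * n := by
    have e : (2 * (n / p) + 1) * p = 2 * (p * (n / p)) + p := by ring
    rw [e]
    constructor <;> intro h <;> omega
  by_cases h : p ≤ n % p + n % p
  · rw [if_pos h, if_pos (h5.1 h)]; rfl
  · rw [if_neg h, if_neg (fun h' => h (h5.2 h'))]; rfl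

end H20.EGS
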