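import Pool.Agent.H20.EGS.Assign
import Pool.Agent.H20.EGS.Val
import Pool.Agent.H20.EGS.Bad
import Pool.Agent.H20.EGS.Asymp

/-!
# The elements carrying the large primes of the central binomial coefficient
-/

open Finset Filter Topology

namespace H20.EGS

/-- the large primes of `C(2n,n)` -/
def LP (n K : ℕ) : Finset ℕ := (Ioc 0 (2 * n)).filter fun p => p.Prime ∧ n < K * p ∧
  (2 * (n / p) + 1) * p ≤ 2 * n

lemma mem_LP {n K p : ℕ} : p ∈ LP n K ↔ p.Prime ∧ n < K * p ∧ (2 * (n / p) + 1) * p ≤ 2 * n := by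
  unfold LP
  rw [mem_filter, mem_Ioc]
  constructor
  · rintro ⟨_, h⟩; exact h
  · intro h
    refine ⟨⟨h.1.pos, ?_⟩, h⟩
    have : 1 * p ≤ (2 * (n / p) + 1) * p := Nat.mul_le_mul_right p (by omega)
    omega

open Classical in
/-- the cofactor of `p` -/
noncomputable def cof (A1 A2 : ℕ → ℕ) (s : ℕ → ℝ) (n p : ℕ) : ℕ :=
  if (p : ℝ) ≤ (1 / (((n / p : ℕ) : ℝ) + 1) + s (n / p)) * n then A1 (n / p) else A2 (n / p)

/-- the elements carrying the large primes -/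
noncomputable def LE (A1 A2 : ℕ → ℕ) (s : ℕ → ℝ) (n K : ℕ) : Finset ℕ :=
  (LP n K).image fun p => p * cof A1 A2 s n p

section

variable {A1 A2 : ℕ → ℕ} {s : ℕ → ℝ} {n K K₁ : ℕ}

lemma cof_range (hA : ∀ j, j + 1 ≤ A1 j ∧ A1 j ≤ 2 * j + 1 ∧ j + 1 ≤ A2 j ∧ A2 j ≤ 2 * j + 1)
    (p : ℕ) : n / p + 1 ≤ cof A1 A2 s n p ∧ cof A1 A2 s n p ≤ 2 * (n / p) + 1 := by
  unfold cof
  have := hA (n / p)
  split_ifs <;> omega

lemma cof_prime (hp : ∀ j p, p.Prime → (p ∣ A1 j ∨ p ∣ A2 j) → p ≤ K₁) {p q : ℕ} (hq : q.Prime)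
    (h : q ∣ cof A1 A2 s n p) : q ≤ K₁ := by
  unfold cof at h
  split_ifs at h
  · exact hp _ _ hq (Or.inl h)
  · exact hp _ _ hq (Or.inr h)

lemma LE_range (hA : ∀ j, j + 1 ≤ A1 j ∧ A1 j ≤ 2 * j + 1 ∧ j + 1 ≤ A2 j ∧ A2 j ≤ 2 * j + 1)
    {b : ℕ} (hb : b ∈ LE A1 A2 s n K) : n < b ∧ b ≤ 2 * n := by
  unfold LE at hb
  rw [mem_image] at hb
  obtain ⟨p, hp, rfl⟩ := hb
  rw [mem_LP] at hp
  have hc := cof_range (n := n) (s := s) hA p
  constructor
  · calc n < p * (n / p + 1) := Nat.lt_mul_div_succ n hp.1.pos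
      _ ≤ _ := Nat.mul_le_mul_left p hc.1
  · calc p * cof A1 A2 s n p ≤ p * (2 * (n / p) + 1) := Nat.mul_le_mul_left p hc.2
      _ = (2 * (n / p) + 1) * p := by ring
      _ ≤ _ := hp.2.2

lemma LE_V (hA : ∀ j, j + 1 ≤ A1 j ∧ A1 j ≤ 2 * j + 1 ∧ j + 1 ≤ A2 j ∧ A2 j ≤ 2 * j + 1)
    (hp : ∀ j p, p.Prime → (p ∣ A1 j ∨ p ∣ A2 j) → p ≤ K₁) (hnK : K * K₁ ≤ n) {q : ℕ}
    (hq : q.Prime) : V (LE A1 A2 s n K) q =
      ∑ p ∈ LP n K, ((if p = q then 1 else 0) + (cof A1 A2 s n p).factorization q) := by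
  unfold V LE
  rw [sum_image]
  · apply sum_congr rfl
    intro p hpL
    rw [mem_LP] at hpL
    have hc := cof_range (n := n) (s := s) hA p
    rw [Nat.factorization_mul hpL.1.ne_zero (by omega)]
    simp only [Finsupp.coe_add, Pi.add_apply]
    rw [fact_prime hpL.1 hq]
  · intro p hpL p' hpL' heq
    simp only at heq
    rw [mem_coe, mem_LP] at hpL hpL'
    by_contra hne
    have h1 : p ∣ p' * cof A1 A2 s n p' := by rw [← heq]; exact Dvd.intro _ rfl
    rcases (hpL.1.dvd_mul).1 h1 with h | h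
    · exact hne ((Nat.prime_dvd_prime_iff_eq hpL.1 hpL'.1).1 h)
    · have h2 := cof_prime hp hpL.1 h
      have h3 : K * p ≤ K * K₁ := Nat.mul_le_mul_left K h2
      omega

/-- exponents of large primes -/
lemma LE_V_large (hA : ∀ j, j + 1 ≤ A1 j ∧ A1 j ≤ 2 * j + 1 ∧ j + 1 ≤ A2 j ∧ A2 j ≤ 2 * j + 1)
    (hp : ∀ j p, p.Prime → (p ∣ A1 j ∨ p ∣ A2 j) → p ≤ K₁) (hnK : K * K₁ ≤ n) {q : ℕ}
    (hq : q.Prime) (hqn : n < K * q) (hn2 : 2 * n < q ^ 2) : V (LE A1 A2 s n K) q =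
      ((2 * n).choose n).factorization q := by
  rw [LE_V hA hp hnK hq, central_large hq hn2]
  have h1 : ∀ p ∈ LP n K, ((if p = q then 1 else 0) + (cof A1 A2 s n p).factorization q) =
      if p = q then 1 else 0 := by
    intro p _
    rw [Nat.factorization_eq_zero_of_not_dvd, add_zero]
    intro h
    have h2 := cof_prime hp hq h
    have h3 : K * q ≤ K * K₁ := Nat.mul_le_mul_left K h2
    omega
  rw [sum_congr rfl h1, sum_ite_eq' (LP n K) q]
  by_cases h : (2 * (n / q) + 1) * q ≤ 2 * n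
  · rw [if_pos h, if_pos (mem_LP.2 ⟨hq, hqn, h⟩)]
  · rw [if_neg h, if_neg (fun h' => h (mem_LP.1 h').2.2)]

/-- exponents of small primes -/
lemma LE_V_small (hA : ∀ j, j + 1 ≤ A1 j ∧ A1 j ≤ 2 * j + 1 ∧ j + 1 ≤ A2 j ∧ A2 j ≤ 2 * j + 1)
    (hp : ∀ j p, p.Prime → (p ∣ A1 j ∨ p ∣ A2 j) → p ≤ K₁) (hnK : K * K₁ ≤ n) {q : ℕ}
    (hq : q.Prime) (hqn : K * q ≤ n) : V (LE A1 A2 s n K) q =
      ∑ p ∈ LP n K, (cof A1 A2 s n p).factorization q := by
  rw [LE_V hA hp hnK hq]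
  apply sum_congr rfl
  intro p hpL
  rw [mem_LP] at hpL
  rw [if_neg, zero_add]
  rintro rfl
  omega

/-- exponents of middle primes -/
lemma LE_V_mid (hA : ∀ j, j + 1 ≤ A1 j ∧ A1 j ≤ 2 * j + 1 ∧ j + 1 ≤ A2 j ∧ A2 j ≤ 2 * j + 1)
    (hp : ∀ j p, p.Prime → (p ∣ A1 j ∨ p ∣ A2 j) → p ≤ K₁) (hnK : K * K₁ ≤ n) {q : ℕ}
    (hq : q.Prime) (hqn : K * q ≤ n) (hqK : K₁ < q) : V (LE A1 A2 s n K) q = 0 := by
  rw [LE_V_small hA hp hnK hq hqn]
  apply sum_eq_zero
  intro p _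
  apply Nat.factorization_eq_zero_of_not_dvd
  intro h
  have := cof_prime hp hq h
  omega

/-- decomposition into classes -/
lemma LP_classes (f : ℕ → ℕ) :
    ∑ p ∈ LP n K, f p = ∑ j ∈ range K, ∑ p ∈ (Ioc (n / (j + 1)) (2 * n / (2 * j + 1))).filter
      Nat.Prime, f p := by
  rw [← sum_biUnion]
  · apply sum_congr _ (fun _ _ => rfl)
    ext p
    rw [mem_LP, mem_biUnion]
    constructor
    · rintro ⟨h1, h2, h3⟩
      refine ⟨n / p, ?_, ?_⟩
      · rw [mem_range]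
        exact (Nat.div_lt_iff_lt_mul h1.pos).2 h2
      · rw [mem_filter, mem_Ioc]
        refine ⟨⟨?_, ?_⟩, h1⟩
        · rw [Nat.div_lt_iff_lt_mul (Nat.succ_pos _)]
          exact Nat.lt_mul_div_succ n h1.pos
        · rw [Nat.le_div_iff_mul_le (Nat.succ_pos _)]
          rw [mul_comm]
          exact h3
    · rintro ⟨j, hj, hp⟩
      rw [mem_range] at hj
      rw [mem_filter, mem_Ioc] at hp
      obtain ⟨⟨h1, h2⟩, h3⟩ := hp
      rw [Nat.div_lt_iff_lt_mul (by omega)] at h1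
      rw [Nat.le_div_iff_mul_le (by omega)] at h2
      have h4 : n / p = j := by
        rw [Nat.div_eq_iff h3.pos]
        constructor
        · have : p * (2 * j + 1) = 2 * (j * p) + p := by ring
          have := h3.pos
          have h5 : p * (j + 1) = j * p + p := by ring
          nlinarith
        · have h5 : p * (j + 1) = j * p + p := by ring
          omega
      refine ⟨h3, ?_, ?_⟩
      · calc n < p * (j + 1) := h1
          _ ≤ p * K := Nat.mul_le_mul_left p hj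
          _ = K * p := by ring
      · rw [h4, mul_comm]; exact h2
  · intro i hi j hj hij
    simp only [Function.onFun]
    rw [disjoint_left]
    intro p hpi hpj
    rw [mem_filter, mem_Ioc] at hpi hpj
    obtain ⟨⟨h1, h2⟩, h3⟩ := hpi
    obtain ⟨⟨h1', h2'⟩, h3'⟩ := hpj
    rw [Nat.div_lt_iff_lt_mul (by omega)] at h1 h1'
    rw [Nat.le_div_iff_mul_le (by omega)] at h2 h2'
    have hpp := h3.pos
    rcases lt_or_gt_of_ne hij with h | h
    · have : p * (2 * (i + 1)) ≤ p * (2 * j + 1) := Nat.mul_le_mul_left p (by omega)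
      have e : p * (2 * (i + 1)) = 2 * (p * (i + 1)) := by ring
      omega
    · have : p * (2 * (j + 1)) ≤ p * (2 * i + 1) := Nat.mul_le_mul_left p (by omega)
      have e : p * (2 * (j + 1)) = 2 * (p * (j + 1)) := by ring
      omega

/-- the class sum -/
lemma class_sum {j : ℕ} (hs : 0 ≤ s j ∧ s j ≤ w j) (hn : 0 < n) (q : ℕ) :
    ((∑ p ∈ (Ioc (n / (j + 1)) (2 * n / (2 * j + 1))).filter Nat.Prime,
      (cof A1 A2 s n p).factorization q : ℕ) : ℝ) =
      ((Nat.primeCounting ⌊(1 / ((j : ℝ) + 1) + s j) * n⌋₊ : ℝ) -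
        Nat.primeCounting ⌊(1 / ((j : ℝ) + 1)) * n⌋₊) * ((A1 j).factorization q : ℝ) +
      ((Nat.primeCounting ⌊(1 / ((j : ℝ) + 1) + w j) * n⌋₊ : ℝ) -
        Nat.primeCounting ⌊(1 / ((j : ℝ) + 1) + s j) * n⌋₊) * ((A2 j).factorization q : ℝ) := by
  have hnr : (0 : ℝ) < n := by exact_mod_cast hn
  have hj1 : (0 : ℝ) < (j : ℝ) + 1 := by positivity
  have hj2 : (0 : ℝ) < 2 * (j : ℝ) + 1 := by positivity
  set y := ⌊(1 / ((j : ℝ) + 1) + s j) * n⌋₊ with hy
  have e1 : ⌊(1 / ((j : ℝ) + 1)) * n⌋₊ = n / (j + 1) := by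
    rw [← Nat.floor_div_eq_div (K := ℝ)]
    congr 1
    push_cast
    field_simp
  have e2 : ⌊(1 / ((j : ℝ) + 1) + w j) * n⌋₊ = 2 * n / (2 * j + 1) := by
    rw [← Nat.floor_div_eq_div (K := ℝ)]
    congr 1
    unfold w
    push_cast
    field_simp
    ring
  have h1 : n / (j + 1) ≤ y := by
    rw [← e1, hy]
    apply Nat.floor_le_floor
    apply mul_le_mul_of_nonneg_right _ hnr.le
    linarith [hs.1]
  have h2 : y ≤ 2 * n / (2 * j + 1) := by
    rw [← e2, hy]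
    apply Nat.floor_le_floor
    apply mul_le_mul_of_nonneg_right _ hnr.le
    linarith [hs.2]
  have hunion : (Ioc (n / (j + 1)) (2 * n / (2 * j + 1))).filter Nat.Prime =
      (Ioc (n / (j + 1)) y).filter Nat.Prime ∪ (Ioc y (2 * n / (2 * j + 1))).filter Nat.Prime := by
    rw [← filter_union, Ioc_union_Ioc_eq_Ioc h1 h2]
  have hdisj : Disjoint ((Ioc (n / (j + 1)) y).filter Nat.Prime)
      ((Ioc y (2 * n / (2 * j + 1))).filter Nat.Prime) := by
    rw [disjoint_left]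
    intro p hp hp'
    rw [mem_filter, mem_Ioc] at hp hp'
    omega
  have hdiv : ∀ p : ℕ, p.Prime → n / (j + 1) < p → p ≤ 2 * n / (2 * j + 1) → n / p = j := by
    intro p hp h1 h2
    rw [Nat.div_lt_iff_lt_mul (by omega)] at h1
    rw [Nat.le_div_iff_mul_le (by omega)] at h2
    rw [Nat.div_eq_iff hp.pos]
    have h5 : p * (j + 1) = j * p + p := by ring
    have h6 : p * (2 * j + 1) = 2 * (j * p) + p := by ring
    have := hp.pos
    constructor
    · omega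
    · omega
  have hc1 : ∀ p ∈ (Ioc (n / (j + 1)) y).filter Nat.Prime,
      (cof A1 A2 s n p).factorization q = (A1 j).factorization q := by
    intro p hp
    rw [mem_filter, mem_Ioc] at hp
    have hd := hdiv p hp.2 hp.1.1 (by omega)
    unfold cof
    rw [hd, if_pos]
    have : ((p : ℕ) : ℝ) ≤ (y : ℝ) := by exact_mod_cast hp.1.2
    refine this.trans (Nat.floor_le ?_)
    have := hs.1
    positivity
  have hc2 : ∀ p ∈ (Ioc y (2 * n / (2 * j + 1))).filter Nat.Prime,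
      (cof A1 A2 s n p).factorization q = (A2 j).factorization q := by
    intro p hp
    rw [mem_filter, mem_Ioc] at hp
    have hd := hdiv p hp.2 (by omega) hp.1.2
    unfold cof
    rw [hd, if_neg]
    intro h
    have := Nat.le_floor h
    omega
  rw [hunion, sum_union hdisj, sum_congr rfl hc1, sum_congr rfl hc2, sum_const, sum_const,
    smul_eq_mul, smul_eq_mul, e1, e2]
  push_cast
  rw [primes_Ioc_card _ _ h1, primes_Ioc_card _ _ h2]

/-- The asymptotic usage. -/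
lemma LE_limit (hA : ∀ j, j + 1 ≤ A1 j ∧ A1 j ≤ 2 * j + 1 ∧ j + 1 ≤ A2 j ∧ A2 j ≤ 2 * j + 1)
    (hs : ∀ j, 0 ≤ s j ∧ s j ≤ w j)
    (hp : ∀ j p, p.Prime → (p ∣ A1 j ∨ p ∣ A2 j) → p ≤ K₁) {q : ℕ} (hq : q.Prime) :
    Tendsto (fun n : ℕ => (V (LE A1 A2 s n K) q : ℝ) * Real.log n / n) atTop
      (𝓝 (∑ j ∈ range K, (s j * ((A1 j).factorization q : ℝ) +
        (w j - s j) * ((A2 j).factorization q : ℝ)))) := by
  have h1 : ∀ j ∈ range K, Tendsto (fun n : ℕ =>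
      (((Nat.primeCounting ⌊(1 / ((j : ℝ) + 1) + s j) * n⌋₊ : ℝ) -
        Nat.primeCounting ⌊(1 / ((j : ℝ) + 1)) * n⌋₊) * ((A1 j).factorization q : ℝ) +
      ((Nat.primeCounting ⌊(1 / ((j : ℝ) + 1) + w j) * n⌋₊ : ℝ) -
        Nat.primeCounting ⌊(1 / ((j : ℝ) + 1) + s j) * n⌋₊) * ((A2 j).factorization q : ℝ)) *
        Real.log n / n) atTop (𝓝 (s j * ((A1 j).factorization q : ℝ) +
        (w j - s j) * ((A2 j).factorization q : ℝ))) := by
    intro j _
    have hj1 : (0 : ℝ) < 1 / ((j : ℝ) + 1) := by positivity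
    have t0 := pi_scaled hj1
    have t1 := pi_scaled (α := 1 / ((j : ℝ) + 1) + s j) (by linarith [(hs j).1])
    have t2 := pi_scaled (α := 1 / ((j : ℝ) + 1) + w j) (by linarith [w_pos j])
    have t3 := ((t1.sub t0).mul_const ((A1 j).factorization q : ℝ)).add
      ((t2.sub t1).mul_const ((A2 j).factorization q : ℝ))
    have e : (1 / ((j : ℝ) + 1) + s j - 1 / ((j : ℝ) + 1)) * ((A1 j).factorization q : ℝ) +
        (1 / ((j : ℝ) + 1) + w j - (1 / ((j : ℝ) + 1) + s j)) * ((A2 j).factorization q : ℝ) =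
        s j * ((A1 j).factorization q : ℝ) + (w j - s j) * ((A2 j).factorization q : ℝ) := by ring
    rw [e] at t3
    refine t3.congr (fun n => ?_)
    ring
  have h2 := tendsto_finsetSum (range K) h1
  refine h2.congr' ?_
  filter_upwards [eventually_ge_atTop (K * K₁), eventually_ge_atTop (K * q),
    eventually_gt_atTop 0] with n hn1 hn2 hn0
  rw [LE_V_small hA hp hn1 hq hn2, LP_classes _, Nat.cast_sum, sum_mul, sum_div]
  apply sum_congr rfl
  intro j _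
  rw [class_sum (hs j) hn0]

end

end H20.EGS
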