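import Pool.Agent.H20.EGS.Defs
import Pool.Agent.H20.PNT.PNT

/-!
# Lower bound
-/

open Finset Nat

namespace H20.EGS

/-- The complement of a factorisation inside `(n, M]` has product
`C(M,2n) (M-2n)! C(2n,n)`. -/
lemma prod_compl {n M : ℕ} (hM : 2 * n ≤ M) {s : Finset ℕ} (hs : ∀ a ∈ s, n < a ∧ a ≤ M)
    (hprod : ∏ a ∈ s, a = n.factorial) :
    ∏ a ∈ (Ioc n M) \ s, a = M.choose (2 * n) * (M - 2 * n)! * (2 * n).choose n := by
  have hsub : s ⊆ Ioc n M := fun a ha => mem_Ioc.2 (hs a ha)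
  have h1 : (∏ a ∈ (Ioc n M) \ s, a) * ∏ a ∈ s, a = ∏ a ∈ Ioc n M, a :=
    prod_sdiff hsub
  have h2 : n ! * ∏ a ∈ Ioc n M, a = M ! := by
    have : ∀ k, n ! * ∏ a ∈ Ioc n (n + k), a = (n + k)! := by
      intro k
      induction k with
      | zero => simp
      | succ k ih =>
        rw [← add_assoc, prod_Ioc_succ_top (by omega), ← mul_assoc, ih, Nat.factorial_succ]
        ring
    have h3 := this (M - n)
    rwa [show n + (M - n) = M by omega] at h3
  have h3 := Nat.choose_mul_factorial_mul_factorial hM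
  have h4 := Nat.choose_mul_factorial_mul_factorial (show n ≤ 2 * n by omega)
  rw [show 2 * n - n = n by omega] at h4
  have hpos : 0 < n ! := Nat.factorial_pos n
  have h5 : (n ! * n !) * ∏ a ∈ (Ioc n M) \ s, a =
      (n ! * n !) * (M.choose (2 * n) * (M - 2 * n)! * (2 * n).choose n) := by
    calc (n ! * n !) * ∏ a ∈ (Ioc n M) \ s, a
        = n ! * ((∏ a ∈ (Ioc n M) \ s, a) * ∏ a ∈ s, a) := by rw [hprod]; ring
      _ = M ! := by rw [h1, h2]
      _ = M.choose (2 * n) * ((2 * n).choose n * n ! * n !) * (M - 2 * n)! := by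
          rw [h4, h3]
      _ = _ := by ring
  exact Nat.eq_of_mul_eq_mul_left (Nat.mul_pos hpos hpos) h5

/-- the small primes -/
def Q : Finset ℕ := (range 24).filter Nat.Prime

lemma Q_eq : Q = {2, 3, 5, 7, 11, 13, 17, 19, 23} := by decide

/-- the forced primes -/
def PJ (n M j : ℕ) : Finset ℕ := (Ioc (M / (2 * j + 2)) (2 * n / (2 * j + 1))).filter Nat.Prime

/-- A prime of `PJ` divides `C(2n,n)`. -/
lemma dvd_central {n M j p : ℕ} (hM : 2 * n ≤ M) (hj1 : 1 ≤ j) (hj : j ≤ 13) (hn : 400 ≤ n)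
    (hp : p ∈ PJ n M j) : p ∣ (2 * n).choose n := by
  unfold PJ at hp
  rw [mem_filter, mem_Ioc] at hp
  obtain ⟨⟨hp1, hp2⟩, hpp⟩ := hp
  have h1 : M < (2 * j + 2) * p := by
    rw [mul_comm]; exact (Nat.div_lt_iff_lt_mul (by omega)).1 hp1
  have h2 : (2 * j + 1) * p ≤ 2 * n := by
    rw [mul_comm]; exact (Nat.le_div_iff_mul_le (by omega)).1 hp2
  have h3 : M < p * p := by
    have : M < 28 * p := lt_of_lt_of_le h1 (Nat.mul_le_mul_right p (by omega))
    have h4 : 28 ≤ p := by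
      by_contra h
      push Not at h
      have : 28 * p ≤ 28 * 27 := Nat.mul_le_mul_left _ (by omega)
      omega
    exact lt_of_lt_of_le this (Nat.mul_le_mul_right p h4)
  by_contra hnd
  have h4 := Nat.choose_mul_factorial_mul_factorial (show n ≤ 2 * n by omega)
  rw [show 2 * n - n = n by omega] at h4
  have h5 : ((2 * n)!).factorization p = (n !).factorization p + (n !).factorization p := by
    rw [← h4, Nat.factorization_mul (by
        have := Nat.choose_pos (show n ≤ 2 * n by omega)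
        have := Nat.factorial_pos n
        positivity) (Nat.factorial_ne_zero n),
      Nat.factorization_mul (Nat.choose_pos (show n ≤ 2 * n by omega)).ne'
        (Nat.factorial_ne_zero n)]
    simp only [Finsupp.coe_add, Pi.add_apply]
    rw [Nat.factorization_eq_zero_of_not_dvd hnd]
    ring
  have hlog : ∀ k, k ≤ 2 * n → Nat.log p k < 2 := by
    intro k hk
    rcases Nat.eq_zero_or_pos k with rfl | hk0
    · simp
    · rw [Nat.log_lt_iff_lt_pow hpp.one_lt hk0.ne']
      nlinarith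
  rw [Nat.factorization_factorial hpp (hlog _ le_rfl),
    Nat.factorization_factorial hpp (hlog n (by omega))] at h5
  simp only [show Ico 1 2 = {1} by decide, sum_singleton, pow_one] at h5
  have h6 : 2 * j + 1 ≤ 2 * n / p := (Nat.le_div_iff_mul_le hpp.pos).2 h2
  have h7 : n / p < j + 1 := by
    rw [Nat.div_lt_iff_lt_mul hpp.pos]
    nlinarith
  omega

/-- The set of all forced primes. -/
def PP (n M : ℕ) : Finset ℕ := (Icc 1 13).biUnion (PJ n M)

lemma PJ_disjoint {n M i j : ℕ} (hM : 2 * n ≤ M) (hij : i < j) :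
    Disjoint (PJ n M i) (PJ n M j) := by
  rw [Finset.disjoint_left]
  intro p hp hq
  unfold PJ at hp hq
  rw [mem_filter, mem_Ioc] at hp hq
  have h1 : M < (2 * i + 2) * p := by
    rw [mul_comm]; exact (Nat.div_lt_iff_lt_mul (by omega)).1 hp.1.1
  have h2 : (2 * j + 1) * p ≤ 2 * n := by
    rw [mul_comm]; exact (Nat.le_div_iff_mul_le (by omega)).1 hq.1.2
  have h3 : (2 * i + 2) * p ≤ (2 * j + 1) * p := Nat.mul_le_mul_right p (by omega)
  omega

lemma card_PP {n M : ℕ} (hM : 2 * n ≤ M) :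
    (PP n M).card = ∑ j ∈ Icc 1 13, (PJ n M j).card := by
  unfold PP
  apply card_biUnion
  intro i _ j _ hij
  rcases lt_or_gt_of_ne hij with h | h
  · exact PJ_disjoint hM h
  · exact (PJ_disjoint hM h).symm

/-- Every integer in `[2,27]` has a prime factor in `Q`. -/
lemma exists_Q {a : ℕ} (h2 : 2 ≤ a) (h27 : a ≤ 27) : ∃ q ∈ Q, q ∣ a := by
  rw [Q_eq]
  interval_cases a <;> decide

/-- The main counting inequality. -/
lemma count {n M : ℕ} (hn : 400 ≤ n) (hM : 2 * n ≤ M) {s : Finset ℕ}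
    (hs : ∀ a ∈ s, n < a ∧ a ≤ M) (hprod : ∏ a ∈ s, a = n.factorial) :
    (PP n M).card ≤ ∑ q ∈ Q, (∏ a ∈ (Ioc n M) \ s, a).factorization q := by
  set D := (Ioc n M) \ s with hD
  have hD0 : ∀ a ∈ D, a ≠ 0 := by
    intro a ha
    rw [hD, mem_sdiff, mem_Ioc] at ha
    omega
  -- choose the element containing p
  have hex : ∀ p ∈ PP n M, ∃ b ∈ D, p ∣ b ∧ ∃ q ∈ Q, q ∣ b := by
    intro p hp
    unfold PP at hp
    rw [mem_biUnion] at hp
    obtain ⟨j, hj, hp⟩ := hp
    rw [mem_Icc] at hj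
    have h1 := dvd_central hM hj.1 hj.2 hn hp
    have hpp : p.Prime := by
      unfold PJ at hp; exact (mem_filter.1 hp).2
    have h2 : p ∣ ∏ a ∈ D, a := by
      rw [hD, prod_compl hM hs hprod]
      exact dvd_mul_of_dvd_right h1 _
    rw [hpp.prime.dvd_finsetProd_iff] at h2
    obtain ⟨b, hb, hpb⟩ := h2
    refine ⟨b, hb, hpb, ?_⟩
    obtain ⟨a, rfl⟩ := hpb
    have hb' := hb
    rw [hD, mem_sdiff, mem_Ioc] at hb'
    unfold PJ at hp
    rw [mem_filter, mem_Ioc] at hp
    have h3 : M < (2 * j + 2) * p := by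
      rw [mul_comm]; exact (Nat.div_lt_iff_lt_mul (by omega)).1 hp.1.1
    have h4 : (2 * j + 1) * p ≤ 2 * n := by
      rw [mul_comm]; exact (Nat.le_div_iff_mul_le (by omega)).1 hp.1.2
    have ha2 : 2 ≤ a := by
      by_contra h
      push Not at h
      have : p * a ≤ p * 1 := Nat.mul_le_mul_left p (by omega)
      nlinarith [hb'.1.1]
    have ha27 : a ≤ 27 := by
      by_contra h
      push Not at h
      have : p * 28 ≤ p * a := Nat.mul_le_mul_left p h
      have : (2 * j + 2) * p ≤ 28 * p := Nat.mul_le_mul_right p (by omega)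
      have := hb'.1.2
      omega
    obtain ⟨q, hq, hqa⟩ := exists_Q ha2 ha27
    exact ⟨q, hq, dvd_mul_of_dvd_right hqa p⟩
  choose! g hgD hgp hgQ using hex
  have hinj : Set.InjOn g (PP n M) := by
    intro p hp p' hp' hpp'
    by_contra hne
    have hpP : ∀ p ∈ PP n M, p.Prime ∧ M < 28 * p := by
      intro p hp
      unfold PP PJ at hp
      rw [mem_biUnion] at hp
      obtain ⟨j, hj, hp⟩ := hp
      rw [mem_filter, mem_Ioc] at hp
      rw [mem_Icc] at hj
      refine ⟨hp.2, ?_⟩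
      have h3 : M < (2 * j + 2) * p := by
        rw [mul_comm]; exact (Nat.div_lt_iff_lt_mul (by omega)).1 hp.1.1
      exact lt_of_lt_of_le h3 (Nat.mul_le_mul_right p (by omega))
    obtain ⟨h1, h1'⟩ := hpP p hp
    obtain ⟨h2, h2'⟩ := hpP p' hp'
    have hcop : Nat.Coprime p p' := (Nat.coprime_primes h1 h2).2 hne
    have h3 : p * p' ∣ g p :=
      hcop.mul_dvd_of_dvd_of_dvd (hgp p hp) (by rw [hpp']; exact hgp p' hp')
    have h4 : g p ≤ M := by
      have := hgD p hp
      rw [hD, mem_sdiff, mem_Ioc] at this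
      exact this.1.2
    have h5 : p * p' ≤ g p := Nat.le_of_dvd (Nat.pos_of_ne_zero (hD0 _ (hgD p hp))) h3
    have h6 : 28 ≤ p := by
      by_contra h
      push Not at h
      have : 28 * p ≤ 28 * 27 := Nat.mul_le_mul_left _ (by omega)
      omega
    have : 28 * p' ≤ p * p' := Nat.mul_le_mul_right p' h6
    omega
  have h1 : ∀ b ∈ (PP n M).image g, 1 ≤ ∑ q ∈ Q, b.factorization q := by
    intro b hb
    rw [mem_image] at hb
    obtain ⟨p, hp, rfl⟩ := hb
    obtain ⟨q, hq, hqb⟩ := hgQ p hp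
    have hqp : q.Prime := (mem_filter.1 hq).2
    have := (hqp.dvd_iff_one_le_factorization (hD0 _ (hgD p hp))).1 hqb
    exact this.trans (single_le_sum (f := fun q => (g p).factorization q)
      (fun _ _ => Nat.zero_le _) hq)
  calc (PP n M).card = ((PP n M).image g).card := (Finset.card_image_of_injOn hinj).symm
    _ = ∑ b ∈ (PP n M).image g, 1 := by simp
    _ ≤ ∑ b ∈ (PP n M).image g, ∑ q ∈ Q, b.factorization q := sum_le_sum h1
    _ ≤ ∑ b ∈ D, ∑ q ∈ Q, b.factorization q := by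
        apply sum_le_sum_of_subset
        intro b hb
        rw [mem_image] at hb
        obtain ⟨p, hp, rfl⟩ := hb
        exact hgD p hp
    _ = ∑ q ∈ Q, ∑ b ∈ D, b.factorization q := sum_comm
    _ = _ := by
        refine sum_congr rfl fun q _ => ?_
        rw [Nat.factorization_prod hD0, Finsupp.coe_finsetSum, Finset.sum_apply]

/-- the bound for the right side. -/
lemma val_bound {n M : ℕ} (hn : 1 ≤ n) (hM : 2 * n ≤ M) {q : ℕ} (hq : q.Prime) :
    ((M.choose (2 * n) * (M - 2 * n)! * (2 * n).choose n).factorization q : ℝ) ≤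
      (M - 2 * n : ℝ) * (1 / ((q : ℝ) - 1)) + 2 * Nat.log 2 M := by
  have h1 : (M.choose (2 * n) * (M - 2 * n)! * (2 * n).choose n).factorization q =
      (M.choose (2 * n)).factorization q + ((M - 2 * n)!).factorization q +
        ((2 * n).choose n).factorization q := by
    have a1 := (Nat.choose_pos hM).ne'
    have a2 := (Nat.choose_pos (show n ≤ 2 * n by omega)).ne'
    rw [Nat.factorization_mul (mul_ne_zero a1 (Nat.factorial_ne_zero _)) a2,
      Nat.factorization_mul a1 (Nat.factorial_ne_zero _)]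
    rfl
  have h2 : (M.choose (2 * n)).factorization q ≤ Nat.log 2 M :=
    Nat.factorization_choose_le_log.trans (Nat.log_anti_left (by norm_num) hq.two_le)
  have h3 : ((2 * n).choose n).factorization q ≤ Nat.log 2 M :=
    Nat.factorization_choose_le_log.trans
      ((Nat.log_anti_left (by norm_num) hq.two_le).trans (Nat.log_mono_right hM))
  have h4 := Nat.factorization_factorial_le_div_pred hq (M - 2 * n)
  have h5 : (((M - 2 * n) / (q - 1) : ℕ) : ℝ) ≤ (M - 2 * n : ℝ) * (1 / ((q : ℝ) - 1)) := by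
    refine Nat.cast_div_le.trans ?_
    rw [Nat.cast_sub hM, Nat.cast_sub hq.one_lt.le]
    push_cast
    rw [mul_one_div]
  have h6 : (((M - 2 * n)!).factorization q : ℝ) ≤ (((M - 2 * n) / (q - 1) : ℕ) : ℝ) := by
    exact_mod_cast h4
  rw [h1]
  push_cast
  have h2' : ((M.choose (2 * n)).factorization q : ℝ) ≤ Nat.log 2 M := by exact_mod_cast h2
  have h3' : (((2 * n).choose n).factorization q : ℝ) ≤ Nat.log 2 M := by exact_mod_cast h3
  linarith

/-- The finite inequality. -/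
lemma main_ineq {n M : ℕ} (hn : 400 ≤ n) (hM : 2 * n ≤ M) {s : Finset ℕ}
    (hs : ∀ a ∈ s, n < a ∧ a ≤ M) (hprod : ∏ a ∈ s, a = n.factorial) :
    (∑ j ∈ Icc 1 13, ((PJ n M j).card : ℝ)) ≤
      (M - 2 * n : ℝ) * (∑ q ∈ Q, 1 / ((q : ℝ) - 1)) + 18 * Nat.log 2 M := by
  have h1 := count hn hM hs hprod
  rw [card_PP hM, prod_compl hM hs hprod] at h1
  have h2 : (∑ j ∈ Icc 1 13, ((PJ n M j).card : ℝ)) ≤
      ∑ q ∈ Q, ((M.choose (2 * n) * (M - 2 * n)! * (2 * n).choose n).factorization q : ℝ) := by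
    exact_mod_cast h1
  refine h2.trans ?_
  calc ∑ q ∈ Q, ((M.choose (2 * n) * (M - 2 * n)! * (2 * n).choose n).factorization q : ℝ)
      ≤ ∑ q ∈ Q, ((M - 2 * n : ℝ) * (1 / ((q : ℝ) - 1)) + 2 * Nat.log 2 M) := by
        apply sum_le_sum
        intro q hq
        exact val_bound (by omega) hM (mem_filter.1 hq).2
    _ = _ := by
        rw [sum_add_distrib, ← mul_sum, sum_const, show Q.card = 9 by decide]
        simp only [nsmul_eq_mul]
        push_cast
        ring

open Filter Topology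

/-- PNT at scaled integers. -/
lemma pi_scaled {α : ℝ} (hα : 0 < α) :
    Tendsto (fun n : ℕ => (Nat.primeCounting ⌊α * n⌋₊ : ℝ) * Real.log n / n) atTop (𝓝 α) := by
  have hlin : Tendsto (fun n : ℕ => α * (n : ℝ)) atTop atTop :=
    tendsto_natCast_atTop_atTop.const_mul_atTop hα
  have h1 := H20.PNT.primeCounting_tendsto.comp hlin
  have hlog : Tendsto (fun n : ℕ => Real.log n / Real.log (α * n)) atTop (𝓝 1) := by
    have h2 : Tendsto (fun n : ℕ => (Real.log (α * n) - Real.log α) / Real.log (α * n)) atTop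
        (𝓝 (1 - 0)) := by
      have h3 : Tendsto (fun n : ℕ => 1 - Real.log α / Real.log (α * n)) atTop (𝓝 (1 - 0)) :=
        ((Real.tendsto_log_atTop.comp hlin).const_div_atTop (Real.log α)).const_sub 1
      refine h3.congr' ?_
      filter_upwards [(Real.tendsto_log_atTop.comp hlin).eventually_gt_atTop 0] with n hn
      simp only [Function.comp] at hn
      rw [sub_div, div_self hn.ne']
    rw [sub_zero] at h2
    refine h2.congr' ?_
    filter_upwards [eventually_gt_atTop 0] with n hn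
    have hn' : (0 : ℝ) < n := by exact_mod_cast hn
    rw [Real.log_mul hα.ne' hn'.ne']
    ring
  have h4 := (h1.mul hlog).mul_const α
  rw [one_mul, one_mul] at h4
  refine h4.congr' ?_
  filter_upwards [(Real.tendsto_log_atTop.comp hlin).eventually_gt_atTop 0,
    eventually_gt_atTop 0] with n hn hn0
  simp only [Function.comp] at hn ⊢
  have hn' : (0 : ℝ) < n := by exact_mod_cast hn0
  field_simp

lemma card_PJ_ge (n M j : ℕ) : (Nat.primeCounting (2 * n / (2 * j + 1)) : ℝ) -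
    Nat.primeCounting (M / (2 * j + 2)) ≤ (PJ n M j).card := by
  have h1 : Nat.primesLE (2 * n / (2 * j + 1)) ⊆
      PJ n M j ∪ Nat.primesLE (M / (2 * j + 2)) := by
    intro p hp
    rw [Nat.mem_primesLE] at hp
    rw [mem_union]
    by_cases h : p ≤ M / (2 * j + 2)
    · right; rw [Nat.mem_primesLE]; exact ⟨h, hp.2⟩
    · left
      unfold PJ
      rw [mem_filter, mem_Ioc]
      exact ⟨⟨by omega, hp.1⟩, hp.2⟩
  have h2 := (card_le_card h1).trans (card_union_le _ _)
  rw [Nat.primesLE_card_eq_primeCounting, Nat.primesLE_card_eq_primeCounting] at h2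
  have h3 : (Nat.primeCounting (2 * n / (2 * j + 1)) : ℝ) ≤
      (PJ n M j).card + Nat.primeCounting (M / (2 * j + 2)) := by exact_mod_cast h2
  linarith

lemma log_div_tendsto : Tendsto (fun n : ℕ => (18 * Nat.log 2 (3 * n) : ℝ) * Real.log n / n)
    atTop (𝓝 0) := by
  have h1 : Tendsto (fun x : ℝ => Real.log x ^ 2 / x) atTop (𝓝 0) :=
    (Real.isLittleO_pow_log_id_atTop (n := 2)).tendsto_div_nhds_zero
  have h2 := (h1.comp tendsto_natCast_atTop_atTop).const_mul (18 * (2 / Real.log 2))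
  rw [mul_zero] at h2
  refine squeeze_zero' ?_ ?_ h2
  · filter_upwards [eventually_ge_atTop 1] with n hn
    have := Real.log_nonneg (show (1 : ℝ) ≤ n by exact_mod_cast hn)
    positivity
  · filter_upwards [eventually_ge_atTop 3] with n hn
    simp only [Function.comp]
    have hn0 : (0 : ℝ) < n := by
      have : (3 : ℝ) ≤ n := by exact_mod_cast hn
      linarith
    have hlog2 : 0 < Real.log 2 := Real.log_pos (by norm_num)
    have hlogn : 0 ≤ Real.log n := Real.log_nonneg (by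
      have : (3 : ℝ) ≤ n := by exact_mod_cast hn
      linarith)
    have h3 : (Nat.log 2 (3 * n) : ℝ) ≤ 2 * Real.log n / Real.log 2 := by
      rw [le_div_iff₀ hlog2]
      have h4 : (2 : ℝ) ^ (Nat.log 2 (3 * n)) ≤ (n : ℝ) ^ 2 := by
        have h5 : 2 ^ (Nat.log 2 (3 * n)) ≤ 3 * n := Nat.pow_log_le_self 2 (by omega)
        have h6 : 3 * n ≤ n ^ 2 := by nlinarith
        exact_mod_cast h5.trans h6
      have h7 := Real.log_le_log (by positivity) h4
      rw [Real.log_pow, Real.log_pow] at h7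
      push_cast at h7
      linarith
    have h8 : (18 * Nat.log 2 (3 * n) : ℝ) * Real.log n ≤
        18 * (2 / Real.log 2) * Real.log n ^ 2 := by
      calc (18 * Nat.log 2 (3 * n) : ℝ) * Real.log n
          ≤ (18 * (2 * Real.log n / Real.log 2)) * Real.log n := by gcongr
        _ = _ := by ring
    calc (18 * Nat.log 2 (3 * n) : ℝ) * Real.log n / n
        ≤ (18 * (2 / Real.log 2) * Real.log n ^ 2) / n := by gcongr
      _ = _ := by ring

lemma B_pos : 0 < ∑ q ∈ Q, 1 / ((q : ℝ) - 1) := by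
  apply sum_pos
  · intro q hq
    have hq2 : (q.Prime) := (mem_filter.1 hq).2
    have : (2 : ℝ) ≤ q := by exact_mod_cast hq2.two_le
    have : (0 : ℝ) < (q : ℝ) - 1 := by linarith
    positivity
  · exact ⟨2, by decide⟩

/-- the total mass with a loss `ε`. -/
lemma mass_tendsto : Tendsto (fun ε : ℝ => ∑ j ∈ Icc (1 : ℕ) 13,
    ((2 : ℝ) / (2 * j + 1) - (2 + ε) / (2 * j + 2))) (𝓝 0)
    (𝓝 (∑ j ∈ Icc (1 : ℕ) 13, 1 / (((j : ℝ) + 1) * (2 * j + 1)))) := by
  have hcont : Continuous (fun ε : ℝ => ∑ j ∈ Icc (1 : ℕ) 13,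
    ((2 : ℝ) / (2 * j + 1) - (2 + ε) / (2 * j + 2))) := by fun_prop
  have h := hcont.tendsto 0
  convert! h using 2
  refine sum_congr rfl fun j _ => ?_
  have h1 : (0 : ℝ) < (j : ℝ) + 1 := by positivity
  have h2 : (0 : ℝ) < 2 * (j : ℝ) + 1 := by positivity
  have h3 : (0 : ℝ) < 2 * (j : ℝ) + 2 := by positivity
  rw [add_zero]
  field_simp
  ring

/-- **Lower bound.** -/
theorem lower {c' : ℝ} (hc' : c' < cstar) :
    ∀ᶠ n : ℕ in atTop, ∀ m : ℕ, Adm n m → c' * (n / Real.log n) ≤ (m : ℝ) - 2 * n := by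
  set B := ∑ q ∈ Q, 1 / ((q : ℝ) - 1) with hB
  have hBpos : 0 < B := B_pos
  set W := ∑ j ∈ Icc (1 : ℕ) 13, 1 / (((j : ℝ) + 1) * (2 * j + 1)) with hW
  have hWpos : 0 < W := by
    apply sum_pos
    · intro j _; positivity
    · exact ⟨1, by decide⟩
  have hcs : cstar = W / B := rfl
  set c := max c' 0 with hc
  have hc0 : 0 ≤ c := le_max_right _ _
  have hcW : c * B < W := by
    rw [← lt_div_iff₀ hBpos, ← hcs]
    exact max_lt hc' (by rw [hcs]; positivity)
  -- choose ε
  have hm := mass_tendsto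
  obtain ⟨ε, hε0, hε⟩ : ∃ ε : ℝ, 0 < ε ∧ c * B < ∑ j ∈ Icc (1 : ℕ) 13,
      ((2 : ℝ) / (2 * j + 1) - (2 + ε) / (2 * j + 2)) := by
    have h1 := (hm.mono_left (nhdsWithin_le_nhds (s := Set.Ioi 0))).eventually (lt_mem_nhds hcW)
    obtain ⟨ε, h2, h3⟩ := (h1.and self_mem_nhdsWithin).exists
    exact ⟨ε, h3, h2⟩
  -- the two sequences
  have hg : Tendsto (fun n : ℕ => ∑ j ∈ Icc (1 : ℕ) 13,
      ((Nat.primeCounting ⌊(2 : ℝ) / (2 * j + 1) * n⌋₊ : ℝ) * Real.log n / n -
        (Nat.primeCounting ⌊(2 + ε) / (2 * j + 2) * n⌋₊ : ℝ) * Real.log n / n)) atTop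
      (𝓝 (∑ j ∈ Icc (1 : ℕ) 13, ((2 : ℝ) / (2 * j + 1) - (2 + ε) / (2 * j + 2)))) := by
    apply tendsto_finsetSum
    intro j _
    exact (pi_scaled (by positivity)).sub (pi_scaled (by positivity))
  have hh : Tendsto (fun n : ℕ => c * B + (18 * Nat.log 2 (3 * n) : ℝ) * Real.log n / n) atTop
      (𝓝 (c * B + 0)) := log_div_tendsto.const_add _
  rw [add_zero] at hh
  have hev := hh.eventually_lt hg hε
  have hsmall : ∀ᶠ n : ℕ in atTop, c / Real.log n < min ε 1 := by
    have h1 : Tendsto (fun n : ℕ => c / Real.log n) atTop (𝓝 0) :=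
      (Real.tendsto_log_atTop.comp tendsto_natCast_atTop_atTop).const_div_atTop c
    exact h1.eventually (gt_mem_nhds (by positivity))
  filter_upwards [hev, hsmall, eventually_ge_atTop 400] with n h1 h2 hn m hadm
  by_contra hcon
  push Not at hcon
  obtain ⟨s, hs, hms, hprod⟩ := hadm
  have hn0 : (0 : ℝ) < n := by
    have : (400 : ℝ) ≤ n := by exact_mod_cast hn
    linarith
  have hlogn : 0 < Real.log n := Real.log_pos (by
    have : (400 : ℝ) ≤ n := by exact_mod_cast hn
    linarith)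
  have hcon' : (m : ℝ) - 2 * n < c * (n / Real.log n) :=
    lt_of_lt_of_le hcon (mul_le_mul_of_nonneg_right (le_max_left _ _) (by positivity))
  set M := max m (2 * n) with hM
  have hM2 : 2 * n ≤ M := le_max_right _ _
  have hs' : ∀ a ∈ s, n < a ∧ a ≤ M := fun a ha => ⟨(hs a ha).1, (hs a ha).2.trans (le_max_left _ _)⟩
  have hx : (M : ℝ) - 2 * n ≤ c * (n / Real.log n) := by
    rw [hM]
    push_cast
    rcases le_total (m : ℝ) (2 * n) with h | h
    · rw [max_eq_right h, sub_self]; positivity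
    · rw [max_eq_left h]; exact hcon'.le
  have hmain := main_ineq hn hM2 hs' hprod
  have hcn : c * (n / Real.log n) ≤ min ε 1 * n := by
    have : c * (n / Real.log n) = (c / Real.log n) * n := by ring
    rw [this]
    exact mul_le_mul_of_nonneg_right h2.le hn0.le
  have hMle : (M : ℝ) ≤ (2 + ε) * n := by
    have : min ε 1 * n ≤ ε * n := mul_le_mul_of_nonneg_right (min_le_left _ _) hn0.le
    linarith
  have hM3 : M ≤ 3 * n := by
    have h3 : min ε 1 * n ≤ 1 * n := mul_le_mul_of_nonneg_right (min_le_right _ _) hn0.le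
    have : (M : ℝ) ≤ 3 * n := by linarith
    exact_mod_cast this
  have hlow : ∑ j ∈ Icc (1 : ℕ) 13, ((Nat.primeCounting ⌊(2 : ℝ) / (2 * j + 1) * n⌋₊ : ℝ) -
      (Nat.primeCounting ⌊(2 + ε) / (2 * j + 2) * n⌋₊ : ℝ)) ≤
      ∑ j ∈ Icc 1 13, ((PJ n M j).card : ℝ) := by
    apply sum_le_sum
    intro j _
    refine le_trans ?_ (card_PJ_ge n M j)
    have e1 : ⌊(2 : ℝ) / (2 * j + 1) * n⌋₊ = 2 * n / (2 * j + 1) := by
      have : (2 : ℝ) / (2 * j + 1) * n = ((2 * n : ℕ) : ℝ) / ((2 * j + 1 : ℕ) : ℝ) := by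
        push_cast; ring
      rw [this, Nat.floor_div_eq_div]
    have e2 : M / (2 * j + 2) ≤ ⌊(2 + ε) / (2 * j + 2) * n⌋₊ := by
      apply Nat.le_floor
      refine Nat.cast_div_le.trans ?_
      push_cast
      rw [div_mul_eq_mul_div]
      gcongr
    have e3 : (Nat.primeCounting (M / (2 * j + 2)) : ℝ) ≤
        Nat.primeCounting ⌊(2 + ε) / (2 * j + 2) * n⌋₊ := by
      exact_mod_cast Nat.monotone_primeCounting e2
    rw [e1]
    linarith
  have hlog3 : (Nat.log 2 M : ℝ) ≤ Nat.log 2 (3 * n) := by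
    exact_mod_cast Nat.log_mono_right hM3
  have hfin : ∑ j ∈ Icc (1 : ℕ) 13, ((Nat.primeCounting ⌊(2 : ℝ) / (2 * j + 1) * n⌋₊ : ℝ) -
      (Nat.primeCounting ⌊(2 + ε) / (2 * j + 2) * n⌋₊ : ℝ)) ≤
      c * (n / Real.log n) * B + 18 * Nat.log 2 (3 * n) := by
    calc _ ≤ _ := hlow
      _ ≤ _ := hmain
      _ ≤ _ := by
        apply _root_.add_le_add
        · exact mul_le_mul_of_nonneg_right hx hBpos.le
        · linarith
  have hfin2 := mul_le_mul_of_nonneg_right hfin (show 0 ≤ Real.log n / n by positivity)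
  rw [sum_mul] at hfin2
  have e4 : (c * (n / Real.log n) * B + 18 * Nat.log 2 (3 * n)) * (Real.log n / n) =
      c * B + (18 * Nat.log 2 (3 * n) : ℝ) * Real.log n / n := by
    field_simp
  rw [e4] at hfin2
  have e5 : ∑ j ∈ Icc (1 : ℕ) 13,
      ((Nat.primeCounting ⌊(2 : ℝ) / (2 * j + 1) * n⌋₊ : ℝ) * Real.log n / n -
        (Nat.primeCounting ⌊(2 + ε) / (2 * j + 2) * n⌋₊ : ℝ) * Real.log n / n) =
      ∑ j ∈ Icc (1 : ℕ) 13, ((Nat.primeCounting ⌊(2 : ℝ) / (2 * j + 1) * n⌋₊ : ℝ) -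
      (Nat.primeCounting ⌊(2 + ε) / (2 * j + 2) * n⌋₊ : ℝ)) * (Real.log n / n) := by
    refine sum_congr rfl fun j _ => ?_
    ring
  rw [e5] at h1
  linarith

end H20.EGS
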