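import Mathlib

/-!
# 3-smooth numbers in short intervals
-/

open Finset

namespace H20.EGS

/-- 3-smooth numbers -/
def T3 (s : ℕ) : Prop := ∃ a b : ℕ, s = 2 ^ a * 3 ^ b

lemma T3.ne_zero {s : ℕ} (h : T3 s) : s ≠ 0 := by
  obtain ⟨a, b, rfl⟩ := h
  positivity

lemma T3.mul {s t : ℕ} (hs : T3 s) (ht : T3 t) : T3 (s * t) := by
  obtain ⟨a, b, rfl⟩ := hs
  obtain ⟨c, d, rfl⟩ := ht
  exact ⟨a + c, b + d, by ring⟩

lemma T3_two_pow (k : ℕ) : T3 (2 ^ k) := ⟨k, 0, by simp⟩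
lemma T3_three_pow (k : ℕ) : T3 (3 ^ k) := ⟨0, k, by simp⟩

lemma T3.fac_two {a b : ℕ} : (2 ^ a * 3 ^ b).factorization 2 = a := by
  rw [Nat.factorization_mul (by positivity) (by positivity),
    Nat.factorization_pow, Nat.factorization_pow]
  simp only [Finsupp.coe_add, Pi.add_apply, Finsupp.coe_smul, Pi.smul_apply, smul_eq_mul]
  rw [Nat.prime_two.factorization_self, Nat.factorization_eq_zero_of_not_dvd (by norm_num)]
  ring

lemma T3.fac_three {a b : ℕ} : (2 ^ a * 3 ^ b).factorization 3 = b := by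
  rw [Nat.factorization_mul (by positivity) (by positivity),
    Nat.factorization_pow, Nat.factorization_pow]
  simp only [Finsupp.coe_add, Pi.add_apply, Finsupp.coe_smul, Pi.smul_apply, smul_eq_mul]
  rw [Nat.prime_three.factorization_self, Nat.factorization_eq_zero_of_not_dvd (by norm_num)]
  ring

lemma T3.fac_other {s q : ℕ} (hs : T3 s) (h2 : q ≠ 2) (h3 : q ≠ 3) : s.factorization q = 0 := by
  by_cases hq : q.Prime
  · apply Nat.factorization_eq_zero_of_not_dvd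
    obtain ⟨a, b, rfl⟩ := hs
    intro hdvd
    rcases (hq.dvd_mul).1 hdvd with h | h
    · exact h2 ((Nat.prime_dvd_prime_iff_eq hq Nat.prime_two).1 (hq.dvd_of_dvd_pow h))
    · exact h3 ((Nat.prime_dvd_prime_iff_eq hq Nat.prime_three).1 (hq.dvd_of_dvd_pow h))
  · exact Nat.factorization_eq_zero_of_not_prime _ hq

/-- `v₂(s) + v₃(s) ≤ log₂ s`. -/
lemma T3.fac_le {s : ℕ} (hs : T3 s) : s.factorization 2 + s.factorization 3 ≤ Nat.log 2 s := by
  obtain ⟨a, b, rfl⟩ := hs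
  rw [T3.fac_two, T3.fac_three]
  apply Nat.le_log_of_pow_le (by norm_num)
  rw [pow_add]
  exact Nat.mul_le_mul_left _ (Nat.pow_le_pow_left (by norm_num) b)

/-- Generic geometric stepping: if `1 < u/g^a < 1+ε` then every large `y` has a number
`g^k u^i` in `[y, (1+ε) y]`. -/
lemma geom_step {g u a : ℕ} (hg : 2 ≤ g) {ε : ℝ} (h1 : (g : ℝ) ^ a < u)
    (h2 : (u : ℝ) < (1 + ε) * (g : ℝ) ^ a) :
    ∃ Y : ℝ, ∀ y : ℝ, Y ≤ y → ∃ k i : ℕ, y ≤ (g : ℝ) ^ k * (u : ℝ) ^ i ∧
      (g : ℝ) ^ k * (u : ℝ) ^ i ≤ (1 + ε) * y := by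
  have hg0 : (0 : ℝ) < (g : ℝ) ^ a := by positivity
  set ρ : ℝ := u / (g : ℝ) ^ a with hρ
  have hρ1 : 1 < ρ := by rw [hρ, one_lt_div hg0]; exact h1
  have hρ2 : ρ ≤ 1 + ε := by rw [hρ, div_le_iff₀ hg0]; exact h2.le
  have hgr : (1 : ℝ) < g := by
    have : (2 : ℝ) ≤ g := by exact_mod_cast hg
    linarith
  -- the number of steps needed
  obtain ⟨L, hL⟩ := pow_unbounded_of_one_lt (g : ℝ) hρ1
  refine ⟨(g : ℝ) ^ (a * L + 1), fun y hy => ?_⟩
  have hy1 : 1 ≤ y := le_trans (one_le_pow₀ hgr.le) hy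
  have hy0 : 0 < y := by linarith
  -- largest power of g below y
  obtain ⟨m, hm1, hm2⟩ := exists_nat_pow_near hy1 hgr
  have ham : a * L ≤ m := by
    by_contra hcon
    push Not at hcon
    have h3 : (g : ℝ) ^ (m + 1) ≤ (g : ℝ) ^ (a * L + 1) := pow_le_pow_right₀ hgr.le (by omega)
    linarith
  -- smallest i with g^m ρ^i ≥ y
  have hex : ∃ i : ℕ, y ≤ (g : ℝ) ^ m * ρ ^ i := by
    refine ⟨L, ?_⟩
    have : (g : ℝ) ^ (m + 1) ≤ (g : ℝ) ^ m * ρ ^ L := by
      rw [pow_succ]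
      exact mul_le_mul_of_nonneg_left hL.le (by positivity)
    linarith
  classical
  set i := Nat.find hex with hi
  have hi1 : y ≤ (g : ℝ) ^ m * ρ ^ i := Nat.find_spec hex
  have hiL : i ≤ L := by
    apply Nat.find_min' hex
    have : (g : ℝ) ^ (m + 1) ≤ (g : ℝ) ^ m * ρ ^ L := by
      rw [pow_succ]
      exact mul_le_mul_of_nonneg_left hL.le (by positivity)
    linarith
  have hi2 : (g : ℝ) ^ m * ρ ^ i ≤ (1 + ε) * y := by
    rcases Nat.eq_zero_or_pos i with h0 | hpos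
    · rw [h0, pow_zero, mul_one]
      have : y ≤ (1 + ε) * y := by nlinarith
      linarith
    · have h3 := Nat.find_min hex (show i - 1 < i by omega)
      push Not at h3
      have h4 : ρ ^ i = ρ ^ (i - 1) * ρ := by rw [← pow_succ]; congr 1; omega
      rw [h4, ← mul_assoc]
      calc (g : ℝ) ^ m * ρ ^ (i - 1) * ρ ≤ y * ρ :=
            mul_le_mul_of_nonneg_right h3.le (by linarith)
        _ ≤ y * (1 + ε) := mul_le_mul_of_nonneg_left hρ2 hy0.le
        _ = _ := mul_comm _ _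
  have hai : a * i ≤ m := le_trans (Nat.mul_le_mul_left a hiL) ham
  have heq : (g : ℝ) ^ m * ρ ^ i = (g : ℝ) ^ (m - a * i) * (u : ℝ) ^ i := by
    rw [hρ, div_pow, ← pow_mul]
    have : (g : ℝ) ^ m = (g : ℝ) ^ (m - a * i) * (g : ℝ) ^ (a * i) := by
      rw [← pow_add]; congr 1; omega
    rw [this]
    field_simp
  rw [heq] at hi1 hi2
  exact ⟨m - a * i, i, hi1, hi2⟩

/-- 3-smooth numbers are dense on a multiplicative scale. -/
lemma T3_dense {ε : ℝ} (hε : 0 < ε) : ∃ Y : ℝ, ∀ y : ℝ, Y ≤ y → ∃ s : ℕ, T3 s ∧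
    y ≤ s ∧ (s : ℝ) ≤ (1 + ε) * y := by
  -- Dirichlet approximation
  have hlog2 : 0 < Real.log 2 := Real.log_pos (by norm_num)
  have hlog3 : 0 < Real.log 3 := Real.log_pos (by norm_num)
  have hlog23 : Real.log 2 < Real.log 3 := Real.log_lt_log (by norm_num) (by norm_num)
  have hlε : 0 < Real.log (1 + ε) := Real.log_pos (by linarith)
  obtain ⟨N, hN⟩ := exists_nat_gt (max (Real.log 2 / Real.log (1 + ε)) 1)
  have hN1 : Real.log 2 / Real.log (1 + ε) < N := lt_of_le_of_lt (le_max_left _ _) hN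
  have hN2 : (1 : ℝ) < N := lt_of_le_of_lt (le_max_right _ _) hN
  have hNpos : 0 < N := by
    have : (0 : ℝ) < N := by linarith
    exact_mod_cast this
  obtain ⟨j, k, hk0, hkN, hjk⟩ := Real.exists_int_int_abs_mul_sub_le
    (Real.log 3 / Real.log 2) hNpos
  -- k log 3 - j log 2 is small
  have h1 : |(k : ℝ) * Real.log 3 - j * Real.log 2| < Real.log (1 + ε) := by
    have e1 : (k : ℝ) * Real.log 3 - j * Real.log 2 =
        (k * (Real.log 3 / Real.log 2) - j) * Real.log 2 := by field_simp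
    rw [e1, abs_mul, abs_of_pos hlog2]
    have h2 : |(k : ℝ) * (Real.log 3 / Real.log 2) - j| * Real.log 2 ≤
        1 / ((N : ℝ) + 1) * Real.log 2 := mul_le_mul_of_nonneg_right hjk hlog2.le
    refine lt_of_le_of_lt h2 ?_
    rw [div_lt_iff₀ hlε] at hN1
    rw [one_div, inv_mul_lt_iff₀ (by linarith)]
    nlinarith
  have hj0 : 0 < j := by
    by_contra hcon
    push Not at hcon
    have hj' : (j : ℝ) ≤ 0 := by exact_mod_cast hcon
    have hk' : (1 : ℝ) ≤ k := by exact_mod_cast hk0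
    have h3 : 1 < (k : ℝ) * (Real.log 3 / Real.log 2) - j := by
      have : 1 < Real.log 3 / Real.log 2 := by rw [one_lt_div hlog2]; exact hlog23
      nlinarith
    have h4 := (le_abs_self _).trans hjk
    have h5 : 1 / ((N : ℝ) + 1) ≤ 1 := by
      rw [div_le_one (by linarith)]; linarith
    linarith
  obtain ⟨k', rfl⟩ := Int.eq_ofNat_of_zero_le hk0.le
  obtain ⟨j', rfl⟩ := Int.eq_ofNat_of_zero_le hj0.le
  have hk'' : 0 < k' := by exact_mod_cast hk0
  simp only [Int.cast_natCast] at h1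
  have hlp3 : (k' : ℝ) * Real.log 3 = Real.log ((3 : ℝ) ^ k') := by rw [Real.log_pow]
  have hlp2 : (j' : ℝ) * Real.log 2 = Real.log ((2 : ℝ) ^ j') := by rw [Real.log_pow]
  rw [hlp3, hlp2] at h1
  have hne : (3 : ℝ) ^ k' ≠ (2 : ℝ) ^ j' := by
    intro h
    have h' : (3 : ℕ) ^ k' = 2 ^ j' := by exact_mod_cast h
    have h3 : (3 ^ k').factorization 3 = (2 ^ j').factorization 3 := by rw [h']
    rw [Nat.factorization_pow, Nat.factorization_pow] at h3
    simp only [Finsupp.coe_smul, Pi.smul_apply, smul_eq_mul] at h3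
    rw [Nat.prime_three.factorization_self, Nat.factorization_eq_zero_of_not_dvd (by norm_num)] at h3
    omega
  have hp3 : (0 : ℝ) < (3 : ℝ) ^ k' := by positivity
  have hp2 : (0 : ℝ) < (2 : ℝ) ^ j' := by positivity
  rw [abs_lt] at h1
  rcases lt_or_gt_of_ne hne with h | h
  · -- 3^k' < 2^j'
    obtain ⟨Y, hY⟩ := geom_step (g := 3) (u := 2 ^ j') (a := k') (ε := ε) (by norm_num)
      (by exact_mod_cast h) (by
        push_cast
        have h4 : Real.log ((2 : ℝ) ^ j') < Real.log ((1 + ε) * (3 : ℝ) ^ k') := by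
          rw [Real.log_mul (by positivity) (by positivity)]
          linarith [h1.1]
        exact (Real.log_lt_log_iff (by positivity) (by positivity)).1 h4)
    refine ⟨Y, fun y hy => ?_⟩
    obtain ⟨k, i, h5, h6⟩ := hY y hy
    refine ⟨3 ^ k * (2 ^ j') ^ i, ?_, ?_, ?_⟩
    · rw [← pow_mul]
      exact (T3_three_pow k).mul (T3_two_pow _)
    · push_cast; push_cast at h5; exact h5
    · push_cast; push_cast at h6; exact h6
  · obtain ⟨Y, hY⟩ := geom_step (g := 2) (u := 3 ^ k') (a := j') (ε := ε) (by norm_num)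
      (by exact_mod_cast h) (by
        push_cast
        have h4 : Real.log ((3 : ℝ) ^ k') < Real.log ((1 + ε) * (2 : ℝ) ^ j') := by
          rw [Real.log_mul (by positivity) (by positivity)]
          linarith [h1.2]
        exact (Real.log_lt_log_iff (by positivity) (by positivity)).1 h4)
    refine ⟨Y, fun y hy => ?_⟩
    obtain ⟨k, i, h5, h6⟩ := hY y hy
    refine ⟨2 ^ k * (3 ^ k') ^ i, ?_, ?_, ?_⟩
    · rw [← pow_mul]
      exact (T3_two_pow k).mul (T3_three_pow _)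
    · push_cast; push_cast at h5; exact h5
    · push_cast; push_cast at h6; exact h6

/-- `N` well separated 3-smooth numbers in `[α y, α' y]`. -/
lemma T3_many {α α' : ℝ} (hα : 0 < α) (hαα' : α < α') {N : ℕ} (hN : 0 < N) :
    ∃ Y : ℝ, ∀ y : ℝ, Y ≤ y → ∃ s : ℕ → ℕ, ∀ k < N, T3 (s k) ∧
      (α + 2 * k * ((α' - α) / (2 * N))) * y ≤ s k ∧
      (s k : ℝ) ≤ (α + (2 * k + 1) * ((α' - α) / (2 * N))) * y := by
  set δ : ℝ := (α' - α) / (2 * N) with hδ
  have hNr : (0 : ℝ) < N := by exact_mod_cast hN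
  have hδ0 : 0 < δ := div_pos (by linarith) (by linarith)
  have hα'0 : 0 < α' := by linarith
  obtain ⟨Y, hY⟩ := T3_dense (ε := δ / α') (by positivity)
  refine ⟨max (Y / α) 0, fun y hy => ?_⟩
  have hy1 : Y / α ≤ y := (le_max_left _ _).trans hy
  have hy0 : 0 ≤ y := (le_max_right _ _).trans hy
  have hex : ∀ k : ℕ, k < N → ∃ s : ℕ, T3 s ∧ (α + 2 * k * δ) * y ≤ s ∧
      (s : ℝ) ≤ (α + (2 * k + 1) * δ) * y := by
    intro k hk
    have hkr : (k : ℝ) + 1 ≤ N := by exact_mod_cast hk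
    have hk0 : (0 : ℝ) ≤ k := Nat.cast_nonneg k
    have h1 : Y ≤ (α + 2 * k * δ) * y := by
      rw [div_le_iff₀ hα] at hy1
      have : y * α ≤ (α + 2 * k * δ) * y := by
        have : 0 ≤ 2 * k * δ * y := by positivity
        nlinarith
      linarith
    obtain ⟨s, hs1, hs2, hs3⟩ := hY _ h1
    refine ⟨s, hs1, hs2, hs3.trans ?_⟩
    have h2 : α + 2 * k * δ ≤ α' := by
      have : 2 * N * δ = α' - α := by rw [hδ]; field_simp
      nlinarith
    have h3 : δ / α' * (α + 2 * k * δ) ≤ δ := by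
      calc δ / α' * (α + 2 * k * δ) ≤ δ / α' * α' := mul_le_mul_of_nonneg_left h2 (by positivity)
        _ = δ := by field_simp
    calc (1 + δ / α') * ((α + 2 * k * δ) * y)
        = ((α + 2 * k * δ) + δ / α' * (α + 2 * k * δ)) * y := by ring
      _ ≤ ((α + 2 * k * δ) + δ) * y := mul_le_mul_of_nonneg_right (by linarith) hy0
      _ = _ := by ring
  classical
  refine ⟨fun k => if hk : k < N then (hex k hk).choose else 0, fun k hk => ?_⟩
  simp only [dif_pos hk]
  exact (hex k hk).choose_spec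

/-- For the small exchanges: a 3-smooth number in `[1.03 r, 1.545 r]` for `r ≥ 5`. -/
lemma T3_near {r : ℕ} (hr : 5 ≤ r) : ∃ s : ℕ, T3 s ∧ 103 * r ≤ 100 * s ∧ 1000 * s ≤ 1545 * r := by
  -- `m = ⌈1.03 r⌉ - 1`
  set m := (103 * r + 99) / 100 - 1 with hm
  have hm1 : 100 * m < 103 * r := by omega
  have hm2 : 103 * r ≤ 100 * (m + 1) := by omega
  have hm5 : 5 ≤ m := by omega
  set k := Nat.log 2 m with hk
  have hk1 : 2 ^ k ≤ m := Nat.pow_log_le_self 2 (by omega)
  have hk2 : m < 2 ^ (k + 1) := Nat.lt_pow_succ_log_self (by norm_num) m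
  have hk3 : 2 ≤ k := by
    by_contra hcon
    push Not at hcon
    have : 2 ^ (k + 1) ≤ 2 ^ 2 := Nat.pow_le_pow_right (by norm_num) (by omega)
    omega
  obtain ⟨j, hj⟩ : ∃ j, k = j + 1 := ⟨k - 1, by omega⟩
  rw [hj, pow_succ] at hk1
  rw [hj, pow_succ, pow_succ] at hk2
  rcases le_or_gt (m + 1) (3 * 2 ^ j) with h | h
  · refine ⟨2 ^ j * 3, ⟨j, 1, by simp⟩, by omega, by omega⟩
  · refine ⟨2 ^ (j + 2), T3_two_pow _, ?_, ?_⟩
    · rw [pow_succ, pow_succ]; omega
    · rw [pow_succ, pow_succ]; omega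

end H20.EGS
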