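import Pool.Agent.H20.EGS.Windows
import Pool.Agent.H20.EGS.Smooth3

/-!
# Phase D: correcting the exponents of the primes `5 ≤ r ≤ Y`
-/

open Finset

namespace H20.EGS

open Classical in
/-- the chosen 3-smooth neighbour -/
noncomputable def sn (r : ℕ) : ℕ := if h : 5 ≤ r then (T3_near h).choose else 1

lemma sn_T3 (r : ℕ) : T3 (sn r) := by
  unfold sn
  split_ifs with h
  · exact (T3_near h).choose_spec.1
  · exact ⟨0, 0, by simp⟩

lemma sn_low {r : ℕ} (h : 5 ≤ r) : 103 * r ≤ 100 * sn r := by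
  unfold sn
  rw [dif_pos h]
  exact (T3_near h).choose_spec.2.1

lemma sn_high {r : ℕ} (h : 5 ≤ r) : 1000 * sn r ≤ 1545 * r := by
  unfold sn
  rw [dif_pos h]
  exact (T3_near h).choose_spec.2.2

lemma T3.coprime {s p : ℕ} (hs : T3 s) (hp : p.Prime) (h5 : 5 ≤ p) : s.Coprime p := by
  rw [Nat.coprime_comm, hp.coprime_iff_not_dvd]
  intro hdvd
  have h5' := (hp.dvd_iff_one_le_factorization hs.ne_zero).1 hdvd
  rw [hs.fac_other (by omega) (by omega)] at h5'
  omega

/-- `s p ≤ 2n` with `n < K p` forces `s < 2K`. -/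
lemma small_of_bad {n K s p b : ℕ} (hb : b ≤ 2 * n) (hb0 : 0 < b) (hp : n < K * p)
    (hs : s * p ∣ b) : s < 2 * K := by
  have h1 : s * p ≤ b := Nat.le_of_dvd hb0 hs
  by_contra hcon
  push Not at hcon
  have h2 : 2 * K * p ≤ s * p := Nat.mul_le_mul_right p hcon
  have h3 : 2 * K * p = 2 * (K * p) := by ring
  omega

/-- the configuration hypotheses -/
structure Conf (n K hsp Bd : ℕ) (D : Finset ℕ) : Prop where
  hK : 2 ≤ K
  hn : 2000 * hsp + 2000 + 5 * K ≤ n
  pos : ∀ b ∈ D, (∃ c ∈ Sp, c * n / 1000 < b ∧ b ≤ c * n / 1000 + hsp) ∨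
        (1850 * n / 1000 < b ∧ 1000 * b ≤ 1890 * n)
  full : ∀ c ∈ Sp, ∀ b, c * n / 1000 < b → b ≤ c * n / 1000 + hsp → Sm n K b → b ∈ D
  bad : ∀ c ∈ Sp, (Bad n K (c * n / 1000) hsp).card ≤ Bd

/-- missing elements are bad -/
lemma Conf.miss_le {n K hsp Bd : ℕ} {D : Finset ℕ} (h : Conf n K hsp Bd D) {c : ℕ} (hc : c ∈ Sp)
    (a : ℕ) : miss D (c * n / 1000) hsp a ≤ Bd := by
  refine le_trans ?_ (h.bad c hc)
  unfold miss
  apply card_le_card
  intro b hb
  rw [mem_filter, mem_Ioc] at hb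
  rw [mem_Bad]
  refine ⟨hb.1, ?_⟩
  have h3 : ¬ Sm n K b := fun hs => hb.2.2 (h.full c hc b hb.1.1 hb.1.2 hs)
  unfold Sm at h3
  push Not at h3
  exact h3

lemma Conf.miss_zero {n K hsp Bd : ℕ} {D : Finset ℕ} (h : Conf n K hsp Bd D) {c : ℕ} (hc : c ∈ Sp)
    {a : ℕ} (ha : 2 * K ≤ a) (hcop : ∀ p : ℕ, p.Prime → n < K * p → a.Coprime p) :
    miss D (c * n / 1000) hsp a = 0 := by
  unfold miss
  rw [card_eq_zero, filter_eq_empty_iff]
  rintro b hb ⟨hab, hbD⟩
  rw [mem_Ioc] at hb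
  have h3 : ¬ Sm n K b := fun hs => hbD (h.full c hc b hb.1 hb.2 hs)
  unfold Sm at h3
  push Not at h3
  obtain ⟨p, hp, hpb, hn⟩ := h3
  have h4 : a * p ∣ b := (hcop p hp hn).mul_dvd_of_dvd_of_dvd hab hpb
  have h5 := (Sp_bounds hc).2
  have h6 : c * n ≤ 1990 * n := Nat.mul_le_mul_right n h5
  have h7 := h.hn
  have := small_of_bad (n := n) (K := K) (by omega) (by omega) hn h4
  omega

/-- the zone for the images of phase D -/
def ZD (n : ℕ) : Finset ℕ := Ioc (1030 * n / 1000) (1560 * n / 1000)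

lemma Conf.disj_ZD {n K hsp Bd : ℕ} {D : Finset ℕ} (h : Conf n K hsp Bd D) :
    (D ∩ ZD n).card = 0 := by
  rw [card_eq_zero, ← disjoint_iff_inter_eq_empty, disjoint_left]
  intro b hb hbZ
  unfold ZD at hbZ
  rw [mem_Ioc] at hbZ
  have hn := h.hn
  rcases h.pos b hb with ⟨c, hc, h1, h2⟩ | ⟨h1, h2⟩
  · have hc' : c = 1005 ∨ 1600 ≤ c := by
      unfold Sp at hc
      simp only [mem_insert, mem_singleton] at hc
      omega
    rcases hc' with rfl | hc'
    · omega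
    · have : 1600 * n ≤ c * n := Nat.mul_le_mul_right n hc'
      omega
  · omega

/-- Phase D. -/
lemma phaseD {n K hsp Bd Y : ℕ} {D : Finset ℕ} (h : Conf n K hsp Bd D) (d : ℕ → ℤ)
    (hY : K * Y ≤ n) (hY2 : 0 < Y)
    (hcap1 : 3 * ∑ r ∈ (Ioc (2 * K) Y).filter Nat.Prime, (d r).natAbs ≤ hsp / (2 * Y))
    (hcap2 : Bd + 2 * ∑ r ∈ (Ioc (2 * K) Y).filter Nat.Prime, (d r).natAbs +
      3 * ∑ r ∈ (Icc 5 (2 * K)).filter Nat.Prime, (d r).natAbs ≤ hsp / (4 * K)) :
    ∃ D' : Finset ℕ, D' ⊆ D ∪ ZD n ∧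
      D \ D' ⊆ Ioc (1005 * n / 1000) (1005 * n / 1000 + hsp) ∪
        Ioc (1600 * n / 1000) (1600 * n / 1000 + hsp) ∪ ZD n ∧
      ∀ q, (V D' q : ℤ) = V D q +
        ∑ r ∈ (Ioc (2 * K) Y).filter Nat.Prime,
          d r * ((r.factorization q : ℤ) - ((sn r).factorization q : ℤ)) +
        ∑ r ∈ (Icc 5 (2 * K)).filter Nat.Prime,
          d r * ((r.factorization q : ℤ) - ((sn r).factorization q : ℤ)) := by
  have hn := h.hn
  have hK := h.hK
  -- the zone conditions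
  have hZp : ∀ r, 5 ≤ r → ∀ v, r * v ∈ Ioc (1005 * n / 1000) (1005 * n / 1000 + hsp) →
      sn r * v ∈ ZD n := by
    intro r hr v hv
    rw [mem_Ioc] at hv
    unfold ZD
    rw [mem_Ioc]
    have h1 : 103 * r * v ≤ 100 * sn r * v := Nat.mul_le_mul_right v (sn_low hr)
    have h2 : 1000 * sn r * v ≤ 1545 * r * v := Nat.mul_le_mul_right v (sn_high hr)
    have e1 : 103 * r * v = 103 * (r * v) := by ring
    have e2 : 100 * sn r * v = 100 * (sn r * v) := by ring
    have e3 : 1000 * sn r * v = 1000 * (sn r * v) := by ring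
    have e4 : 1545 * r * v = 1545 * (r * v) := by ring
    rw [e1, e2] at h1
    rw [e3, e4] at h2
    constructor <;> omega
  have hZm : ∀ r, 5 ≤ r → ∀ v, sn r * v ∈ Ioc (1600 * n / 1000) (1600 * n / 1000 + hsp) →
      r * v ∈ ZD n := by
    intro r hr v hv
    rw [mem_Ioc] at hv
    unfold ZD
    rw [mem_Ioc]
    have h1 : 103 * r * v ≤ 100 * sn r * v := Nat.mul_le_mul_right v (sn_low hr)
    have h2 : 1000 * sn r * v ≤ 1545 * r * v := Nat.mul_le_mul_right v (sn_high hr)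
    have e1 : 103 * r * v = 103 * (r * v) := by ring
    have e2 : 100 * sn r * v = 100 * (sn r * v) := by ring
    have e3 : 1000 * sn r * v = 1000 * (sn r * v) := by ring
    have e4 : 1545 * r * v = 1545 * (r * v) := by ring
    rw [e1, e2] at h1
    rw [e3, e4] at h2
    constructor <;> omega
  have hc5 : 1005 ∈ Sp := by decide
  have hc16 : 1600 ∈ Sp := by decide
  have hp5 : ∀ p : ℕ, n < K * p → 5 ≤ p := by
    intro p hp
    by_contra hcon
    push Not at hcon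
    have : K * p ≤ K * 4 := Nat.mul_le_mul_left K (by omega)
    omega
  -- first batch
  set U1 := ∑ r ∈ (Ioc (2 * K) Y).filter Nat.Prime, (d r).natAbs with hU1
  set U2 := ∑ r ∈ (Icc 5 (2 * K)).filter Nat.Prime, (d r).natAbs with hU2
  have hR1 : ∀ r ∈ (Ioc (2 * K) Y).filter Nat.Prime, 5 ≤ r ∧ 2 * K < r ∧ r ≤ Y ∧ r.Prime := by
    intro r hr
    rw [mem_filter, mem_Ioc] at hr
    exact ⟨by omega, hr.1.1, hr.1.2, hr.2⟩
  have hR2 : ∀ r ∈ (Icc 5 (2 * K)).filter Nat.Prime, 5 ≤ r ∧ r ≤ 2 * K ∧ r.Prime := by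
    intro r hr
    rw [mem_filter, mem_Icc] at hr
    exact ⟨hr.1.1, hr.1.2, hr.2⟩
  obtain ⟨D1, a1, a2, a3, a4, a5⟩ := swap_batch sn d (1005 * n / 1000) (1600 * n / 1000) hsp 0 0
    (ZD n) D h.disj_ZD.le ((Ioc (2 * K) Y).filter Nat.Prime)
    (by
      intro r hr
      obtain ⟨h5, _, _, _⟩ := hR1 r hr
      have := sn_low h5
      omega)
    (fun r hr => hZp r (hR1 r hr).1)
    (fun r hr => hZm r (hR1 r hr).1)
    (by
      intro r hr
      obtain ⟨h5, h6, h7, h8⟩ := hR1 r hr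
      refine (h.miss_zero hc5 (by omega) ?_).le
      intro p hp hnp
      rw [Nat.coprime_primes h8 hp]
      rintro rfl
      have : K * r ≤ K * Y := Nat.mul_le_mul_left K h7
      omega)
    (by
      intro r hr
      obtain ⟨h5, h6, h7, h8⟩ := hR1 r hr
      have := sn_low h5
      refine (h.miss_zero hc16 (by omega) ?_).le
      intro p hp hnp
      exact (sn_T3 r).coprime hp (hp5 p hnp))
    (by
      intro r hr
      obtain ⟨h5, h6, h7, h8⟩ := hR1 r hr
      have h9 := sn_high h5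
      have h10 := sn_low h5
      have h11 : hsp / (2 * Y) ≤ hsp / sn r := Nat.div_le_div_left (by omega) (by omega)
      omega)
  rw [h.disj_ZD, zero_add] at a4
  obtain ⟨D2, b1, b2, b3, b4, b5⟩ := swap_batch sn d (1005 * n / 1000) (1600 * n / 1000) hsp
    (Bd + U1) U1 (ZD n) D1 a4 ((Icc 5 (2 * K)).filter Nat.Prime)
    (by
      intro r hr
      obtain ⟨h5, _, _⟩ := hR2 r hr
      have := sn_low h5
      omega)
    (fun r hr => hZp r (hR2 r hr).1)
    (fun r hr => hZm r (hR2 r hr).1)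
    (by
      intro r hr
      exact (miss_le D D1 _ _ _).trans (Nat.add_le_add (h.miss_le hc5 r) a3))
    (by
      intro r hr
      exact (miss_le D D1 _ _ _).trans (Nat.add_le_add (h.miss_le hc16 (sn r)) a3))
    (by
      intro r hr
      obtain ⟨h5, h6, h8⟩ := hR2 r hr
      have h9 := sn_high h5
      have h10 := sn_low h5
      have h11 : hsp / (4 * K) ≤ hsp / sn r := Nat.div_le_div_left (by omega) (by omega)
      omega)
  refine ⟨D2, ?_, ?_, ?_⟩
  · intro b hb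
    have := b1 hb
    rw [mem_union] at this ⊢
    rcases this with h | h
    · have := a1 h
      rwa [mem_union] at this
    · exact Or.inr h
  · intro b hb
    rw [mem_sdiff] at hb
    by_cases h : b ∈ D1
    · exact b2 (mem_sdiff.2 ⟨h, hb.2⟩)
    · exact a2 (mem_sdiff.2 ⟨hb.1, h⟩)
  · intro q
    rw [b5 q, a5 q]

end H20.EGS
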