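import Pool.Agent.H20.EGS.PhaseL2

/-!
# Phase E: correcting the exponents of 2 and 3
-/

open Finset

namespace H20.EGS

def ZE1 (n : ℕ) : Finset ℕ := Ioc (1919 * n / 1000) (1922 * n / 1000) ∪
  Ioc (1670 * n / 1000) (1672 * n / 1000)
def ZE2 (n : ℕ) : Finset ℕ := Ioc (1912 * n / 1000) (1914 * n / 1000) ∪
  Ioc (1724 * n / 1000) (1726 * n / 1000)

lemma fac_27 (q : ℕ) : (27 : ℕ).factorization q = if q = 3 then 3 else 0 := by
  rw [show (27 : ℕ) = 3 ^ 3 by norm_num, Nat.Prime.factorization_pow Nat.prime_three,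
    Finsupp.single_apply]
  simp only [eq_comm]

lemma fac_32 (q : ℕ) : (32 : ℕ).factorization q = if q = 2 then 5 else 0 := by
  rw [show (32 : ℕ) = 2 ^ 5 by norm_num, Nat.Prime.factorization_pow Nat.prime_two,
    Finsupp.single_apply]
  simp only [eq_comm]

lemma fac_8 (q : ℕ) : (8 : ℕ).factorization q = if q = 2 then 3 else 0 := by
  rw [show (8 : ℕ) = 2 ^ 3 by norm_num, Nat.Prime.factorization_pow Nat.prime_two,
    Finsupp.single_apply]
  simp only [eq_comm]

lemma fac_9 (q : ℕ) : (9 : ℕ).factorization q = if q = 3 then 2 else 0 := by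
  rw [show (9 : ℕ) = 3 ^ 2 by norm_num, Nat.Prime.factorization_pow Nat.prime_three,
    Finsupp.single_apply]
  simp only [eq_comm]

/-- Phase E. -/
lemma phaseE {n hsp Mi : ℕ} (hn : 2000 * hsp + 2000 ≤ n) {D4 : Finset ℕ} (d2 d3 : ℤ)
    (hm : ∀ c ∈ Sp, ∀ a, c = 1620 ∨ c = 1700 ∨ c = 1940 ∨ c = 1980 →
      miss D4 (c * n / 1000) hsp a ≤ Mi)
    (hZ1 : D4 ∩ ZE1 n = ∅) (hZ2 : D4 ∩ ZE2 n = ∅)
    (hcap : Mi + 4 * (5 * d2.natAbs + 8 * d3.natAbs) ≤ hsp / 32) :
    ∃ D6 : Finset ℕ, D6 ⊆ D4 ∪ ZE1 n ∪ ZE2 n ∧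
      (V D6 2 : ℤ) = V D4 2 + d2 ∧ (V D6 3 : ℤ) = V D4 3 + d3 ∧
      ∀ q, q ≠ 2 → q ≠ 3 → V D6 q = V D4 q := by
  set α : ℤ := 2 * d2 + 3 * d3 with hα
  set β : ℤ := 3 * d2 + 5 * d3 with hβ
  have h32 : hsp / 32 ≤ hsp / 9 := Nat.div_le_div_left (by norm_num) (by norm_num)
  obtain ⟨D5, a1, a2, a3, a4, a5⟩ := swap_batch (fun _ => 32) (fun _ => -α) (1620 * n / 1000)
    (1980 * n / 1000) hsp Mi 0 (ZE1 n) D4 (by rw [hZ1]; simp) {27} (by simp)
    (by
      intro r hr v hv
      rw [mem_singleton] at hr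
      subst hr
      rw [mem_Ioc] at hv
      unfold ZE1
      rw [mem_union, mem_Ioc, mem_Ioc]
      left
      constructor <;> omega)
    (by
      intro r hr v hv
      rw [mem_singleton] at hr
      subst hr
      rw [mem_Ioc] at hv
      unfold ZE1
      rw [mem_union, mem_Ioc, mem_Ioc]
      right
      constructor <;> omega)
    (fun r _ => hm 1620 (by decide) r (by norm_num))
    (fun r _ => hm 1980 (by decide) _ (by norm_num))
    (by
      intro r _
      rw [sum_singleton]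
      omega)
  rw [sum_singleton] at a3
  have hZ2' : (D5 ∩ ZE2 n).card = 0 := by
    rw [card_eq_zero, ← disjoint_iff_inter_eq_empty, disjoint_left]
    intro b hb hbZ
    have := a1 hb
    rw [mem_union] at this
    rcases this with h3 | h3
    · have : b ∈ D4 ∩ ZE2 n := mem_inter.2 ⟨h3, hbZ⟩
      rw [hZ2] at this
      simp at this
    · unfold ZE1 at h3
      unfold ZE2 at hbZ
      rw [mem_union, mem_Ioc, mem_Ioc] at h3 hbZ
      omega
  obtain ⟨D6, b1, b2, b3, b4, b5⟩ := swap_batch (fun _ => 9) (fun _ => -β) (1700 * n / 1000)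
    (1940 * n / 1000) hsp (Mi + (-α).natAbs) 0 (ZE2 n) D5 hZ2'.le {8} (by simp)
    (by
      intro r hr v hv
      rw [mem_singleton] at hr
      subst hr
      rw [mem_Ioc] at hv
      unfold ZE2
      rw [mem_union, mem_Ioc, mem_Ioc]
      left
      constructor <;> omega)
    (by
      intro r hr v hv
      rw [mem_singleton] at hr
      subst hr
      rw [mem_Ioc] at hv
      unfold ZE2
      rw [mem_union, mem_Ioc, mem_Ioc]
      right
      constructor <;> omega)
    (fun r _ => (miss_le D4 D5 _ _ _).trans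
      (Nat.add_le_add (hm 1700 (by decide) r (by norm_num)) a3))
    (fun r _ => (miss_le D4 D5 _ _ _).trans
      (Nat.add_le_add (hm 1940 (by decide) _ (by norm_num)) a3))
    (by
      intro r _
      rw [sum_singleton]
      omega)
  have hV : ∀ q, (V D6 q : ℤ) = V D4 q +
      (-α) * (((if q = 3 then 3 else 0 : ℕ) : ℤ) - ((if q = 2 then 5 else 0 : ℕ) : ℤ)) +
      (-β) * (((if q = 2 then 3 else 0 : ℕ) : ℤ) - ((if q = 3 then 2 else 0 : ℕ) : ℤ)) := by
    intro q
    have h1 := a5 q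
    have h2 := b5 q
    rw [sum_singleton, fac_27, fac_32] at h1
    rw [sum_singleton, fac_8, fac_9] at h2
    rw [h2, h1]
  refine ⟨D6, ?_, ?_, ?_, ?_⟩
  · intro b hb
    have := b1 hb
    rw [mem_union] at this
    rw [mem_union, mem_union]
    rcases this with h3 | h3
    · have := a1 h3
      rw [mem_union] at this
      tauto
    · tauto
  · rw [hV 2]
    norm_num
    rw [hα, hβ]
    ring
  · rw [hV 3]
    norm_num
    rw [hα, hβ]
    ring
  · intro q hq2 hq3
    have := hV q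
    rw [if_neg hq2, if_neg hq3, if_neg hq2, if_neg hq3] at this
    simp only [Nat.cast_zero, sub_zero, mul_zero, add_zero] at this
    exact_mod_cast this

end H20.EGS
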