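import Pool.Agent.H20.EGS.Swap
import Pool.Agent.H20.EGS.Smooth3

/-!
# Correcting the exponents of the larger primes
-/

open Finset

namespace H20.EGS

/-- Greedy choice without conflicts. -/
lemma greedy {ι α : Type*} [DecidableEq ι] [DecidableEq α] [Inhabited α] (key : ι → ℕ)
    (Cand : ι → Finset α) (src img : ι → α → ℕ) :
    ∀ (m : ℕ) (S : Finset ι), S.card = m →
      (∀ i ∈ S, 2 * (S.filter (fun j => key i ≤ key j)).card ≤ (Cand i).card) →
      (∀ i ∈ S, Set.InjOn (src i) (Cand i)) → (∀ i ∈ S, Set.InjOn (img i) (Cand i)) →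
      ∃ w : ι → α, (∀ i ∈ S, w i ∈ Cand i) ∧
        (∀ i ∈ S, ∀ j ∈ S, i ≠ j → src i (w i) ≠ src j (w j) ∧ img i (w i) ≠ img j (w j)) := by
  intro m
  induction m with
  | zero =>
    intro S hS _ _ _
    rw [card_eq_zero] at hS
    subst hS
    exact ⟨fun _ => default, by simp, by simp⟩
  | succ m ih =>
    intro S hS hcard hsrc himg
    have hne : S.Nonempty := by rw [← card_pos]; omega
    obtain ⟨i0, hi0, hmin⟩ := exists_min_image S key hne
    have hcS' : (S.erase i0).card = m := by rw [card_erase_of_mem hi0]; omega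
    obtain ⟨w, hw1, hw2⟩ := ih (S.erase i0) hcS'
      (fun i hi => by
        refine le_trans ?_ (hcard i (mem_of_mem_erase hi))
        apply Nat.mul_le_mul_left
        exact card_le_card (filter_subset_filter _ (erase_subset _ _)))
      (fun i hi => hsrc i (mem_of_mem_erase hi)) (fun i hi => himg i (mem_of_mem_erase hi))
    -- forbidden candidates for i0
    have hci0 : 2 * S.card ≤ (Cand i0).card := by
      have h1 := hcard i0 hi0
      rwa [filter_true_of_mem (fun j hj => hmin j hj)] at h1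
    set F1 := (Cand i0).filter (fun x => ∃ j ∈ S.erase i0, src i0 x = src j (w j)) with hF1
    set F2 := (Cand i0).filter (fun x => ∃ j ∈ S.erase i0, img i0 x = img j (w j)) with hF2
    have hF1c : F1.card ≤ m := by
      rw [← hcS', ← card_image_of_injOn ((hsrc i0 hi0).mono (s₁ := (F1 : Set α)) (by
        intro x hx
        have := mem_coe.1 hx
        rw [hF1, mem_filter] at this
        exact this.1))]
      refine (card_le_card (t := (S.erase i0).image (fun j => src j (w j))) ?_).trans card_image_le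
      intro y hy
      rw [mem_image] at hy
      obtain ⟨x, hx, rfl⟩ := hy
      rw [hF1, mem_filter] at hx
      obtain ⟨_, j, hj, hxj⟩ := hx
      rw [mem_image]
      exact ⟨j, hj, hxj.symm⟩
    have hF2c : F2.card ≤ m := by
      rw [← hcS', ← card_image_of_injOn ((himg i0 hi0).mono (s₁ := (F2 : Set α)) (by
        intro x hx
        have := mem_coe.1 hx
        rw [hF2, mem_filter] at this
        exact this.1))]
      refine (card_le_card (t := (S.erase i0).image (fun j => img j (w j))) ?_).trans card_image_le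
      intro y hy
      rw [mem_image] at hy
      obtain ⟨x, hx, rfl⟩ := hy
      rw [hF2, mem_filter] at hx
      obtain ⟨_, j, hj, hxj⟩ := hx
      rw [mem_image]
      exact ⟨j, hj, hxj.symm⟩
    have hex : ∃ x ∈ Cand i0, x ∉ F1 ∪ F2 := by
      by_contra hcon
      push Not at hcon
      have h1 : (Cand i0).card ≤ (F1 ∪ F2).card := card_le_card hcon
      have h2 := card_union_le F1 F2
      omega
    obtain ⟨x, hxC, hxF⟩ := hex
    rw [mem_union, not_or, hF1, hF2, mem_filter, mem_filter] at hxF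
    have hx1 : ∀ j ∈ S.erase i0, src i0 x ≠ src j (w j) := by
      intro j hj h
      exact hxF.1 ⟨hxC, j, hj, h⟩
    have hx2 : ∀ j ∈ S.erase i0, img i0 x ≠ img j (w j) := by
      intro j hj h
      exact hxF.2 ⟨hxC, j, hj, h⟩
    refine ⟨Function.update w i0 x, ?_, ?_⟩
    · intro i hi
      by_cases h : i = i0
      · subst h; rwa [Function.update_self]
      · rw [Function.update_of_ne h]
        exact hw1 i (mem_erase.2 ⟨h, hi⟩)
    · intro i hi j hj hij
      by_cases h : i = i0
      · subst h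
        have hj' : j ∈ S.erase i := mem_erase.2 ⟨hij.symm, hj⟩
        rw [Function.update_self, Function.update_of_ne hij.symm]
        exact ⟨hx1 j hj', hx2 j hj'⟩
      · have hi' : i ∈ S.erase i0 := mem_erase.2 ⟨h, hi⟩
        by_cases h' : j = i0
        · subst h'
          rw [Function.update_self, Function.update_of_ne h]
          exact ⟨(hx1 i hi').symm, (hx2 i hi').symm⟩
        · have hj' : j ∈ S.erase i0 := mem_erase.2 ⟨h', hj⟩
          rw [Function.update_of_ne h, Function.update_of_ne h']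
          exact hw2 i hi' j hj' hij

/-- `s w = s' w'` with `s, s'` 3-smooth and `w, w' ≡ 1 mod 6` forces equality. -/
lemma T3_unique {s s' w w' : ℕ} (hs : T3 s) (hs' : T3 s') (hw : w % 6 = 1) (hw' : w' % 6 = 1)
    (h : s * w = s' * w') : s = s' ∧ w = w' := by
  obtain ⟨a, b, rfl⟩ := hs
  obtain ⟨a', b', rfl⟩ := hs'
  have hw0 : w ≠ 0 := by rintro rfl; omega
  have hw0' : w' ≠ 0 := by rintro rfl; omega
  have e2 : (2 ^ a * 3 ^ b * w).factorization 2 = (2 ^ a' * 3 ^ b' * w').factorization 2 := by rw [h]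
  have e3 : (2 ^ a * 3 ^ b * w).factorization 3 = (2 ^ a' * 3 ^ b' * w').factorization 3 := by rw [h]
  rw [Nat.factorization_mul (by positivity) hw0, Nat.factorization_mul (by positivity) hw0'] at e2 e3
  simp only [Finsupp.coe_add, Pi.add_apply] at e2 e3
  rw [T3.fac_two, T3.fac_two, Nat.factorization_eq_zero_of_not_dvd (by omega),
    Nat.factorization_eq_zero_of_not_dvd (by omega)] at e2
  rw [T3.fac_three, T3.fac_three, Nat.factorization_eq_zero_of_not_dvd (by omega),
    Nat.factorization_eq_zero_of_not_dvd (by omega)] at e3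
  have ha : a = a' := by omega
  have hb : b = b' := by omega
  subst ha hb
  exact ⟨rfl, Nat.eq_of_mul_eq_mul_left (by positivity) h⟩

/-- number of `w ≡ 1 mod 6` with `s w ∈ (y, y+h]`. -/
lemma count_one_mod_six {s y h : ℕ} (hs : 0 < s) (hy : s ≤ y) :
    h / (6 * s) ≤ ((range (y + h + 1)).filter fun w => s * w ∈ Ioc y (y + h) ∧ w % 6 = 1).card := by
  have h6 : 0 < 6 * s := by omega
  set I := Ioc ((y - s) / (6 * s)) ((y - s + h) / (6 * s)) with hI
  have hc : h / (6 * s) ≤ I.card := by
    rw [hI, Nat.card_Ioc]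
    have : (y - s) / (6 * s) + h / (6 * s) ≤ (y - s + h) / (6 * s) := Nat.div_add_div_le_add_div
    exact Nat.le_sub_of_add_le (by rw [add_comm]; exact this)
  refine hc.trans ?_
  rw [← card_image_of_injective I (f := fun u => 6 * u + 1) (fun x y hxy => by
    simp only at hxy; omega)]
  apply card_le_card
  intro w hw
  rw [mem_image] at hw
  obtain ⟨u, hu, rfl⟩ := hw
  rw [hI, mem_Ioc] at hu
  have h1 := (Nat.div_lt_iff_lt_mul h6).1 hu.1
  have h2 := (Nat.le_div_iff_mul_le h6).1 hu.2
  have e : s * (6 * u + 1) = u * (6 * s) + s := by ring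
  have h3 : s * (6 * u + 1) ∈ Ioc y (y + h) := by
    rw [mem_Ioc, e]; omega
  rw [mem_filter, mem_range]
  refine ⟨?_, h3, by omega⟩
  rw [mem_Ioc] at h3
  have : 6 * u + 1 ≤ s * (6 * u + 1) := Nat.le_mul_of_pos_left _ hs
  omega

/-- Removing the elements `b = q t` of `B` and reinserting their cofactors `t` by means of
exchanges `s w → t w`. -/
lemma reinsert (D B : Finset ℕ) (hBD : B ⊆ D) (hD0 : ∀ b ∈ D, b ≠ 0) (qq : ℕ → ℕ)
    (hq : ∀ b ∈ B, qq b ∣ b ∧ (qq b).Prime ∧ 5 ≤ qq b)
    (M : ℕ) (s : ℕ → ℕ → ℕ) (hs : ∀ b ∈ B, ∀ k < M, T3 (s b k)) (y h : ℕ) (Z : Finset ℕ)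
    (hsep : ∀ b ∈ B, ∀ k k', k < k' → k' < M → (y + h) * s b k ≤ y * s b k')
    (hsy : ∀ b ∈ B, ∀ k < M, s b k ≤ y)
    (hZ : ∀ b ∈ B, ∀ k < M, ∀ w, s b k * w ∈ Ioc y (y + h) → (b / qq b) * w ∈ Z)
    (hDZ : Disjoint D Z)
    (hst : ∀ b ∈ B, ∀ k < M, b / qq b < s b k)
    (smax : ℕ → ℕ) (hmax : ∀ b ∈ B, ∀ k < M, s b k ≤ smax b) (Exc : ℕ → ℕ)
    (hmiss : ∀ b ∈ B, ((Ioc y (y + h)).filter
      fun x => x ∉ D ∧ ∃ k < M, s b k ∣ x).card ≤ Exc b)
    (hcap : ∀ b ∈ B, 3 * (B.filter (fun b' => b / qq b ≤ b' / qq b')).card + Exc b ≤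
      M * (h / (6 * smax b))) :
    ∃ D' : Finset ℕ, D' ⊆ D ∪ Z ∧ D \ D' ⊆ B ∪ Ioc y (y + h) ∧ (D \ D').card ≤ 2 * B.card ∧
      ∃ σ : ℕ → ℕ, (∀ b ∈ B, T3 (σ b) ∧ σ b ≤ smax b) ∧
        ∀ p, V D' p + ∑ b ∈ B, ((qq b).factorization p + (σ b).factorization p) = V D p := by
  classical
  -- candidates
  set Cand0 : ℕ → Finset (ℕ × ℕ) := fun b => ((range M) ×ˢ (range (y + h + 1))).filter
    (fun x => s b x.1 * x.2 ∈ Ioc y (y + h) ∧ x.2 % 6 = 1) with hCand0
  set Cand : ℕ → Finset (ℕ × ℕ) := fun b => (Cand0 b).filter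
    (fun x => s b x.1 * x.2 ∈ D \ B) with hCand
  set src : ℕ → ℕ × ℕ → ℕ := fun b x => s b x.1 * x.2 with hsrc
  set img : ℕ → ℕ × ℕ → ℕ := fun b x => (b / qq b) * x.2 with himg
  have hmem0 : ∀ b, ∀ x, x ∈ Cand0 b ↔ (x.1 < M ∧ x.2 < y + h + 1) ∧
      s b x.1 * x.2 ∈ Ioc y (y + h) ∧ x.2 % 6 = 1 := by
    intro b x
    rw [hCand0]
    simp only [mem_filter, mem_product, mem_range]
  have htpos : ∀ b ∈ B, 0 < b / qq b := by
    intro b hb
    have h1 := (hq b hb).1
    have h2 := (hq b hb).2.1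
    exact Nat.div_pos (Nat.le_of_dvd (Nat.pos_of_ne_zero (hD0 b (hBD hb))) h1) h2.pos
  -- sources are injective on candidates
  have hsrcinj : ∀ b ∈ B, Set.InjOn (src b) (Cand0 b) := by
    rintro b hb ⟨k, w⟩ hx ⟨k', w'⟩ hx' heq
    rw [mem_coe, hmem0] at hx hx'
    simp only at hx hx'
    simp only [hsrc] at heq
    obtain ⟨h1, h2⟩ := T3_unique (hs b hb k hx.1.1) (hs b hb k' hx'.1.1) hx.2.2 hx'.2.2 heq
    have hpos : 0 < s b k := Nat.pos_of_ne_zero (hs b hb k hx.1.1).ne_zero
    have hpos' : 0 < s b k' := Nat.pos_of_ne_zero (hs b hb k' hx'.1.1).ne_zero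
    have hm := mem_Ioc.1 hx.2.1
    have hh : 0 < h := by omega
    have hkk : k = k' := by
      rcases lt_trichotomy k k' with hlt | heq' | hgt
      · have := hsep b hb k k' hlt hx'.1.1
        rw [← h1, Nat.add_mul] at this
        have : 0 < h * s b k := Nat.mul_pos hh hpos
        omega
      · exact heq'
      · have := hsep b hb k' k hgt hx.1.1
        rw [h1, Nat.add_mul] at this
        have : 0 < h * s b k' := Nat.mul_pos hh hpos'
        omega
    rw [hkk, h2]
  have himginj : ∀ b ∈ B, Set.InjOn (img b) (Cand0 b) := by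
    rintro b hb ⟨k, w⟩ hx ⟨k', w'⟩ hx' heq
    rw [mem_coe, hmem0] at hx hx'
    simp only at hx hx'
    simp only [himg] at heq
    have h2 : w = w' := Nat.eq_of_mul_eq_mul_left (htpos b hb) heq
    subst h2
    have aux : ∀ k k', k < k' → k' < M → s b k * w ∈ Ioc y (y + h) →
        s b k' * w ∈ Ioc y (y + h) → False := by
      intro k k' hlt hk' h1 h2
      have h3 := hsep b hb k k' hlt hk'
      rw [mem_Ioc] at h1 h2
      have h4 : (y + h) * s b k * w ≤ y * s b k' * w := Nat.mul_le_mul_right w h3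
      have h5 : y * s b k' * w ≤ y * (y + h) := by
        rw [mul_assoc]; exact Nat.mul_le_mul_left y h2.2
      have h6 : (y + h) * (s b k * w) ≤ (y + h) * y := by
        calc (y + h) * (s b k * w) = (y + h) * s b k * w := by ring
          _ ≤ y * (y + h) := h4.trans h5
          _ = _ := by ring
      have h7 : 0 < y + h := by omega
      have := Nat.le_of_mul_le_mul_left h6 h7
      omega
    rcases lt_trichotomy k k' with hlt | heq' | hgt
    · exact (aux k k' hlt hx'.1.1 hx.2.1 hx'.2.1).elim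
    · rw [heq']
    · exact (aux k' k hgt hx.1.1 hx'.2.1 hx.2.1).elim
  -- number of candidates
  have hcard0 : ∀ b ∈ B, M * (h / (6 * smax b)) ≤ (Cand0 b).card := by
    intro b hb
    rw [card_eq_sum_card_fiberwise (f := Prod.fst) (t := range M) (by
      intro x hx
      rw [mem_coe, hmem0] at hx
      exact mem_coe.2 (mem_range.2 hx.1.1))]
    calc M * (h / (6 * smax b)) = ∑ _k ∈ range M, h / (6 * smax b) := by simp
      _ ≤ _ := by
        apply sum_le_sum
        intro k hk
        rw [mem_range] at hk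
        have hpos : 0 < s b k := Nat.pos_of_ne_zero (hs b hb k hk).ne_zero
        have h1 := count_one_mod_six (h := h) hpos (hsy b hb k hk)
        have h2 : h / (6 * smax b) ≤ h / (6 * s b k) :=
          Nat.div_le_div_left (Nat.mul_le_mul_left 6 (hmax b hb k hk)) (by omega)
        refine (h2.trans h1).trans ?_
        rw [← card_image_of_injective _ (f := fun w : ℕ => (k, w)) (fun x y hxy => by
          simpa using hxy)]
        apply card_le_card
        intro x hx
        rw [mem_image] at hx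
        obtain ⟨w, hw, rfl⟩ := hx
        rw [mem_filter, mem_range] at hw
        rw [mem_filter, hmem0]
        exact ⟨⟨⟨hk, hw.1⟩, hw.2.1, hw.2.2⟩, rfl⟩
  have hbad : ∀ b ∈ B, ((Cand0 b).filter (fun x => s b x.1 * x.2 ∉ D \ B)).card ≤
      Exc b + (B.filter (fun b' => b / qq b ≤ b' / qq b')).card := by
    intro b hb
    rw [← card_image_of_injOn ((hsrcinj b hb).mono (s₁ := ((Cand0 b).filter
      (fun x => s b x.1 * x.2 ∉ D \ B) : Set (ℕ × ℕ))) (by
        intro x hx
        have := mem_coe.1 hx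
        exact (mem_filter.1 this).1))]
    refine (card_le_card (t := ((Ioc y (y + h)).filter
      fun x => x ∉ D ∧ ∃ k < M, s b k ∣ x) ∪ (B.filter (fun b' => b / qq b ≤ b' / qq b'))) ?_).trans
        ((card_union_le _ _).trans (Nat.add_le_add_right (hmiss b hb) _))
    intro z hz
    rw [mem_image] at hz
    obtain ⟨⟨k, w⟩, hx, rfl⟩ := hz
    rw [mem_filter, hmem0] at hx
    simp only at hx
    obtain ⟨⟨hx1, hx2, hx3⟩, hx4⟩ := hx
    simp only [hsrc]
    rw [mem_union, mem_filter, mem_filter]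
    rw [mem_sdiff, not_and_or, not_not] at hx4
    rcases hx4 with h4 | h4
    · exact Or.inl ⟨hx2, h4, k, hx1.1, dvd_mul_right _ _⟩
    · right
      refine ⟨h4, ?_⟩
      -- s | b' = q' t', so s ≤ t'
      obtain ⟨g1, g2, g3⟩ := hq _ h4
      have g4 : s b k ∣ (s b k * w) / qq (s b k * w) := by
        have hcop : Nat.Coprime (s b k) (qq (s b k * w)) := by
          rw [Nat.coprime_comm, g2.coprime_iff_not_dvd]
          intro hdvd
          have h5 := (g2.dvd_iff_one_le_factorization (hs b hb k hx1.1).ne_zero).1 hdvd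
          rw [(hs b hb k hx1.1).fac_other (by omega) (by omega)] at h5
          omega
        apply hcop.dvd_of_dvd_mul_left
        rw [Nat.mul_div_cancel' g1]
        exact dvd_mul_right _ _
      have g5 := Nat.le_of_dvd (htpos _ h4) g4
      exact le_trans (hst b hb k hx1.1).le g5
  have hcandcard : ∀ b ∈ B, 2 * (B.filter (fun b' => b / qq b ≤ b' / qq b')).card ≤
      (Cand b).card := by
    intro b hb
    have h1 := hcap b hb
    have h2 := hcard0 b hb
    have h3 := hbad b hb
    have h4 := card_filter_add_card_filter_not (s := Cand0 b) (fun x => s b x.1 * x.2 ∈ D \ B)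
    have h5 : (Cand b).card = ((Cand0 b).filter (fun x => s b x.1 * x.2 ∈ D \ B)).card := rfl
    omega
  have hsub : ∀ b, (Cand b : Set (ℕ × ℕ)) ⊆ (Cand0 b : Set (ℕ × ℕ)) := by
    intro b x hx
    have := mem_coe.1 hx
    rw [hCand, mem_filter] at this
    exact mem_coe.2 this.1
  obtain ⟨w, hw1, hw2⟩ := greedy (fun b => b / qq b) Cand src img B.card B rfl hcandcard
    (fun b hb => (hsrcinj b hb).mono (hsub b)) (fun b hb => (himginj b hb).mono (hsub b))
  have hw1' : ∀ b ∈ B, ((w b).1 < M ∧ (w b).2 < y + h + 1) ∧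
      s b (w b).1 * (w b).2 ∈ Ioc y (y + h) ∧ (w b).2 % 6 = 1 := fun b hb =>
    (hmem0 b (w b)).1 (mem_coe.1 (hsub b (mem_coe.2 (hw1 b hb))))
  have hw1'' : ∀ b ∈ B, s b (w b).1 * (w b).2 ∈ D \ B := fun b hb => by
    have := hw1 b hb
    rw [hCand, mem_filter] at this
    exact this.2
  set SRC := B.image (fun b => src b (w b)) with hSRC
  set IMG := B.image (fun b => img b (w b)) with hIMG
  have hSRCD : SRC ⊆ D \ B := by
    intro z hz
    rw [hSRC, mem_image] at hz
    obtain ⟨b, hb, rfl⟩ := hz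
    exact hw1'' b hb
  have hSRCW : SRC ⊆ Ioc y (y + h) := by
    intro z hz
    rw [hSRC, mem_image] at hz
    obtain ⟨b, hb, rfl⟩ := hz
    exact (hw1' b hb).2.1
  have hIMGZ : IMG ⊆ Z := by
    intro z hz
    rw [hIMG, mem_image] at hz
    obtain ⟨b, hb, rfl⟩ := hz
    exact hZ b hb _ (hw1' b hb).1.1 _ (hw1' b hb).2.1
  have hBS : B ∪ SRC ⊆ D := union_subset hBD (hSRCD.trans sdiff_subset)
  have hdisBS : Disjoint B SRC := by
    rw [disjoint_left]
    intro z hz hz2
    exact (mem_sdiff.1 (hSRCD hz2)).2 hz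
  have hdisDI : Disjoint (D \ (B ∪ SRC)) IMG := by
    rw [disjoint_left] at hDZ ⊢
    intro z hz hz2
    exact hDZ (mem_sdiff.1 hz).1 (hIMGZ hz2)
  refine ⟨(D \ (B ∪ SRC)) ∪ IMG, ?_, ?_, ?_, fun b => s b (w b).1, ?_, ?_⟩
  · intro z hz
    rw [mem_union, mem_sdiff] at hz
    rw [mem_union]
    rcases hz with hz | hz
    · exact Or.inl hz.1
    · exact Or.inr (hIMGZ hz)
  · intro z hz
    rw [mem_sdiff, mem_union, mem_sdiff, mem_union] at hz
    rw [mem_union]
    have : z ∈ B ∨ z ∈ SRC := by tauto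
    rcases this with h | h
    · exact Or.inl h
    · exact Or.inr (hSRCW h)
  · have h1 : D \ (D \ (B ∪ SRC) ∪ IMG) ⊆ B ∪ SRC := by
      intro z hz
      rw [mem_sdiff, mem_union, mem_sdiff] at hz
      tauto
    have h2 := (card_le_card h1).trans (card_union_le _ _)
    have h3 : SRC.card ≤ B.card := card_image_le
    omega
  · intro b hb
    exact ⟨hs b hb _ (hw1' b hb).1.1, hmax b hb _ (hw1' b hb).1.1⟩
  · intro p
    rw [V_union hdisDI]
    have e1 := V_sdiff hBS p
    rw [V_union hdisBS] at e1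
    have e2 : V B p = ∑ b ∈ B, ((qq b).factorization p + (b / qq b).factorization p) := by
      unfold V
      apply sum_congr rfl
      intro b hb
      have h1 := (hq b hb).1
      conv_lhs => rw [← Nat.mul_div_cancel' h1]
      rw [Nat.factorization_mul (hq b hb).2.1.ne_zero (htpos b hb).ne']
      rfl
    have hw20 : ∀ b ∈ B, (w b).2 ≠ 0 := by
      intro b hb h0
      have := (hw1' b hb).2.2
      rw [h0] at this
      omega
    have e3 : V SRC p = ∑ b ∈ B, ((s b (w b).1).factorization p + (w b).2.factorization p) := by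
      unfold V
      rw [hSRC, sum_image]
      · apply sum_congr rfl
        intro b hb
        simp only [hsrc]
        rw [Nat.factorization_mul (hs b hb _ (hw1' b hb).1.1).ne_zero (hw20 b hb)]
        rfl
      · intro b hb b' hb' heq
        by_contra hne
        exact (hw2 b hb b' hb' hne).1 heq
    have e4 : V IMG p = ∑ b ∈ B, ((b / qq b).factorization p + (w b).2.factorization p) := by
      unfold V
      rw [hIMG, sum_image]
      · apply sum_congr rfl
        intro b hb
        simp only [himg]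
        rw [Nat.factorization_mul (htpos b hb).ne' (hw20 b hb)]
        rfl
      · intro b hb b' hb' heq
        by_contra hne
        exact (hw2 b hb b' hb' hne).2 heq
    rw [sum_add_distrib] at e2 e3 e4 ⊢
    have e5 : ∑ x ∈ B, ((fun b => s b (w b).1) x).factorization p =
      ∑ x ∈ B, (s x (w x).1).factorization p := rfl
    omega

/-- Adding elements `q s`, `s` 3-smooth, for the primes `q` with a deficit. -/
lemma add_deficit (D : Finset ℕ) (Q : Finset ℕ) (hQ : ∀ q ∈ Q, q.Prime ∧ 5 ≤ q)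
    (dq : ℕ → ℕ) (S : ℕ → Finset ℕ) (hS : ∀ q ∈ Q, ∀ s ∈ S q, T3 s) (hcard : ∀ q ∈ Q, (S q).card = dq q)
    (Z : Finset ℕ) (hZ : ∀ q ∈ Q, ∀ s ∈ S q, q * s ∈ Z) (hDZ : Disjoint D Z) :
    ∃ D' : Finset ℕ, D ⊆ D' ∧ D' ⊆ D ∪ Z ∧
      ∀ p, V D' p = V D p + ∑ q ∈ Q, (dq q * q.factorization p + V (S q) p) := by
  classical
  have hdis : (Q : Set ℕ).PairwiseDisjoint (fun q => (S q).image (q * ·)) := by
    intro q hq q' hq' hne
    simp only [Function.onFun]
    rw [disjoint_left]
    intro z hz hz'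
    rw [mem_image] at hz hz'
    obtain ⟨s, hs, rfl⟩ := hz
    obtain ⟨s', hs', heq⟩ := hz'
    have h1 : (q * s).factorization q = 1 := by
      rw [Nat.factorization_mul (hQ q hq).1.ne_zero (hS q hq s hs).ne_zero]
      simp only [Finsupp.coe_add, Pi.add_apply]
      rw [(hQ q hq).1.factorization_self, (hS q hq s hs).fac_other
        (by have := (hQ q hq).2; omega) (by have := (hQ q hq).2; omega)]
    have h2 : (q' * s').factorization q = 0 := by
      rw [Nat.factorization_mul (hQ q' hq').1.ne_zero (hS q' hq' s' hs').ne_zero]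
      simp only [Finsupp.coe_add, Pi.add_apply]
      rw [(hS q' hq' s' hs').fac_other
        (by have := (hQ q hq).2; omega) (by have := (hQ q hq).2; omega),
        Nat.factorization_eq_zero_of_not_dvd]
      intro hdvd
      exact hne ((Nat.prime_dvd_prime_iff_eq (hQ q hq).1 (hQ q' hq').1).1 hdvd)
    rw [← heq, h2] at h1
    omega
  set A := Q.biUnion (fun q => (S q).image (q * ·)) with hA
  have hAZ : A ⊆ Z := by
    intro z hz
    rw [hA, mem_biUnion] at hz
    obtain ⟨q, hq, hz⟩ := hz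
    rw [mem_image] at hz
    obtain ⟨s, hs, rfl⟩ := hz
    exact hZ q hq s hs
  have hDA : Disjoint D A := disjoint_of_subset_right hAZ hDZ
  refine ⟨D ∪ A, subset_union_left, union_subset_union_right hAZ, fun p => ?_⟩
  rw [V_union hDA]
  congr 1
  unfold V
  rw [hA, sum_biUnion hdis]
  apply sum_congr rfl
  intro q hq
  have := V_image (hQ q hq).1.ne_zero (T := S q) (fun v hv => (hS q hq v hv).ne_zero) p
  unfold V at this
  rw [this, hcard q hq]

end H20.EGS
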