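import Pool.Agent.H20.EGS.PhaseL
import Pool.Agent.H20.EGS.PhaseD

/-!
# Phase L: correcting the exponents of the primes `Y < q ≤ n/K`
-/

open Finset

namespace H20.EGS

/-- zone for the added elements -/
def ZA (n : ℕ) : Finset ℕ := Ioc (1750 * n / 1000) (1780 * n / 1000)
/-- zone for the reinserted cofactors -/
def ZB (n : ℕ) : Finset ℕ := Ioc (1809 * n / 1000) (1844 * n / 1000)

/-- bounds for all elements of the configuration after phase D -/
lemma Conf.range {n K hsp Bd : ℕ} {D D2 : Finset ℕ} (h : Conf n K hsp Bd D)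
    (h2 : D2 ⊆ D ∪ ZD n) {b : ℕ} (hb : b ∈ D2) : n < b ∧ b ≤ 2 * n := by
  have hn := h.hn
  have := h2 hb
  rw [mem_union] at this
  rcases this with h3 | h3
  · rcases h.pos b h3 with ⟨c, hc, h4, h5⟩ | ⟨h4, h5⟩
    · have hcb := Sp_bounds hc
      have e1 : 1005 * n ≤ c * n := Nat.mul_le_mul_right n hcb.1
      have e2 : c * n ≤ 1990 * n := Nat.mul_le_mul_right n hcb.2
      omega
    · omega
  · unfold ZD at h3
    rw [mem_Ioc] at h3
    omega

/-- Selection of the elements to be removed. -/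
lemma select {n K hsp Bd Y C : ℕ} {D D2 : Finset ℕ} (h : Conf n K hsp Bd D)
    (hD2 : D2 ⊆ D ∪ ZD n)
    (hD2' : D \ D2 ⊆ Ioc (1005 * n / 1000) (1005 * n / 1000 + hsp) ∪
        Ioc (1600 * n / 1000) (1600 * n / 1000 + hsp) ∪ ZD n)
    (hY2 : 2 ≤ Y) (hKY : K * Y ≤ n)
    (hYC : C * (4 * n) ≤ hsp * Y) {q N : ℕ} (hq : q.Prime) (hqY : Y < q) (hqn : K * q ≤ n)
    (hNC : N ≤ C) (hNV : N ≤ V D2 q) :
    ∃ B : Finset ℕ, B ⊆ D2 ∧ B.card = N ∧ ∀ b ∈ B, q ∣ b ∧
      (q * q ≤ 2 * n → ∀ p : ℕ, p.Prime → p ∣ b → Y < p → p = q) := by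
  by_cases hqq : q * q ≤ 2 * n
  · -- special elements `q 2^k v`
    have hn := h.hn
    -- q * Y ≤ 2 n
    have hqY2 : q * Y ≤ 2 * n := by
      nlinarith
    -- minimal k with 2 n ≤ q 2^k Y
    have hex : ∃ k, 2 * n ≤ q * 2 ^ k * Y := by
      refine ⟨2 * n, ?_⟩
      have h1 : 2 * n < 2 ^ (2 * n) := Nat.lt_two_pow_self
      have h2 : 1 * 2 ^ (2 * n) ≤ q * 2 ^ (2 * n) := Nat.mul_le_mul_right _ hq.pos
      have h3 : q * 2 ^ (2 * n) * 1 ≤ q * 2 ^ (2 * n) * Y := Nat.mul_le_mul_left _ (by omega)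
      omega
    classical
    set k := Nat.find hex with hk
    have hk1 : 2 * n ≤ q * 2 ^ k * Y := Nat.find_spec hex
    have hk2 : q * 2 ^ k * Y ≤ 4 * n := by
      rcases Nat.eq_zero_or_pos k with h0 | hpos
      · rw [h0]; simp; omega
      · have h3 := Nat.find_min hex (show k - 1 < k by omega)
        push Not at h3
        have e : 2 ^ k = 2 ^ (k - 1) * 2 := by rw [← pow_succ]; congr 1; omega
        rw [e]
        have e2 : q * (2 ^ (k - 1) * 2) * Y = 2 * (q * 2 ^ (k - 1) * Y) := by ring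
        omega
    set A := q * 2 ^ k with hA
    have hApos : 0 < A := by
      have := hq.pos
      positivity
    -- C ≤ hsp / A
    have hcapA : C ≤ hsp / A := by
      rw [Nat.le_div_iff_mul_le hApos]
      have h1 : C * A * Y ≤ hsp * Y := by
        calc C * A * Y = C * (A * Y) := by ring
          _ ≤ C * (4 * n) := Nat.mul_le_mul_left C hk2
          _ ≤ hsp * Y := hYC
      exact Nat.le_of_mul_le_mul_right h1 (by omega)
    set y := 1740 * n / 1000 with hy
    set I := Ioc (y / A) ((y + hsp) / A) with hI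
    have hcardI : N ≤ I.card := by
      rw [hI, Nat.card_Ioc]
      have h1 : y / A + hsp / A ≤ (y + hsp) / A := Nat.div_add_div_le_add_div
      have h2 : hsp / A ≤ (y + hsp) / A - y / A := Nat.le_sub_of_add_le (by rw [add_comm]; exact h1)
      exact (hNC.trans hcapA).trans h2
    obtain ⟨T, hT, hTc⟩ := exists_subset_card_eq hcardI
    have hinj : Function.Injective (A * · : ℕ → ℕ) := fun x y hxy =>
      Nat.eq_of_mul_eq_mul_left hApos hxy
    have hTmem : ∀ v ∈ T, y < A * v ∧ A * v ≤ y + hsp := by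
      intro v hv
      have := hT hv
      rw [hI, mem_Ioc] at this
      constructor
      · rw [mul_comm]; exact (Nat.div_lt_iff_lt_mul hApos).1 this.1
      · rw [mul_comm]; exact (Nat.le_div_iff_mul_le hApos).1 this.2
    have hvY : ∀ v ∈ T, 0 < v ∧ v ≤ Y := by
      intro v hv
      have h1 := hTmem v hv
      constructor
      · rcases Nat.eq_zero_or_pos v with h0 | h0
        · subst h0; omega
        · exact h0
      · by_contra hcon
        push Not at hcon
        have : A * (Y + 1) ≤ A * v := Nat.mul_le_mul_left A hcon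
        have e : A * (Y + 1) = A * Y + A := by ring
        omega
    have hprime : ∀ v ∈ T, ∀ p : ℕ, p.Prime → p ∣ A * v → p = q ∨ p ≤ Y := by
      intro v hv p hp hpd
      rcases (hp.dvd_mul).1 hpd with h1 | h1
      · rw [hA] at h1
        rcases (hp.dvd_mul).1 h1 with h2 | h2
        · left; exact (Nat.prime_dvd_prime_iff_eq hp hq).1 h2
        · right
          have := (Nat.prime_dvd_prime_iff_eq hp Nat.prime_two).1 (hp.dvd_of_dvd_pow h2)
          omega
      · right
        exact (Nat.le_of_dvd (hvY v hv).1 h1).trans (hvY v hv).2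
    refine ⟨T.image (A * ·), ?_, ?_, ?_⟩
    · intro b hb
      rw [mem_image] at hb
      obtain ⟨v, hv, rfl⟩ := hb
      have h1 := hTmem v hv
      have hbD : A * v ∈ D := by
        apply h.full 1740 (by decide) _ h1.1 h1.2
        intro p hp hpd
        rcases hprime v hv p hp hpd with rfl | h2
        · exact hqn
        · exact (Nat.mul_le_mul_left K h2).trans hKY
      by_contra hcon
      have h3 := hD2' (mem_sdiff.2 ⟨hbD, hcon⟩)
      unfold ZD at h3
      rw [mem_union, mem_union, mem_Ioc, mem_Ioc, mem_Ioc] at h3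
      omega
    · rw [card_image_of_injective _ hinj, hTc]
    · intro b hb
      rw [mem_image] at hb
      obtain ⟨v, hv, rfl⟩ := hb
      refine ⟨?_, fun _ p hp hpd hYp => ?_⟩
      · rw [hA, mul_assoc]; exact dvd_mul_right q _
      · rcases hprime v hv p hp hpd with h1 | h1
        · exact h1
        · omega
  · -- all multiples
    have hcount : V D2 q = (D2.filter fun x => q ∣ x).card := by
      rw [V_eq_sum hq (b := 2)]
      · simp
      · intro x hx
        have := h.range hD2 hx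
        omega
      · intro x hx
        have := h.range hD2 hx
        rw [pow_two]; omega
    rw [hcount] at hNV
    obtain ⟨B, hB, hBc⟩ := exists_subset_card_eq hNV
    refine ⟨B, hB.trans (filter_subset _ _), hBc, fun b hb => ⟨(mem_filter.1 (hB hb)).2, fun h => absurd h hqq⟩⟩

/-- the primes treated in phase L -/
def QL (n K Y : ℕ) : Finset ℕ := (Ioc Y (n / K)).filter Nat.Prime

lemma mem_QL {n K Y q : ℕ} (hK : 0 < K) : q ∈ QL n K Y ↔ (Y < q ∧ K * q ≤ n) ∧ q.Prime := by
  unfold QL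
  rw [mem_filter, mem_Ioc, Nat.le_div_iff_mul_le hK, mul_comm q K]

/-- `v_p(s) ≤ log₂ s` for 3-smooth `s`. -/
lemma T3.fac_le' {s : ℕ} (hs : T3 s) (p : ℕ) : s.factorization p ≤ Nat.log 2 s := by
  by_cases h2 : p = 2
  · subst h2; have := hs.fac_le; omega
  · by_cases h3 : p = 3
    · subst h3; have := hs.fac_le; omega
    · rw [hs.fac_other h2 h3]; exact Nat.zero_le _

/-- Phase L. -/
lemma phaseL {n K hsp Bd Y C M₀ : ℕ} {D D2 : Finset ℕ} (h : Conf n K hsp Bd D)
    (hD2 : D2 ⊆ D ∪ ZD n)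
    (hD2' : D \ D2 ⊆ Ioc (1005 * n / 1000) (1005 * n / 1000 + hsp) ∪
        Ioc (1600 * n / 1000) (1600 * n / 1000 + hsp) ∪ ZD n)
    (hY2 : 5 ≤ Y) (hKY : K * Y ≤ n)
    (hYC : C * (4 * n) ≤ hsp * Y) (hM0 : 0 < M₀) (hMh : 200 * M₀ * hsp ≤ n)
    (d : ℕ → ℤ) (hd : ∀ q ∈ QL n K Y, (d q).natAbs ≤ C)
    (hdV : ∀ q ∈ QL n K Y, 0 ≤ (V D2 q : ℤ) + d q)
    (hT1 : ∀ t : ℕ, K ≤ t → ∃ s : ℕ → ℕ, (∀ k < M₀, T3 (s k) ∧ 108 * t ≤ 100 * s k ∧
      10 * s k ≤ 11 * t) ∧ ∀ k k', k < k' → k' < M₀ →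
        s k * (1000 * M₀ + 9) ≤ s k' * (1000 * M₀))
    (hT2 : ∀ q ∈ QL n K Y, ∃ S : Finset ℕ, C ≤ S.card ∧ ∀ s ∈ S, T3 s ∧ q * s ∈ ZA n)
    (hnum : ∀ t : ℕ, K ≤ t → t * Y ≤ 2 * n → 3 * (C * Nat.primeCounting (2 * n / t)) +
      (if t < 2 * K then Bd else 0) ≤ M₀ * (hsp / (6 * (11 * t / 10)))) :
    ∃ D4 : Finset ℕ, D4 ⊆ D2 ∪ ZA n ∪ ZB n ∧
      (D2 \ D4).card ≤ 2 * ∑ q ∈ QL n K Y, (d q).natAbs ∧
      ∃ E : ℕ → ℤ, (∀ p, p ≠ 2 → p ≠ 3 → E p = 0) ∧
        (∀ p, |E p| ≤ ∑ q ∈ QL n K Y, ((d q).natAbs * Nat.log 2 (4 * n / q) : ℕ)) ∧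
        ∀ p, (V D4 p : ℤ) = V D2 p + ∑ q ∈ QL n K Y, d q * q.factorization p + E p := by
  classical
  have hn := h.hn
  have hK := h.hK
  have hK0 : 0 < K := by omega
  set Q := QL n K Y with hQ
  have hQm : ∀ q ∈ Q, (Y < q ∧ K * q ≤ n) ∧ q.Prime := fun q hq => (mem_QL hK0).1 hq
  -- selection
  have hsel : ∀ q ∈ Q, ∃ B : Finset ℕ, B ⊆ D2 ∧ B.card = (-d q).toNat ∧ ∀ b ∈ B, q ∣ b ∧
      (q * q ≤ 2 * n → ∀ p : ℕ, p.Prime → p ∣ b → Y < p → p = q) := by
    intro q hq
    obtain ⟨⟨h1, h2⟩, h3⟩ := hQm q hq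
    have h4 := hd q hq
    have h5 := hdV q hq
    exact select h hD2 hD2' (by omega) hKY hYC h3 h1 h2 (by omega) (by omega)
  choose! Bq hB1 hB2 hB3 using hsel
  have hdisj : ∀ q ∈ Q, ∀ q' ∈ Q, ∀ b, b ∈ Bq q → b ∈ Bq q' → q = q' := by
    intro q hq q' hq' b hb hb'
    by_contra hne
    obtain ⟨⟨h1, h2⟩, h3⟩ := hQm q hq
    obtain ⟨⟨h1', h2'⟩, h3'⟩ := hQm q' hq'
    obtain ⟨h4, h5⟩ := hB3 q hq b hb
    obtain ⟨h4', h5'⟩ := hB3 q' hq' b hb'
    by_cases hqq : q * q ≤ 2 * n
    · exact hne (h5 hqq q' h3' h4' h1').symm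
    · by_cases hqq' : q' * q' ≤ 2 * n
      · exact hne (h5' hqq' q h3 h4 h1)
      · have hcop : Nat.Coprime q q' := (Nat.coprime_primes h3 h3').2 hne
        have h6 : q * q' ∣ b := hcop.mul_dvd_of_dvd_of_dvd h4 h4'
        have hbr := h.range hD2 (hB1 q hq hb)
        have h7 : q * q' ≤ b := Nat.le_of_dvd (by omega) h6
        push Not at hqq hqq'
        rcases le_total q q' with hle | hle
        · have : q * q ≤ q * q' := Nat.mul_le_mul_left q hle
          omega
        · have : q' * q' ≤ q * q' := Nat.mul_le_mul_right q' hle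
          omega
  set B := Q.biUnion Bq with hB
  have hpd : (Q : Set ℕ).PairwiseDisjoint Bq := by
    intro q hq q' hq' hne
    simp only [Function.onFun]
    rw [disjoint_left]
    intro b hb hb'
    exact hne (hdisj q hq q' hq' b hb hb')
  set qq : ℕ → ℕ := fun b => if hb : ∃ q ∈ Q, b ∈ Bq q then hb.choose else 0 with hqq
  have hqq1 : ∀ b ∈ B, qq b ∈ Q ∧ b ∈ Bq (qq b) := by
    intro b hb
    rw [hB, mem_biUnion] at hb
    rw [hqq]
    simp only [dif_pos hb]
    exact hb.choose_spec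
  have hqq2 : ∀ q ∈ Q, ∀ b ∈ Bq q, qq b = q := by
    intro q hq b hb
    have hbB : b ∈ B := by rw [hB, mem_biUnion]; exact ⟨q, hq, hb⟩
    obtain ⟨h1, h2⟩ := hqq1 b hbB
    exact hdisj _ h1 q hq b h2 hb
  have hBD : B ⊆ D2 := by
    intro b hb
    obtain ⟨h1, h2⟩ := hqq1 b hb
    exact hB1 _ h1 h2
  have hBcard : B.card ≤ ∑ q ∈ Q, (d q).natAbs := by
    rw [hB]
    refine card_biUnion_le.trans (sum_le_sum fun q hq => ?_)
    rw [hB2 q hq]; omega
  -- facts about t = b / qq b
  have hbt : ∀ b ∈ B, qq b * (b / qq b) = b ∧ K < b / qq b ∧ (b / qq b) * Y ≤ 2 * n ∧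
      (b / qq b) ≤ 2 * n / qq b ∧ 5 ≤ qq b := by
    intro b hb
    obtain ⟨h1, h2⟩ := hqq1 b hb
    obtain ⟨⟨h3, h4⟩, h5⟩ := hQm _ h1
    have h6 := (hB3 _ h1 b h2).1
    have hbr := h.range hD2 (hBD hb)
    have e := Nat.mul_div_cancel' h6
    have hq0 : 0 < qq b := h5.pos
    refine ⟨e, ?_, ?_, ?_, by omega⟩
    · by_contra hcon
      push Not at hcon
      have : qq b * (b / qq b) ≤ qq b * K := Nat.mul_le_mul_left _ hcon
      have e2 : qq b * K = K * qq b := mul_comm _ _
      omega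
    · have : (b / qq b) * Y ≤ (b / qq b) * qq b := Nat.mul_le_mul_left _ h3.le
      have e2 : (b / qq b) * qq b = qq b * (b / qq b) := mul_comm _ _
      omega
    · exact Nat.div_le_div_right hbr.2
  -- the 3-smooth numbers
  have hT1' : ∀ b ∈ B, ∃ s : ℕ → ℕ, (∀ k < M₀, T3 (s k) ∧ 108 * (b / qq b) ≤ 100 * s k ∧
      10 * s k ≤ 11 * (b / qq b)) ∧ ∀ k k', k < k' → k' < M₀ →
        s k * (1000 * M₀ + 9) ≤ s k' * (1000 * M₀) :=
    fun b hb => hT1 _ (hbt b hb).2.1.le
  choose! s hs1 hs2 using hT1'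
  -- D2 avoids ZB and ZA
  have hD2ZB : Disjoint D2 (ZB n) := by
    rw [disjoint_left]
    intro b hb hbZ
    unfold ZB at hbZ
    rw [mem_Ioc] at hbZ
    have := hD2 hb
    rw [mem_union] at this
    rcases this with h3 | h3
    · rcases h.pos b h3 with ⟨c, hc, h4, h5⟩ | ⟨h4, h5⟩
      · rcases Sp_away hc with h6 | h6
        · have : c * n ≤ 1740 * n := Nat.mul_le_mul_right n h6
          omega
        · have : 1940 * n ≤ c * n := Nat.mul_le_mul_right n h6
          omega
      · omega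
    · unfold ZD at h3
      rw [mem_Ioc] at h3
      omega
  have hD2ZA : Disjoint D2 (ZA n) := by
    rw [disjoint_left]
    intro b hb hbZ
    unfold ZA at hbZ
    rw [mem_Ioc] at hbZ
    have := hD2 hb
    rw [mem_union] at this
    rcases this with h3 | h3
    · rcases h.pos b h3 with ⟨c, hc, h4, h5⟩ | ⟨h4, h5⟩
      · rcases Sp_away hc with h6 | h6
        · have : c * n ≤ 1740 * n := Nat.mul_le_mul_right n h6
          omega
        · have : 1940 * n ≤ c * n := Nat.mul_le_mul_right n h6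
          omega
      · omega
    · unfold ZD at h3
      rw [mem_Ioc] at h3
      omega
  -- reinsertion
  obtain ⟨D3, c1, c2, c3, σ, c4, c5⟩ := reinsert D2 B hBD (fun b hb => by
      have := h.range hD2 hb; omega) qq
    (fun b hb => ⟨(hB3 _ (hqq1 b hb).1 b (hqq1 b hb).2).1, (hQm _ (hqq1 b hb).1).2,
      (hbt b hb).2.2.2.2⟩)
    M₀ s (fun b hb k hk => (hs1 b hb k hk).1) (1990 * n / 1000) hsp (ZB n)
    (by
      intro b hb k k' hkk hk'
      have h1 := hs2 b hb k k' hkk hk'
      have hy : 1000 * M₀ * hsp ≤ 9 * (1990 * n / 1000) := by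
        have e : 1000 * M₀ * hsp = 5 * (200 * M₀ * hsp) := by ring
        omega
      have h2 : (1990 * n / 1000 + hsp) * (1000 * M₀) ≤ 1990 * n / 1000 * (1000 * M₀ + 9) := by
        have e1 : (1990 * n / 1000 + hsp) * (1000 * M₀) =
          1990 * n / 1000 * (1000 * M₀) + 1000 * M₀ * hsp := by ring
        have e2 : 1990 * n / 1000 * (1000 * M₀ + 9) =
          1990 * n / 1000 * (1000 * M₀) + 9 * (1990 * n / 1000) := by ring
        omega
      have h3 : (1990 * n / 1000 + hsp) * s b k * (1000 * M₀) ≤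
          1990 * n / 1000 * s b k' * (1000 * M₀) := by
        calc (1990 * n / 1000 + hsp) * s b k * (1000 * M₀)
            = ((1990 * n / 1000 + hsp) * (1000 * M₀)) * s b k := by ring
          _ ≤ (1990 * n / 1000 * (1000 * M₀ + 9)) * s b k := Nat.mul_le_mul_right _ h2
          _ = 1990 * n / 1000 * (s b k * (1000 * M₀ + 9)) := by ring
          _ ≤ 1990 * n / 1000 * (s b k' * (1000 * M₀)) := Nat.mul_le_mul_left _ h1
          _ = _ := by ring
      exact Nat.le_of_mul_le_mul_right h3 (by omega))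
    (by
      intro b hb k hk
      have h1 := (hs1 b hb k hk).2.2
      obtain ⟨g1, g2, g3, g4, g5⟩ := hbt b hb
      have : (b / qq b) * 5 ≤ (b / qq b) * Y := Nat.mul_le_mul_left _ hY2
      omega)
    (by
      intro b hb k hk w hw
      rw [mem_Ioc] at hw
      unfold ZB
      rw [mem_Ioc]
      have h1 := (hs1 b hb k hk).2.1
      have h2 := (hs1 b hb k hk).2.2
      have h3 : 108 * (b / qq b) * w ≤ 100 * s b k * w := Nat.mul_le_mul_right w h1
      have h4 : 10 * s b k * w ≤ 11 * (b / qq b) * w := Nat.mul_le_mul_right w h2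
      have e1 : 108 * (b / qq b) * w = 108 * ((b / qq b) * w) := by ring
      have e2 : 100 * s b k * w = 100 * (s b k * w) := by ring
      have e3 : 10 * s b k * w = 10 * (s b k * w) := by ring
      have e4 : 11 * (b / qq b) * w = 11 * ((b / qq b) * w) := by ring
      rw [e1, e2] at h3
      rw [e3, e4] at h4
      constructor <;> omega)
    hD2ZB
    (by
      intro b hb k hk
      have h1 := (hs1 b hb k hk).2.1
      have := (hbt b hb).2.1
      omega)
    (fun b => 11 * (b / qq b) / 10)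
    (by
      intro b hb k hk
      have h1 := (hs1 b hb k hk).2.2
      omega)
    (fun b => if b / qq b < 2 * K then Bd else 0)
    (by
      intro b hb
      have hsub : ((Ioc (1990 * n / 1000) (1990 * n / 1000 + hsp)).filter
          fun x => x ∉ D2 ∧ ∃ k < M₀, s b k ∣ x) ⊆
          if b / qq b < 2 * K then Bad n K (1990 * n / 1000) hsp else ∅ := by
        intro x hx
        rw [mem_filter, mem_Ioc] at hx
        obtain ⟨⟨hx1, hx2⟩, hx3, k, hk, hkx⟩ := hx
        have hxD : x ∉ D := by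
          intro hxD
          have h3 := hD2' (mem_sdiff.2 ⟨hxD, hx3⟩)
          unfold ZD at h3
          rw [mem_union, mem_union, mem_Ioc, mem_Ioc, mem_Ioc] at h3
          omega
        have hbad : ∃ p : ℕ, p.Prime ∧ p ∣ x ∧ n < K * p := by
          have h3 : ¬ Sm n K x := fun hsm => hxD (h.full 1990 (by decide) x hx1 hx2 hsm)
          unfold Sm at h3
          push Not at h3
          exact h3
        obtain ⟨p, hp, hpx, hnp⟩ := hbad
        have hp5 : 5 ≤ p := by
          by_contra hcon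
          push Not at hcon
          have : K * p ≤ K * 4 := Nat.mul_le_mul_left K (by omega)
          omega
        have hcop := (hs1 b hb k hk).1.coprime hp hp5
        have h5 := small_of_bad (n := n) (K := K) (b := x) (by omega) (by omega) hnp
          (hcop.mul_dvd_of_dvd_of_dvd hkx hpx)
        have h6 := (hs1 b hb k hk).2.1
        rw [if_pos (by omega), mem_Bad]
        exact ⟨⟨hx1, hx2⟩, p, hp, hpx, hnp⟩
      refine (card_le_card hsub).trans ?_
      split_ifs
      · exact h.bad 1990 (by decide)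
      · simp)
    (by
      intro b hb
      obtain ⟨g1, g2, g3, g4, g5⟩ := hbt b hb
      refine le_trans ?_ (hnum (b / qq b) g2.le g3)
      apply Nat.add_le_add_right
      apply Nat.mul_le_mul_left
      have htpos : 0 < b / qq b := by omega
      -- count
      have hsub : B.filter (fun b' => b / qq b ≤ b' / qq b') ⊆
          (Nat.primesLE (2 * n / (b / qq b)) ∩ Q).biUnion Bq := by
        intro b' hb'
        rw [mem_filter] at hb'
        obtain ⟨h1, h2⟩ := hb'
        obtain ⟨h3, h4⟩ := hqq1 b' h1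
        rw [mem_biUnion]
        refine ⟨qq b', ?_, h4⟩
        rw [mem_inter, Nat.mem_primesLE]
        refine ⟨⟨?_, (hQm _ h3).2⟩, h3⟩
        rw [Nat.le_div_iff_mul_le htpos]
        have h5 : qq b' * (b / qq b) ≤ qq b' * (b' / qq b') := Nat.mul_le_mul_left _ h2
        have h6 := (hbt b' h1).1
        have h7 := h.range hD2 (hBD h1)
        omega
      refine (card_le_card hsub).trans (card_biUnion_le.trans ?_)
      have h8 : ∀ q ∈ Nat.primesLE (2 * n / (b / qq b)) ∩ Q, (Bq q).card ≤ C := by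
        intro q hq
        rw [mem_inter] at hq
        rw [hB2 q hq.2]
        have := hd q hq.2
        omega
      refine (sum_le_card_nsmul _ _ C h8).trans ?_
      rw [smul_eq_mul, mul_comm]
      apply Nat.mul_le_mul_left
      rw [← Nat.primesLE_card_eq_primeCounting]
      exact card_le_card inter_subset_left)
  -- adding
  have hT2' : ∀ q ∈ Q, ∃ S : Finset ℕ, S.card = (d q).toNat ∧ ∀ s ∈ S, T3 s ∧ q * s ∈ ZA n := by
    intro q hq
    obtain ⟨S, hS1, hS2⟩ := hT2 q hq
    have := hd q hq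
    obtain ⟨S', hS', hS'c⟩ := exists_subset_card_eq (show (d q).toNat ≤ S.card by omega)
    exact ⟨S', hS'c, fun s hs => hS2 s (hS' hs)⟩
  choose! S hS1 hS2 using hT2'
  have hD3ZA : Disjoint D3 (ZA n) := by
    rw [disjoint_left] at hD2ZA ⊢
    intro b hb hbZ
    have := c1 hb
    rw [mem_union] at this
    rcases this with h3 | h3
    · exact hD2ZA h3 hbZ
    · unfold ZB at h3
      unfold ZA at hbZ
      rw [mem_Ioc] at h3 hbZ
      omega
  obtain ⟨D4, e1, e2, e3⟩ := add_deficit D3 Q (fun q hq => by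
      obtain ⟨⟨h1, h2⟩, h3⟩ := hQm q hq
      exact ⟨h3, by omega⟩) (fun q => (d q).toNat) S
    (fun q hq s hs => (hS2 q hq s hs).1) hS1 (ZA n) (fun q hq s hs => (hS2 q hq s hs).2) hD3ZA
  refine ⟨D4, ?_, ?_, fun p => ∑ q ∈ Q, ((V (S q) p : ℤ) - ∑ b ∈ Bq q, ((σ b).factorization p : ℤ)),
    ?_, ?_, ?_⟩
  · intro b hb
    have := e2 hb
    rw [mem_union] at this
    rw [mem_union, mem_union]
    rcases this with h3 | h3
    · have := c1 h3
      rw [mem_union] at this
      tauto
    · tauto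
  · have h1 : D2 \ D4 ⊆ D2 \ D3 := sdiff_subset_sdiff le_rfl e1
    have h2 := card_le_card h1
    omega
  · intro p hp2 hp3
    apply sum_eq_zero
    intro q hq
    have h1 : V (S q) p = 0 := by
      unfold V
      apply sum_eq_zero
      intro s hs
      exact (hS2 q hq s hs).1.fac_other hp2 hp3
    have h2 : ∑ b ∈ Bq q, ((σ b).factorization p : ℤ) = 0 := by
      apply sum_eq_zero
      intro b hb
      have hbB : b ∈ B := by rw [hB, mem_biUnion]; exact ⟨q, hq, hb⟩
      rw [(c4 b hbB).1.fac_other hp2 hp3]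
      simp
    rw [h1, h2]
    simp
  · intro p
    refine (abs_sum_le_sum_abs _ _).trans ?_
    rw [Nat.cast_sum]
    apply sum_le_sum
    intro q hq
    obtain ⟨⟨g1, g2⟩, g3⟩ := hQm q hq
    have h1 : V (S q) p ≤ (d q).toNat * Nat.log 2 (4 * n / q) := by
      unfold V
      rw [← hS1 q hq, ← smul_eq_mul, ← sum_const]
      apply sum_le_sum
      intro s hs
      obtain ⟨h1, h2⟩ := hS2 q hq s hs
      refine (h1.fac_le' p).trans (Nat.log_mono_right ?_)
      rw [Nat.le_div_iff_mul_le g3.pos]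
      unfold ZA at h2
      rw [mem_Ioc] at h2
      rw [mul_comm]
      omega
    have h2 : ∑ b ∈ Bq q, (σ b).factorization p ≤ (-d q).toNat * Nat.log 2 (4 * n / q) := by
      rw [← hB2 q hq, ← smul_eq_mul, ← sum_const]
      apply sum_le_sum
      intro b hb
      have hbB : b ∈ B := by rw [hB, mem_biUnion]; exact ⟨q, hq, hb⟩
      obtain ⟨h1, h2⟩ := c4 b hbB
      refine (h1.fac_le' p).trans (Nat.log_mono_right (h2.trans ?_))
      rw [hqq2 q hq b hb]
      rw [Nat.le_div_iff_mul_le g3.pos]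
      have h3 := (hbt b hbB).1
      rw [hqq2 q hq b hb] at h3
      have h4 := h.range hD2 (hBD hbB)
      have h5 : 11 * (b / q) / 10 ≤ 2 * (b / q) := by omega
      have h6 : 11 * (b / q) / 10 * q ≤ 2 * (b / q) * q := Nat.mul_le_mul_right q h5
      have h7 : 2 * (b / q) * q = 2 * (q * (b / q)) := by ring
      omega
    have h3 : (0 : ℤ) ≤ V (S q) p := Nat.cast_nonneg _
    have h4 : (0 : ℤ) ≤ ∑ b ∈ Bq q, ((σ b).factorization p : ℤ) :=
      sum_nonneg fun b _ => Nat.cast_nonneg _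
    have h1' : (V (S q) p : ℤ) ≤ ((d q).toNat * Nat.log 2 (4 * n / q) : ℕ) := by exact_mod_cast h1
    have h2' : ∑ b ∈ Bq q, ((σ b).factorization p : ℤ) ≤
      ((-d q).toNat * Nat.log 2 (4 * n / q) : ℕ) := by exact_mod_cast h2
    have h5 : (((d q).toNat * Nat.log 2 (4 * n / q) : ℕ) : ℤ) ≤
        (((d q).natAbs * Nat.log 2 (4 * n / q) : ℕ) : ℤ) := by
      exact_mod_cast Nat.mul_le_mul_right _ (by omega)
    have h6 : (((-d q).toNat * Nat.log 2 (4 * n / q) : ℕ) : ℤ) ≤
        (((d q).natAbs * Nat.log 2 (4 * n / q) : ℕ) : ℤ) := by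
      exact_mod_cast Nat.mul_le_mul_right _ (by omega)
    rw [abs_le]
    constructor <;> linarith
  · intro p
    have h1 := c5 p
    have h2 := e3 p
    have h3 : ∑ b ∈ B, ((qq b).factorization p + (σ b).factorization p) =
        ∑ q ∈ Q, ((-d q).toNat * q.factorization p + ∑ b ∈ Bq q, (σ b).factorization p) := by
      rw [hB, sum_biUnion hpd]
      apply sum_congr rfl
      intro q hq
      rw [sum_add_distrib]
      congr 1
      rw [sum_congr rfl (g := fun _ => q.factorization p), sum_const, smul_eq_mul, hB2 q hq]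
      intro b hb
      rw [hqq2 q hq b hb]
    rw [h3] at h1
    have h1' : (V D3 p : ℤ) + ∑ q ∈ Q, (((-d q).toNat : ℤ) * q.factorization p +
      ∑ b ∈ Bq q, ((σ b).factorization p : ℤ)) = V D2 p := by exact_mod_cast h1
    have h2' : (V D4 p : ℤ) = V D3 p + ∑ q ∈ Q, (((d q).toNat : ℤ) * q.factorization p +
      V (S q) p) := by exact_mod_cast h2
    have h4 : ∑ q ∈ Q, d q * (q.factorization p : ℤ) = ∑ q ∈ Q, (((d q).toNat : ℤ) *
        q.factorization p - ((-d q).toNat : ℤ) * q.factorization p) := by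
      apply sum_congr rfl
      intro q _
      have : d q = ((d q).toNat : ℤ) - ((-d q).toNat : ℤ) := by omega
      conv_lhs => rw [this]
      ring
    rw [h4]
    rw [sum_add_distrib] at h1' h2'
    beta_reduce
    rw [sum_sub_distrib, sum_sub_distrib]
    linarith

end H20.EGS
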