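import Mathlib

/-!
# Exchanging cofactors in a finite set of integers
-/

open Finset

namespace H20.EGS

/-- the exponent of `q` in the product of the elements of `D` -/
def V (D : Finset ℕ) (q : ℕ) : ℕ := ∑ b ∈ D, b.factorization q

lemma V_prod {D : Finset ℕ} (hD : ∀ b ∈ D, b ≠ 0) (q : ℕ) :
    (∏ b ∈ D, b).factorization q = V D q := by
  unfold V
  rw [Nat.factorization_prod hD, Finsupp.coe_finsetSum, Finset.sum_apply]

lemma V_union {D E : Finset ℕ} (h : Disjoint D E) (q : ℕ) : V (D ∪ E) q = V D q + V E q :=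
  sum_union h

lemma V_sdiff {D E : Finset ℕ} (h : E ⊆ D) (q : ℕ) : V (D \ E) q + V E q = V D q :=
  sum_sdiff h

lemma V_mono {D E : Finset ℕ} (h : E ⊆ D) (q : ℕ) : V E q ≤ V D q :=
  sum_le_sum_of_subset h

/-- image of a set under multiplication by `a ≠ 0` -/
lemma V_image {a : ℕ} (ha : a ≠ 0) {T : Finset ℕ} (hT : ∀ v ∈ T, v ≠ 0) (q : ℕ) :
    V (T.image (a * ·)) q = T.card * a.factorization q + V T q := by
  unfold V
  rw [sum_image (fun x _ y _ h => Nat.eq_of_mul_eq_mul_left (Nat.pos_of_ne_zero ha) h)]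
  rw [sum_congr rfl (g := fun v => a.factorization q + v.factorization q)]
  · rw [sum_add_distrib, sum_const, smul_eq_mul]
  · intro v hv
    rw [Nat.factorization_mul ha (hT v hv)]
    rfl

/-- the number of elements of the window `(y, y+h]` that are divisible by `a` but not in `D` -/
def miss (D : Finset ℕ) (y h a : ℕ) : ℕ := ((Ioc y (y + h)).filter fun b => a ∣ b ∧ b ∉ D).card

lemma miss_le (D D' : Finset ℕ) (y h a : ℕ) :
    miss D' y h a ≤ miss D y h a + (D \ D').card := by
  unfold miss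
  refine (card_le_card (t := ((Ioc y (y + h)).filter fun b => a ∣ b ∧ b ∉ D) ∪ (D \ D')) ?_).trans
    (card_union_le _ _)
  intro b hb
  rw [mem_filter] at hb
  rw [mem_union, mem_filter, mem_sdiff]
  tauto

/-- One exchange step. -/
lemma swap_step (D : Finset ℕ) {a a' : ℕ} (ha : a ≠ 0) (ha' : a' ≠ 0) (y h N : ℕ)
    (Z : Finset ℕ) (hZ : ∀ v, a * v ∈ Ioc y (y + h) → a' * v ∈ Z)
    (hcap : N + miss D y h a + (D ∩ Z).card ≤ h / a) :
    ∃ D' : Finset ℕ, D' ⊆ D ∪ Z ∧ D \ D' ⊆ Ioc y (y + h) ∧ (D \ D').card ≤ N ∧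
      (D' ∩ Z).card ≤ (D ∩ Z).card + N ∧
      ∀ q, V D' q + N * a.factorization q = V D q + N * a'.factorization q := by
  -- the candidates
  set I := Ioc (y / a) ((y + h) / a) with hI
  have hapos : 0 < a := Nat.pos_of_ne_zero ha
  have hmemI : ∀ v ∈ I, a * v ∈ Ioc y (y + h) := by
    intro v hv
    rw [hI, mem_Ioc] at hv
    rw [mem_Ioc]
    constructor
    · rw [mul_comm]; exact (Nat.div_lt_iff_lt_mul hapos).1 hv.1
    · rw [mul_comm]; exact (Nat.le_div_iff_mul_le hapos).1 hv.2
  have hcardI : h / a ≤ I.card := by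
    rw [hI, Nat.card_Ioc]
    have : y / a + h / a ≤ (y + h) / a := Nat.div_add_div_le_add_div
    exact Nat.le_sub_of_add_le (by rw [add_comm]; exact this)
  have hv0 : ∀ v ∈ I, v ≠ 0 := by
    intro v hv
    rw [hI, mem_Ioc] at hv
    exact Nat.ne_of_gt (lt_of_le_of_lt (Nat.zero_le _) hv.1)
  have hinj : Function.Injective (a * · : ℕ → ℕ) := fun x y hxy =>
    Nat.eq_of_mul_eq_mul_left hapos hxy
  have hinj' : Function.Injective (a' * · : ℕ → ℕ) := fun x y hxy =>
    Nat.eq_of_mul_eq_mul_left (Nat.pos_of_ne_zero ha') hxy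
  set good := I.filter (fun v => a * v ∈ D ∧ a' * v ∉ D) with hgood
  have hbad1 : (I.filter (fun v => a * v ∉ D)).card ≤ miss D y h a := by
    unfold miss
    rw [← card_image_of_injective _ hinj]
    apply card_le_card
    intro b hb
    rw [mem_image] at hb
    obtain ⟨v, hv, rfl⟩ := hb
    rw [mem_filter] at hv ⊢
    exact ⟨hmemI v hv.1, dvd_mul_right a v, hv.2⟩
  have hbad2 : (I.filter (fun v => a' * v ∈ D)).card ≤ (D ∩ Z).card := by
    rw [← card_image_of_injective _ hinj']
    apply card_le_card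
    intro b hb
    rw [mem_image] at hb
    obtain ⟨v, hv, rfl⟩ := hb
    rw [mem_filter] at hv
    rw [mem_inter]
    exact ⟨hv.2, hZ v (hmemI v hv.1)⟩
  have hsub : I ⊆ good ∪ (I.filter (fun v => a * v ∉ D) ∪ I.filter (fun v => a' * v ∈ D)) := by
    intro v hv
    rw [mem_union, mem_union, hgood, mem_filter, mem_filter, mem_filter]
    tauto
  have hcardgood : N ≤ good.card := by
    have h1 := card_le_card hsub
    have h2 := card_union_le good (I.filter (fun v => a * v ∉ D) ∪ I.filter (fun v => a' * v ∈ D))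
    have h3 := card_union_le (I.filter (fun v => a * v ∉ D)) (I.filter (fun v => a' * v ∈ D))
    omega
  obtain ⟨T, hTsub, hTcard⟩ := exists_subset_card_eq hcardgood
  have hTmem : ∀ v ∈ T, v ∈ I ∧ a * v ∈ D ∧ a' * v ∉ D := fun v hv => by
    have := hTsub hv
    rw [hgood, mem_filter] at this
    exact this
  have hR : T.image (a * ·) ⊆ D := by
    intro b hb
    rw [mem_image] at hb
    obtain ⟨v, hv, rfl⟩ := hb
    exact (hTmem v hv).2.1
  have hA : T.image (a' * ·) ⊆ Z := by
    intro b hb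
    rw [mem_image] at hb
    obtain ⟨v, hv, rfl⟩ := hb
    exact hZ v (hmemI v (hTmem v hv).1)
  have hcR : (T.image (a * ·)).card = N := by rw [card_image_of_injective _ hinj, hTcard]
  have hcA : (T.image (a' * ·)).card = N := by rw [card_image_of_injective _ hinj', hTcard]
  refine ⟨(D \ T.image (a * ·)) ∪ T.image (a' * ·), ?_, ?_, ?_, ?_, ?_⟩
  · intro b hb
    rw [mem_union, mem_sdiff] at hb
    rw [mem_union]
    rcases hb with hb | hb
    · exact Or.inl hb.1
    · exact Or.inr (hA hb)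
  · intro b hb
    rw [mem_sdiff, mem_union, mem_sdiff] at hb
    have hb2 : b ∈ T.image (a * ·) := by tauto
    rw [mem_image] at hb2
    obtain ⟨v, hv, rfl⟩ := hb2
    exact hmemI v (hTmem v hv).1
  · rw [← hcR]
    apply card_le_card
    intro b hb
    rw [mem_sdiff, mem_union, mem_sdiff] at hb
    tauto
  · rw [← hcA]
    refine (card_le_card (t := (D ∩ Z) ∪ T.image (a' * ·)) ?_).trans (card_union_le _ _)
    intro b hb
    rw [mem_inter, mem_union, mem_sdiff] at hb
    rw [mem_union, mem_inter]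
    tauto
  · intro q
    have hdis : Disjoint (D \ T.image (a * ·)) (T.image (a' * ·)) := by
      rw [disjoint_right]
      intro b hb hb2
      rw [mem_image] at hb
      obtain ⟨v, hv, rfl⟩ := hb
      exact (hTmem v hv).2.2 (mem_sdiff.1 hb2).1
    rw [V_union hdis]
    have h1 := V_sdiff hR q
    have h2 := V_image ha (T := T) (fun v hv => hv0 v (hTmem v hv).1) q
    have h3 := V_image ha' (T := T) (fun v hv => hv0 v (hTmem v hv).1) q
    rw [hTcard] at h2 h3
    omega

/-- A batch of exchanges `r ↔ s r`, `r ∈ R`. -/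
lemma swap_batch (s : ℕ → ℕ) (d : ℕ → ℤ) (yp ym h Mi Z0 : ℕ) (Z : Finset ℕ)
    (D : Finset ℕ) (hZ0 : (D ∩ Z).card ≤ Z0) (R : Finset ℕ)
    (hr0 : ∀ r ∈ R, r ≠ 0 ∧ r ≤ s r)
    (hZp : ∀ r ∈ R, ∀ v, r * v ∈ Ioc yp (yp + h) → s r * v ∈ Z)
    (hZm : ∀ r ∈ R, ∀ v, s r * v ∈ Ioc ym (ym + h) → r * v ∈ Z)
    (hmp : ∀ r ∈ R, miss D yp h r ≤ Mi) (hmm : ∀ r ∈ R, miss D ym h (s r) ≤ Mi)
    (hcap : ∀ r ∈ R, Mi + Z0 + 3 * ∑ r ∈ R, (d r).natAbs ≤ h / s r) :
    ∃ D' : Finset ℕ, D' ⊆ D ∪ Z ∧ D \ D' ⊆ Ioc yp (yp + h) ∪ Ioc ym (ym + h) ∪ Z ∧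
      (D \ D').card ≤ ∑ r ∈ R, (d r).natAbs ∧
      (D' ∩ Z).card ≤ (D ∩ Z).card + ∑ r ∈ R, (d r).natAbs ∧
      ∀ q, (V D' q : ℤ) = V D q +
        ∑ r ∈ R, d r * ((r.factorization q : ℤ) - ((s r).factorization q : ℤ)) := by
  induction R using Finset.induction_on with
  | empty => exact ⟨D, subset_union_left, by simp, by simp, by simp, by simp⟩
  | insert r R hrR ih =>
    rw [sum_insert hrR] at hcap
    obtain ⟨D1, h1, h2, h3, h4, h5⟩ := ih (fun r hr => hr0 r (mem_insert_of_mem hr))
      (fun r hr => hZp r (mem_insert_of_mem hr)) (fun r hr => hZm r (mem_insert_of_mem hr))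
      (fun r hr => hmp r (mem_insert_of_mem hr)) (fun r hr => hmm r (mem_insert_of_mem hr))
      (fun r' hr' => (by
        have := hcap r' (mem_insert_of_mem hr')
        omega))
    have hcr := hcap r (mem_insert_self r R)
    obtain ⟨hr1, hr2⟩ := hr0 r (mem_insert_self r R)
    have hsr : s r ≠ 0 := by omega
    have hdiv : h / s r ≤ h / r := Nat.div_le_div_left hr2 (Nat.pos_of_ne_zero hr1)
    -- the step
    have key : ∃ D' : Finset ℕ, D' ⊆ D1 ∪ Z ∧
        D1 \ D' ⊆ Ioc yp (yp + h) ∪ Ioc ym (ym + h) ∧ (D1 \ D').card ≤ (d r).natAbs ∧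
        (D' ∩ Z).card ≤ (D1 ∩ Z).card + (d r).natAbs ∧
        ∀ q, (V D' q : ℤ) = V D1 q +
          d r * ((r.factorization q : ℤ) - ((s r).factorization q : ℤ)) := by
      rcases le_total 0 (d r) with hd | hd
      · obtain ⟨D', g1, g2, g3, g4, g5⟩ := swap_step D1 hsr hr1 ym h (d r).natAbs Z
          (hZm r (mem_insert_self r R)) (by
            have e1 := miss_le D D1 ym h (s r)
            have e2 := hmm r (mem_insert_self r R)
            omega)
        refine ⟨D', g1, g2.trans subset_union_right, g3, g4, fun q => ?_⟩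
        have e := g5 q
        have e' : (V D' q : ℤ) + (d r).natAbs * (s r).factorization q =
          V D1 q + (d r).natAbs * r.factorization q := by exact_mod_cast e
        rw [Int.natAbs_of_nonneg hd] at e'
        linarith
      · obtain ⟨D', g1, g2, g3, g4, g5⟩ := swap_step D1 hr1 hsr yp h (d r).natAbs Z
          (hZp r (mem_insert_self r R)) (by
            have e1 := miss_le D D1 yp h r
            have e2 := hmp r (mem_insert_self r R)
            omega)
        refine ⟨D', g1, g2.trans subset_union_left, g3, g4, fun q => ?_⟩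
        have e := g5 q
        have e' : (V D' q : ℤ) + (d r).natAbs * r.factorization q =
          V D1 q + (d r).natAbs * (s r).factorization q := by exact_mod_cast e
        rw [Int.ofNat_natAbs_of_nonpos hd] at e'
        linarith
    obtain ⟨D', g1, g2, g3, g4, g5⟩ := key
    have hsd : D \ D' ⊆ (D \ D1) ∪ (D1 \ D') := by
      intro b hb
      rw [mem_sdiff] at hb
      rw [mem_union, mem_sdiff, mem_sdiff]
      tauto
    rw [sum_insert hrR]
    refine ⟨D', ?_, ?_, ?_, ?_, ?_⟩
    · intro b hb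
      have := g1 hb
      rw [mem_union] at this ⊢
      rcases this with h | h
      · have := h1 h
        rw [mem_union] at this
        exact this
      · exact Or.inr h
    · intro b hb
      have := hsd hb
      rw [mem_union] at this
      rcases this with h | h
      · exact h2 h
      · rw [mem_union]
        exact Or.inl (g2 h)
    · have := (card_le_card hsd).trans (card_union_le _ _)
      omega
    · omega
    · intro q
      rw [sum_insert hrR, g5 q, h5 q]
      ring

end H20.EGS
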