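import Pool.Agent.H20.EGS.Core
import Pool.Agent.H20.EGS.Large
import Pool.Agent.H20.EGS.Defs

/-!
# The upper bound for `f n`
-/

open Finset Filter Topology
open scoped Nat

namespace H20.EGS

/-- Assembly of a factorisation. -/
lemma f_le_of_removal {n x : ℕ} (hn : 3 ≤ n) {D : Finset ℕ}
    (hD : ∀ b ∈ D, n < b ∧ b ≤ 2 * n + x)
    (hV : ∀ q : ℕ, q.Prime → V D q = (Tg n x).factorization q) : f n ≤ 2 * n + x := by
  have hD0 : ∀ b ∈ D, b ≠ 0 := fun b hb => by have := hD b hb; omega
  have hprod : ∏ b ∈ D, b = Tg n x := by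
    apply Nat.eq_of_factorization_eq (prod_ne_zero_iff.2 hD0) Tg_ne
    intro q
    by_cases hq : q.Prime
    · rw [V_prod hD0, hV q hq]
    · rw [Nat.factorization_eq_zero_of_not_prime _ hq, Nat.factorization_eq_zero_of_not_prime _ hq]
  have hsub : D ⊆ Ioc n (2 * n + x) := fun b hb => mem_Ioc.2 (hD b hb)
  set S := Ioc n (2 * n + x) \ D with hS
  have h1 : (∏ b ∈ S, b) * ∏ b ∈ D, b = ∏ b ∈ Ioc n (2 * n + x), b := prod_sdiff hsub
  rw [hprod, ← prod_total] at h1
  have h2 : ∏ b ∈ S, b = n ! :=
    Nat.eq_of_mul_eq_mul_right (Nat.pos_of_ne_zero Tg_ne) h1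
  have hne : S.Nonempty := by
    rw [nonempty_iff_ne_empty]
    intro h0
    rw [h0, prod_empty] at h2
    have := Nat.lt_factorial_self hn
    omega
  have hmax : S.max' hne ≤ 2 * n + x := by
    have h3 : S.max' hne ∈ S := max'_mem S hne
    generalize S.max' hne = z at h3
    rw [hS, Finset.mem_sdiff, mem_Ioc] at h3
    exact h3.1.2
  refine (f_le ⟨S, ?_, max'_mem S hne, h2⟩).trans hmax
  intro a ha
  refine ⟨?_, le_max' S a ha⟩
  rw [hS, Finset.mem_sdiff, mem_Ioc] at ha
  exact ha.1.1

theorem upper {c : ℝ} (hc : cstar < c) :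
    ∀ᶠ n : ℕ in atTop, (f n : ℝ) ≤ 2 * n + c * (n / Real.log n) := by
  classical
  obtain ⟨K₁, η₀, A1, A2, s, hη0, hη01, hA, hs, hp, hU⟩ := assign hc
  have hcs : (0 : ℝ) < cstar := by rw [cstar_eq]; norm_num
  have hc0 : 0 < c := hcs.trans hc
  set η : ℝ := min (min η₀ (c / 2)) (1 / (c + 1)) with hη
  have hη_pos : 0 < η := by
    rw [hη]
    refine lt_min (lt_min hη0 (by linarith)) (by positivity)
  have hη_le0 : η ≤ η₀ := (min_le_left _ _).trans (min_le_left _ _)
  have hη_lec : η ≤ c / 2 := (min_le_left _ _).trans (min_le_right _ _)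
  have hη_lec1 : η ≤ 1 / (c + 1) := min_le_right _ _
  have hη1 : η ≤ 1 := hη_le0.trans hη01
  obtain ⟨K₀, hcore⟩ := core K₁ hη_pos hη1
  set K := K₀ + K₁ + 2 with hK
  have hK0 : 0 < K := by omega
  have hKr : (2 : ℝ) ≤ K := by exact_mod_cast (by omega : 2 ≤ K)
  obtain ⟨ε, hε, hcoreK⟩ := hcore K (by omega)
  set u : ℕ → ℝ := fun q => ∑ j ∈ range K, (s j * ((A1 j).factorization q : ℝ) +
    (w j - s j) * ((A2 j).factorization q : ℝ)) with hu
  have hu0 : ∀ q, 0 ≤ u q := by
    intro q
    apply sum_nonneg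
    intro j _
    have h1 := (hs j).1
    have h2 : 0 ≤ w j - s j := by linarith [(hs j).2]
    positivity
  have hUq : ∀ q : ℕ, q.Prime → ((q : ℝ) - 1) * u q ≤ (1 - η₀) * c := fun q hq => hU K q hq
  have hq1 : ∀ q : ℕ, q.Prime → (1 : ℝ) ≤ (q : ℝ) - 1 := by
    intro q hq
    have : (2 : ℝ) ≤ q := by exact_mod_cast hq.two_le
    linarith
  have hu1 : ∀ q : ℕ, q.Prime → u q ≤ c := by
    intro q hq
    have h1 := hUq q hq
    have h2 : u q ≤ ((q : ℝ) - 1) * u q := by nlinarith [hu0 q, hq1 q hq]
    nlinarith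
  set ph : ℕ → ℝ := fun q => if q.Prime then 1 - ((q : ℝ) - 1) * u q / c else 1 with hph
  have hph1 : ∀ q, η ≤ ph q ∧ ph q ≤ 1 := by
    intro q
    simp only [hph]
    split_ifs with hq
    · have h1 := hUq q hq
      have h2 : ((q : ℝ) - 1) * u q / c ≤ 1 - η₀ := by
        rw [div_le_iff₀ hc0]; exact h1
      have h3 : 0 ≤ ((q : ℝ) - 1) * u q / c :=
        div_nonneg (mul_nonneg (by linarith [hq1 q hq]) (hu0 q)) hc0.le
      constructor <;> linarith
    · exact ⟨hη1, le_rfl⟩
  have hph2 : ∀ q, K₁ < q → ph q = 1 := by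
    intro q hqK
    simp only [hph]
    split_ifs with hq
    · have : u q = 0 := by
        simp only [hu]
        apply sum_eq_zero
        intro j _
        have e1 : (A1 j).factorization q = 0 := by
          apply Nat.factorization_eq_zero_of_not_dvd
          intro h
          have := hp j q hq (Or.inl h)
          omega
        have e2 : (A2 j).factorization q = 0 := by
          apply Nat.factorization_eq_zero_of_not_dvd
          intro h
          have := hp j q hq (Or.inr h)
          omega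
        rw [e1, e2]
        simp
      rw [this]
      simp
    · rfl
  set ε₂ : ℝ := min ε (η / (8 * K)) with hε₂
  have hε₂0 : 0 < ε₂ := lt_min hε (by positivity)
  set τ : ℝ := ε₂ * c / 16 with hτ
  have hτ0 : 0 < τ := by positivity
  obtain ⟨δ, hδ, hbad⟩ := bad_small K (ε := τ / (4 * K)) (by positivity)
  have hlim : ∀ᶠ n : ℕ in atTop, ∀ q ∈ (range (2 * K + 1)).filter Nat.Prime,
      |(V (LE A1 A2 s n K) q : ℝ) * Real.log n / n - u q| < τ := by
    rw [Filter.eventually_all_finset]
    intro q hq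
    rw [mem_filter] at hq
    have := LE_limit (K := K) hA hs hp hq.2
    have h2 := (Metric.tendsto_nhds.1 this) τ hτ0
    simpa only [Real.dist_eq] using h2
  filter_upwards [hcoreK, hbad, hlim, eventually_ge_atTop (4000 + K * K₁ + 2 * K * K + K * (2 * K)),
    div_log_small c (δ := min δ (1 / K)) (by positivity), pow_log_le 1 0 (ε := c / 2) (by linarith),
    pow_log_le 1 0 hτ0, log_small 2 hτ0] with n hC hB hL hn hxs hc2 hτ1 hlog2
  have hn3 : 3 ≤ n := by omega
  have hnr : (3 : ℝ) ≤ n := by exact_mod_cast hn3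
  have hnr0 : (0 : ℝ) < n := by linarith
  have hlog : 0 < Real.log n := Real.log_pos (by linarith)
  set L : ℝ := n / Real.log n with hLdef
  have hL0 : 0 < L := by positivity
  rw [pow_zero, mul_one] at hc2 hτ1
  set x : ℕ := ⌊c * L⌋₊ with hx
  have hx1 : (x : ℝ) ≤ c * L := Nat.floor_le (by positivity)
  have hx2 : c * L < x + 1 := Nat.lt_floor_add_one _
  have hx3 : c / 2 * L ≤ x := by linarith
  have hxδ : (x : ℝ) ≤ δ * n := hx1.trans (hxs.trans
    (mul_le_mul_of_nonneg_right (min_le_left _ _) hnr0.le))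
  have hxK : (x : ℝ) ≤ 1 / K * n := hx1.trans (hxs.trans
    (mul_le_mul_of_nonneg_right (min_le_right _ _) hnr0.le))
  have hxK' : K * x ≤ n := by
    have : (K : ℝ) * x ≤ n := by
      calc (K : ℝ) * x ≤ K * (1 / K * n) := mul_le_mul_of_nonneg_left hxK (by linarith)
        _ = n := by field_simp
    exact_mod_cast this
  have hxn : x ≤ n := by
    calc x = 1 * x := (one_mul x).symm
      _ ≤ K * x := Nat.mul_le_mul_right x hK0
      _ ≤ n := hxK'
  have hKK₁ : K * K₁ ≤ n := by omega
  have hx0 : (0 : ℝ) ≤ x := Nat.cast_nonneg _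
  -- the final inequality
  suffices hmain : f n ≤ 2 * n + x by
    have : (f n : ℝ) ≤ 2 * n + x := by exact_mod_cast hmain
    linarith
  set D₁ := Bad n K (2 * n) x with hD₁
  set D₂ := LE A1 A2 s n K with hD₂
  have hD₁card : (D₁.card : ℝ) ≤ τ / (4 * K) * L := hB (2 * n) x (by omega) (by omega) hxδ
  -- estimates for small primes
  have hest : ∀ q : ℕ, q.Prime → q ≤ 2 * K →
      |((Tg n x).factorization q : ℝ) - V D₁ q - V D₂ q - ph q * x / (q - 1)| ≤ ε₂ * x / 2 := by
    intro q hq hqK
    have hq1' := hq1 q hq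
    have h1 := Tg_bound hq hxn
    have h1' : (Nat.log q (3 * n) : ℝ) ≤ Nat.log 2 (3 * n) := by
      exact_mod_cast Nat.log_anti_left (by norm_num) hq.two_le
    have h2 : |((Tg n x).factorization q : ℝ) - x / (q - 1)| ≤ τ * L := by
      refine h1.trans (le_trans ?_ hlog2)
      linarith
    have hKq : K * q ≤ n := by
      calc K * q ≤ K * (2 * K) := Nat.mul_le_mul_left K hqK
        _ ≤ n := by omega
    have h3 : (V D₁ q : ℝ) ≤ τ * L := by
      have e1 : V D₁ q ≤ D₁.card * (4 * K) :=
        V_bad_le (by omega) hq hKq (subset_refl _)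
      have e2 : (V D₁ q : ℝ) ≤ D₁.card * (4 * K) := by exact_mod_cast e1
      refine e2.trans ?_
      calc (D₁.card : ℝ) * (4 * K) ≤ (τ / (4 * K) * L) * (4 * K) :=
            mul_le_mul_of_nonneg_right hD₁card (by positivity)
        _ = τ * L := by field_simp
    have h4 : |(V D₂ q : ℝ) - u q * L| ≤ τ * L := by
      have e1 := hL q (by rw [mem_filter, mem_range]; exact ⟨by omega, hq⟩)
      have e2 : (V D₂ q : ℝ) - u q * L = ((V D₂ q : ℝ) * Real.log n / n - u q) * L := by
        rw [hLdef]
        field_simp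
      rw [e2, abs_mul, abs_of_pos hL0]
      exact mul_le_mul_of_nonneg_right e1.le hL0.le
    have h5 : |u q * L - u q * x / c| ≤ 1 := by
      have e1 : u q * L - u q * x / c = u q / c * (c * L - x) := by field_simp
      rw [e1, abs_mul, abs_of_nonneg (div_nonneg (hu0 q) hc0.le), abs_of_nonneg (by linarith)]
      have e2 : u q / c ≤ 1 := (div_le_one hc0).2 (hu1 q hq)
      have e3 : 0 ≤ u q / c := div_nonneg (hu0 q) hc0.le
      calc u q / c * (c * L - x) ≤ 1 * 1 :=
            mul_le_mul e2 (by linarith) (by linarith) zero_le_one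
        _ = 1 := one_mul 1
    have h6 : ph q * x / (q - 1) = x / (q - 1) - u q * x / c := by
      simp only [hph]
      rw [if_pos hq]
      have : (q : ℝ) - 1 ≠ 0 := by linarith
      field_simp
    have h7 : (0 : ℝ) ≤ V D₁ q := Nat.cast_nonneg _
    have h8 : 4 * (τ * L) ≤ ε₂ * x / 2 := by
      rw [hτ]
      have : ε₂ * (c / 2 * L) ≤ ε₂ * x := mul_le_mul_of_nonneg_left hx3 hε₂0.le
      linarith
    rw [h6]
    rw [abs_le] at h2 h4 h5 ⊢
    constructor <;> linarith [h2.1, h2.2, h4.1, h4.2, h5.1, h5.2]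
  have hsub : ∀ q : ℕ, q.Prime → K * q ≤ n → V D₁ q + V D₂ q ≤ (Tg n x).factorization q := by
    intro q hq hKq
    by_cases hqK : q ≤ 2 * K
    · have h1 := (abs_le.1 (hest q hq hqK)).1
      have hq1' := hq1 q hq
      have h2 : η / (2 * K) * x ≤ ph q * x / (q - 1) := by
        have e1 : (q : ℝ) - 1 ≤ 2 * K := by
          have : (q : ℝ) ≤ 2 * K := by exact_mod_cast hqK
          linarith
        rw [div_mul_eq_mul_div]
        apply div_le_div₀
        · exact mul_nonneg (hη_pos.le.trans (hph1 q).1) hx0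
        · exact mul_le_mul_of_nonneg_right (hph1 q).1 hx0
        · linarith
        · exact e1
      have h3 : ε₂ * x / 2 ≤ η / (2 * K) * x := by
        have e1 : ε₂ ≤ η / (8 * K) := min_le_right _ _
        have e2 : η / (8 * K) ≤ η / (2 * K) := by
          apply div_le_div_of_nonneg_left hη_pos.le (by positivity) (by linarith)
        have e3 : ε₂ * x ≤ η / (2 * K) * x := mul_le_mul_of_nonneg_right (e1.trans e2) hx0
        have e4 : 0 ≤ ε₂ * x := by positivity
        linarith
      have h4 : (V D₁ q : ℝ) + V D₂ q ≤ (Tg n x).factorization q := by linarith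
      exact_mod_cast h4
    · have h1 : V D₂ q = 0 := LE_V_mid hA hp hKK₁ hq hKq (by omega)
      rw [h1, add_zero, Tg_fact]
      exact (V_mono (by
        intro b hb
        rw [hD₁, mem_Bad] at hb
        rw [mem_Ioc]
        exact hb.1) q).trans (Nat.le_add_right _ _)
  set e : ℕ → ℕ := fun q => (Tg n x).factorization q - V D₁ q - V D₂ q with he
  have heq : ∀ q : ℕ, q.Prime → K * q ≤ n →
      (e q : ℝ) = ((Tg n x).factorization q : ℝ) - V D₁ q - V D₂ q := by
    intro q hq hKq
    have h1 := hsub q hq hKq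
    simp only [he]
    rw [Nat.cast_sub (by omega), Nat.cast_sub (by omega)]
  have hmid0 : ∀ q : ℕ, q.Prime → 2 * K < q → K * q ≤ n → V D₁ q = 0 ∧ V D₂ q = 0 := by
    intro q hq hqK hKq
    refine ⟨?_, LE_V_mid hA hp hKK₁ hq hKq (by omega)⟩
    refine V_bad_zero ?_ (by omega) hq hKq hqK (subset_refl _)
    have : K * (2 * n + x) = 2 * (K * n) + K * x := by ring
    have h2 : (2 * K + 1) * n = 2 * (K * n) + n := by ring
    omega
  obtain ⟨D₃, hD₃r, hD₃V⟩ := hC x (by
      have : η * L ≤ c / 2 * L := mul_le_mul_of_nonneg_right hη_lec hL0.le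
      linarith) (by
      have h1 : c ≤ 1 / η := by
        rw [le_div_iff₀ hη_pos]
        calc c * η ≤ c * (1 / (c + 1)) := mul_le_mul_of_nonneg_left hη_lec1 hc0.le
          _ ≤ 1 := by rw [mul_one_div, div_le_one (by positivity)]; linarith
      exact hx1.trans (mul_le_mul_of_nonneg_right h1 hL0.le)) e ph hph1 hph2 (by
      intro q hq hqK
      have hKq : K * q ≤ n := by
        calc K * q ≤ K * (2 * K) := Nat.mul_le_mul_left K hqK
          _ ≤ n := by omega
      rw [heq q hq hKq]
      refine (hest q hq hqK).trans ?_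
      have e1 : ε₂ ≤ ε := min_le_left _ _
      have e2 : ε₂ * x ≤ ε * x := mul_le_mul_of_nonneg_right e1 hx0
      have e3 : 0 ≤ ε₂ * x := by positivity
      linarith) (by
      intro q hq hqK hKq
      obtain ⟨h1, h2⟩ := hmid0 q hq hqK hKq
      rw [heq q hq hKq, h1, h2]
      have h3 := Tg_bound hq hxn
      have h4 : (0 : ℝ) ≤ Nat.log q (3 * n) := Nat.cast_nonneg _
      push_cast
      rw [sub_zero, sub_zero]
      linarith)
  -- disjointness
  have hD₁r : ∀ b ∈ D₁, 2 * n < b ∧ b ≤ 2 * n + x := by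
    intro b hb
    rw [hD₁, mem_Bad] at hb
    exact hb.1
  have hD₂r : ∀ b ∈ D₂, n < b ∧ b ≤ 2 * n := fun b hb => LE_range hA hb
  have hd12 : Disjoint D₁ D₂ := by
    rw [disjoint_left]
    intro b h1 h2
    have := hD₁r b h1
    have := hD₂r b h2
    omega
  have hd3 : Disjoint (D₁ ∪ D₂) D₃ := by
    rw [disjoint_left]
    intro b hb h3
    rw [mem_union] at hb
    rcases hb with hb | hb
    · have := hD₁r b hb
      have := hD₃r b h3
      omega
    · rw [hD₂] at hb
      unfold LE at hb
      rw [mem_image] at hb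
      obtain ⟨p, hpL, hpb⟩ := hb
      rw [mem_LP] at hpL
      have h0 := hD₃V p hpL.1
      rw [if_neg (by omega)] at h0
      unfold V at h0
      rw [sum_eq_zero_iff] at h0
      have h1 := h0 b h3
      have hb0 : b ≠ 0 := by
        have := hD₃r b h3
        omega
      have h2 : p ∣ b := by rw [← hpb]; exact Dvd.intro _ rfl
      have h3 := hpL.1.factorization_pos_of_dvd hb0 h2
      omega
  apply f_le_of_removal hn3 (D := D₁ ∪ D₂ ∪ D₃)
  · intro b hb
    rw [mem_union, mem_union] at hb
    rcases hb with (hb | hb) | hb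
    · have := hD₁r b hb; omega
    · have := hD₂r b hb; omega
    · have := hD₃r b hb; omega
  · intro q hq
    rw [V_union hd3, V_union hd12, hD₃V q hq]
    by_cases hKq : K * q ≤ n
    · rw [if_pos hKq]
      have := hsub q hq hKq
      simp only [he]
      omega
    · rw [if_neg hKq, add_zero, Tg_fact]
      push Not at hKq
      have hn2 : 2 * n < q ^ 2 := by
        by_contra hcon
        push Not at hcon
        have h1 : n * n < (K * q) * (K * q) := Nat.mul_lt_mul'' hKq hKq
        have h2 : (K * q) * (K * q) = K * K * q ^ 2 := by ring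
        have h3 : K * K * q ^ 2 ≤ K * K * (2 * n) := Nat.mul_le_mul_left _ hcon
        have h4 : K * K * (2 * n) = 2 * K * K * n := by ring
        have h5 : 2 * K * K * n ≤ n * n := Nat.mul_le_mul_right n (by omega)
        omega
      rw [LE_V_large hA hp hKK₁ hq hKq hn2]
      congr 1
      -- the elements of the interval divisible by `q` are in `D₁`
      have hsubset : D₁ ⊆ Ioc (2 * n) (2 * n + x) := fun b hb => mem_Ioc.2 (hD₁r b hb)
      rw [← V_sdiff hsubset q]
      have hz : V (Ioc (2 * n) (2 * n + x) \ D₁) q = 0 := by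
        unfold V
        apply sum_eq_zero
        intro b hb
        apply Nat.factorization_eq_zero_of_not_dvd
        intro hdvd
        rw [Finset.mem_sdiff, mem_Ioc] at hb
        apply hb.2
        rw [hD₁, mem_Bad]
        exact ⟨hb.1, q, hq, hdvd, hKq⟩
      omega

/-- The limit theorem. -/
theorem limit : Tendsto (fun n : ℕ => ((f n : ℝ) - 2 * n) * Real.log n / n) atTop (𝓝 cstar) := by
  rw [tendsto_order]
  constructor
  · intro a ha
    obtain ⟨c', h1, h2⟩ := exists_between ha
    filter_upwards [lower h2, eventually_ge_atTop 3] with n hn hn3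
    have hnr : (3 : ℝ) ≤ n := by exact_mod_cast hn3
    have hnr0 : (0 : ℝ) < n := by linarith
    have hlog : 0 < Real.log n := Real.log_pos (by linarith)
    have h3 := hn (f n) (adm_f hn3)
    refine lt_of_lt_of_le h1 ?_
    rw [le_div_iff₀ hnr0, ← div_le_iff₀ hlog]
    calc c' * n / Real.log n = c' * (n / Real.log n) := by ring
      _ ≤ _ := h3
  · intro a ha
    obtain ⟨c, h1, h2⟩ := exists_between ha
    filter_upwards [upper h1, eventually_ge_atTop 3] with n hn hn3
    have hnr : (3 : ℝ) ≤ n := by exact_mod_cast hn3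
    have hnr0 : (0 : ℝ) < n := by linarith
    have hlog : 0 < Real.log n := Real.log_pos (by linarith)
    refine lt_of_le_of_lt ?_ h2
    rw [div_le_iff₀ hnr0, ← le_div_iff₀ hlog]
    calc (f n : ℝ) - 2 * n ≤ c * (n / Real.log n) := by linarith
      _ = c * n / Real.log n := by ring

end H20.EGS
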