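import Pool.Agent.H20.EGS.Bad

/-!
# The initial configuration: windows with prescribed content at the small primes
-/

open Finset Filter Topology

namespace H20.EGS

open Classical in
/-- smooth window -/
noncomputable def WinS (n K M y h : ℕ) : Finset ℕ := (Win M y h).filter fun b => Sm n K b

lemma mem_WinS {n K M y h b : ℕ} : b ∈ WinS n K M y h ↔
    (y < b ∧ b ≤ y + h) ∧ M.Coprime b ∧ Sm n K b := by
  classical
  unfold WinS Win
  rw [mem_filter, mem_filter, mem_Ioc]
  tauto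

lemma WinS_sub {n K M y h : ℕ} : WinS n K M y h ⊆ Win M y h := by
  classical
  unfold WinS
  exact filter_subset _ _

lemma V_winS_dvd {n K M y h q : ℕ} (hqM : q ∣ M) (hq : q.Prime) : V (WinS n K M y h) q = 0 := by
  have h1 := V_win_dvd (y := y) (h := h) hqM hq
  have h2 := V_mono (WinS_sub (n := n) (K := K) (M := M) (y := y) (h := h)) q
  omega

lemma V_winS {n K M y h q : ℕ} (hM : 0 < M) (hq : q.Prime) (hqM : M.Coprime q)
    (hyn : y + h ≤ 3 * n) (hyn2 : K * (y + h) ≤ (2 * K + 1) * n) (hh : h ≤ n) (hn : 0 < n)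
    (hqn : K * q ≤ n) :
    |(V (WinS n K M y h) q : ℝ) - (M.totient : ℝ) / M * h / (q - 1)| ≤
      (M + 1) * Nat.log q (3 * n) + 1 +
        (if q ≤ 2 * K then (4 * K * (Bad n K y h).card : ℝ) else 0) := by
  have h1 := V_win hM hq hqM hyn hh hn
  have h2 := V_sdiff (WinS_sub (n := n) (K := K) (M := M) (y := y) (h := h)) q
  set T := Win M y h \ WinS n K M y h with hT
  have hTB : T ⊆ Bad n K y h := by
    intro b hb
    rw [hT, Finset.mem_sdiff, mem_WinS] at hb
    obtain ⟨hb1, hb2⟩ := hb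
    unfold Win at hb1
    rw [mem_filter, mem_Ioc] at hb1
    rw [mem_Bad]
    refine ⟨hb1.1, ?_⟩
    have h3 : ¬ Sm n K b := fun h => hb2 ⟨hb1.1, hb1.2, h⟩
    unfold Sm at h3
    push Not at h3
    exact h3
  have h3 : (V T q : ℝ) ≤ if q ≤ 2 * K then (4 * K * (Bad n K y h).card : ℝ) else 0 := by
    split_ifs with hq2
    · have h4 := V_bad_le (by omega) hq hqn hTB
      have h5 := card_le_card hTB
      have h6 : V T q ≤ (Bad n K y h).card * (4 * K) :=
        h4.trans (Nat.mul_le_mul_right _ h5)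
      have h7 : (V T q : ℝ) ≤ (Bad n K y h).card * (4 * K) := by exact_mod_cast h6
      linarith
    · rw [V_bad_zero hyn2 hn hq hqn (by omega) hTB]
      simp
  have h4 : (V T q : ℝ) + V (WinS n K M y h) q = V (Win M y h) q := by exact_mod_cast h2
  have h5 : (0 : ℝ) ≤ V T q := Nat.cast_nonneg _
  rw [abs_le] at h1 ⊢
  constructor <;> linarith [h1.1, h1.2]

lemma WinS_disjoint {n K M M' y h y' h' : ℕ} (hyy : y + h ≤ y') :
    Disjoint (WinS n K M y h) (WinS n K M' y' h') := by
  rw [disjoint_left]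
  intro b hb hb'
  rw [mem_WinS] at hb hb'
  omega

/-- product weights -/
noncomputable def lam (P : Finset ℕ) (φ : ℕ → ℝ) (S : Finset ℕ) : ℝ :=
  (∏ r ∈ S, (1 - φ r)) * ∏ r ∈ P \ S, φ r

lemma lam_nonneg {P : Finset ℕ} {φ : ℕ → ℝ} (hφ : ∀ r ∈ P, 0 ≤ φ r ∧ φ r ≤ 1) {S : Finset ℕ}
    (hS : S ⊆ P) : 0 ≤ lam P φ S := by
  unfold lam
  apply mul_nonneg
  · exact prod_nonneg fun r hr => by linarith [(hφ r (hS hr)).2]
  · exact prod_nonneg fun r hr => (hφ r (Finset.mem_sdiff.1 hr).1).1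

lemma lam_sum {P : Finset ℕ} {φ : ℕ → ℝ} : ∑ S ∈ P.powerset, lam P φ S = 1 := by
  unfold lam
  rw [← prod_add]
  simp

lemma lam_sum_not {P : Finset ℕ} {φ : ℕ → ℝ} {q : ℕ} (hq : q ∈ P) :
    ∑ S ∈ P.powerset.filter (fun S => q ∉ S), lam P φ S = φ q := by
  have h1 : P.powerset.filter (fun S => q ∉ S) = (P.erase q).powerset := by
    ext S
    rw [mem_filter, mem_powerset, mem_powerset, subset_erase]
  rw [h1]
  have h2 : ∀ S ∈ (P.erase q).powerset, lam P φ S = lam (P.erase q) φ S * φ q := by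
    intro S hS
    rw [mem_powerset, subset_erase] at hS
    unfold lam
    have h3 : P \ S = insert q ((P.erase q) \ S) := by
      ext r
      rw [mem_insert, Finset.mem_sdiff, Finset.mem_sdiff, mem_erase]
      by_cases hr : r = q
      · subst hr; tauto
      · tauto
    rw [h3, prod_insert (by
      rw [Finset.mem_sdiff, mem_erase]; tauto)]
    ring
  rw [sum_congr rfl h2, ← sum_mul, lam_sum, one_mul]

lemma lam_le_one {P : Finset ℕ} {φ : ℕ → ℝ} (hφ : ∀ r ∈ P, 0 ≤ φ r ∧ φ r ≤ 1) {S : Finset ℕ}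
    (hS : S ⊆ P) : lam P φ S ≤ 1 := by
  rw [← lam_sum (P := P) (φ := φ)]
  exact single_le_sum (f := lam P φ) (fun T hT => lam_nonneg hφ (mem_powerset.1 hT))
    (mem_powerset.2 hS)

/-- the special positions (in thousandths of `n`) -/
def Sp : Finset ℕ := {1005, 1600, 1620, 1700, 1740, 1940, 1980, 1990}

lemma Sp_bounds {c : ℕ} (hc : c ∈ Sp) : 1005 ≤ c ∧ c ≤ 1990 := by
  unfold Sp at hc
  simp only [mem_insert, mem_singleton] at hc
  omega

lemma Sp_gap {c c' : ℕ} (hc : c ∈ Sp) (hc' : c' ∈ Sp) (h : c < c') : c + 10 ≤ c' := by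
  unfold Sp at hc hc'
  simp only [mem_insert, mem_singleton] at hc hc'
  omega

lemma Sp_away {c : ℕ} (hc : c ∈ Sp) : c ≤ 1740 ∨ 1940 ≤ c := by
  unfold Sp at hc
  simp only [mem_insert, mem_singleton] at hc
  omega

lemma Sp_card : Sp.card = 8 := by decide

/-- the mass of a tuned window -/
lemma mass_approx {M : ℕ} (hM : 0 < M) {μ : ℝ} (hμ : 0 ≤ μ) :
    |(M.totient : ℝ) / M * ⌊μ * (M / M.totient)⌋₊ - μ| ≤ 1 := by
  have hMr : (0 : ℝ) < M := by exact_mod_cast hM
  have ht : 0 < M.totient := Nat.totient_pos.2 hM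
  have htr : (0 : ℝ) < M.totient := by exact_mod_cast ht
  have htM : (M.totient : ℝ) ≤ M := by exact_mod_cast Nat.totient_le M
  have h1 := Nat.floor_le (show 0 ≤ μ * (M / M.totient) by positivity)
  have h2 := Nat.lt_floor_add_one (μ * ((M : ℝ) / M.totient))
  set F : ℝ := (⌊μ * ((M : ℝ) / M.totient)⌋₊ : ℝ)
  have h3 : (M.totient : ℝ) / M ≤ 1 := by rw [div_le_one hMr]; exact htM
  have h4 : 0 < (M.totient : ℝ) / M := by positivity
  have h5 : (M.totient : ℝ) / M * (μ * (M / M.totient)) = μ := by field_simp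
  rw [abs_le]
  constructor
  · have : (M.totient : ℝ) / M * (μ * (M / M.totient)) ≤ (M.totient : ℝ) / M * (F + 1) :=
      mul_le_mul_of_nonneg_left h2.le h4.le
    rw [h5] at this
    linarith
  · have : (M.totient : ℝ) / M * F ≤ (M.totient : ℝ) / M * (μ * (M / M.totient)) :=
      mul_le_mul_of_nonneg_left h1 h4.le
    rw [h5] at this
    linarith

/-- length of the tuned window -/
noncomputable def hS (P : Finset ℕ) (φ : ℕ → ℝ) (x' : ℝ) (S : Finset ℕ) : ℕ :=
  ⌊lam P φ S * x' * (((∏ r ∈ S, r : ℕ) : ℝ) / (∏ r ∈ S, r).totient)⌋₊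

/-- position of the tuned window -/
def yS (n u : ℕ) (S : Finset ℕ) : ℕ := 1850 * n / 1000 + Encodable.encode S * u

/-- the initial configuration -/
noncomputable def D0 (n K hsp u : ℕ) (P : Finset ℕ) (φ : ℕ → ℝ) (x' : ℝ) : Finset ℕ :=
  (Sp.biUnion fun c => WinS n K 1 (c * n / 1000) hsp) ∪
    (P.powerset.biUnion fun S => WinS n K (∏ r ∈ S, r) (yS n u S) (hS P φ x' S))

lemma pos_gap {n c c' hsp : ℕ} (hc : c ∈ Sp) (hc' : c' ∈ Sp) (h : c < c') (hn : hsp + 1 ≤ n / 100) :
    c * n / 1000 + hsp ≤ c' * n / 1000 := by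
  have h1 := Sp_gap hc hc' h
  have h2 : (c + 10) * n ≤ c' * n := Nat.mul_le_mul_right n h1
  have h3 : (c + 10) * n = c * n + 10 * n := by ring
  omega

lemma yS_gap {n u hh : ℕ} {S S' : Finset ℕ} (h : Encodable.encode S < Encodable.encode S')
    (hu : hh ≤ u) : yS n u S + hh ≤ yS n u S' := by
  unfold yS
  have h1 : (Encodable.encode S + 1) * u ≤ Encodable.encode S' * u := Nat.mul_le_mul_right u h
  have h2 : (Encodable.encode S + 1) * u = Encodable.encode S * u + u := by ring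
  omega

lemma pos_upper {n c hsp : ℕ} (hc : c ≤ 1990) (hn : hsp + 1 ≤ n / 100) :
    c * n / 1000 + hsp ≤ 2 * n := by
  have : c * n ≤ 1990 * n := Nat.mul_le_mul_right n hc
  omega

lemma yS_upper {n u N0 : ℕ} {S : Finset ℕ} (hS : Encodable.encode S < N0)
    (hu : N0 * u ≤ n / 25) {hh : ℕ} (hh' : hh ≤ u) :
    1000 * (yS n u S + hh) ≤ 1890 * n := by
  unfold yS
  have h1 : (Encodable.encode S + 1) * u ≤ N0 * u := Nat.mul_le_mul_right u hS
  have h2 : (Encodable.encode S + 1) * u = Encodable.encode S * u + u := by ring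
  omega

/-- Approximate content of the initial configuration. -/
lemma V_D0 {n K hsp u N0 : ℕ} {P : Finset ℕ} {φ : ℕ → ℝ} {x' : ℝ} (hP : ∀ r ∈ P, r.Prime)
    (hφ : ∀ r ∈ P, 0 ≤ φ r ∧ φ r ≤ 1) (hx' : 0 ≤ x')
    (hsp1 : hsp + 1 ≤ n / 100) (hN0 : ∀ S ∈ P.powerset, Encodable.encode S < N0)
    (hu : N0 * u ≤ n / 25) (hu2 : ∀ S ∈ P.powerset, hS P φ x' S ≤ u) {q : ℕ} (hq : q.Prime)
    (hqn : K * q ≤ n) :
    |(V (D0 n K hsp u P φ x') q : ℝ) - (8 * hsp + (if q ∈ P then φ q else 1) * x') / (q - 1)| ≤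
      8 * (2 * Nat.log q (3 * n) + 1) +
      P.powerset.card * (((∏ r ∈ P, r : ℕ) + 1) * Nat.log q (3 * n) + 2) +
      (if q ≤ 2 * K then 4 * K * (∑ c ∈ Sp, ((Bad n K (c * n / 1000) hsp).card : ℝ) +
        ∑ S ∈ P.powerset, ((Bad n K (yS n u S) (hS P φ x' S)).card : ℝ)) else 0) := by
  classical
  have hn0 : 0 < n := by omega
  -- split
  have hdis : Disjoint (Sp.biUnion fun c => WinS n K 1 (c * n / 1000) hsp)
      (P.powerset.biUnion fun S => WinS n K (∏ r ∈ S, r) (yS n u S) (hS P φ x' S)) := by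
    rw [disjoint_left]
    intro b hb hb'
    rw [mem_biUnion] at hb hb'
    obtain ⟨c, hc, hb⟩ := hb
    obtain ⟨S, hS', hb'⟩ := hb'
    rw [mem_WinS] at hb hb'
    have h1 := yS_upper (n := n) (hN0 S hS') hu (hu2 S hS')
    have h2 : 1850 * n / 1000 ≤ yS n u S := Nat.le_add_right _ _
    rcases Sp_away hc with h | h
    · have : c * n ≤ 1740 * n := Nat.mul_le_mul_right n h
      omega
    · have : 1940 * n ≤ c * n := Nat.mul_le_mul_right n h
      omega
  have e1 : V (D0 n K hsp u P φ x') q = ∑ c ∈ Sp, V (WinS n K 1 (c * n / 1000) hsp) q +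
      ∑ S ∈ P.powerset, V (WinS n K (∏ r ∈ S, r) (yS n u S) (hS P φ x' S)) q := by
    unfold D0
    rw [V_union hdis]
    unfold V
    rw [sum_biUnion, sum_biUnion]
    · intro S hS S' hS' hne
      have hcode : Encodable.encode S ≠ Encodable.encode S' :=
        fun h => hne (Encodable.encode_injective h)
      rcases lt_or_gt_of_ne hcode with h | h
      · exact WinS_disjoint (yS_gap h (hu2 S hS))
      · exact (WinS_disjoint (yS_gap h (hu2 S' hS'))).symm
    · intro c hc c' hc' hne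
      rcases lt_or_gt_of_ne hne with h | h
      · exact WinS_disjoint (pos_gap hc hc' h hsp1)
      · exact (WinS_disjoint (pos_gap hc' hc h hsp1)).symm
  have hqr : (1 : ℝ) < q := by exact_mod_cast hq.one_lt
  have hq1 : (0 : ℝ) < q - 1 := by linarith
  have hq1' : 1 ≤ (q : ℝ) - 1 := by
    have : (2 : ℝ) ≤ q := by exact_mod_cast hq.two_le
    linarith
  -- special windows
  have b1 : |(∑ c ∈ Sp, (V (WinS n K 1 (c * n / 1000) hsp) q : ℝ)) - 8 * hsp / (q - 1)| ≤
      8 * (2 * Nat.log q (3 * n) + 1) + (if q ≤ 2 * K then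
        4 * K * (∑ c ∈ Sp, ((Bad n K (c * n / 1000) hsp).card : ℝ)) else 0) := by
    have h8 : (8 * hsp / ((q : ℝ) - 1)) = ∑ _c ∈ Sp, (hsp : ℝ) / (q - 1) := by
      rw [sum_const, Sp_card, nsmul_eq_mul]; push_cast; ring
    rw [h8, ← sum_sub_distrib]
    refine (abs_sum_le_sum_abs _ _).trans ?_
    have hterm : ∀ c ∈ Sp, |(V (WinS n K 1 (c * n / 1000) hsp) q : ℝ) - hsp / (q - 1)| ≤
        (2 * Nat.log q (3 * n) + 1) +
        (if q ≤ 2 * K then (4 * K * (Bad n K (c * n / 1000) hsp).card : ℝ) else 0) := by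
      intro c hc
      have hup := pos_upper (Sp_bounds hc).2 hsp1
      have := V_winS (K := K) (M := 1) one_pos hq (Nat.coprime_one_left q)
        (y := c * n / 1000) (h := hsp) (by omega) (by
          have : K * (c * n / 1000 + hsp) ≤ K * (2 * n) := Nat.mul_le_mul_left K hup
          have e : (2 * K + 1) * n = K * (2 * n) + n := by ring
          omega) (by omega) hn0 hqn
      simp only [Nat.totient_one, Nat.cast_one, div_one, one_mul] at this
      norm_num at this ⊢
      linarith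
    refine (sum_le_sum hterm).trans ?_
    rw [sum_add_distrib, sum_const, Sp_card, nsmul_eq_mul]
    push_cast
    apply add_le_add le_rfl
    split_ifs
    · rw [← mul_sum]
    · simp
  -- tuned windows
  have b2 : |(∑ S ∈ P.powerset, (V (WinS n K (∏ r ∈ S, r) (yS n u S) (hS P φ x' S)) q : ℝ)) -
      (if q ∈ P then φ q else 1) * x' / (q - 1)| ≤
      P.powerset.card * (((∏ r ∈ P, r : ℕ) + 1) * Nat.log q (3 * n) + 2) + (if q ≤ 2 * K then
        4 * K * (∑ S ∈ P.powerset, ((Bad n K (yS n u S) (hS P φ x' S)).card : ℝ)) else 0) := by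
    have hmain : (if q ∈ P then φ q else 1) * x' / ((q : ℝ) - 1) =
        ∑ S ∈ P.powerset, (if q ∈ S then 0 else lam P φ S * x' / (q - 1)) := by
      rw [sum_ite, sum_const_zero, zero_add]
      have h1 : ∑ S ∈ P.powerset.filter (fun S => q ∉ S), lam P φ S = if q ∈ P then φ q else 1 := by
        split_ifs with hqP
        · exact lam_sum_not hqP
        · rw [filter_true_of_mem, lam_sum]
          intro S hS hqS
          exact hqP ((mem_powerset.1 hS) hqS)
      rw [← h1, sum_mul, sum_div]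
    rw [hmain, ← sum_sub_distrib]
    refine (abs_sum_le_sum_abs _ _).trans ?_
    have hterm : ∀ S ∈ P.powerset,
        |(V (WinS n K (∏ r ∈ S, r) (yS n u S) (hS P φ x' S)) q : ℝ) -
          (if q ∈ S then 0 else lam P φ S * x' / (q - 1))| ≤
        (((∏ r ∈ P, r : ℕ) + 1) * Nat.log q (3 * n) + 2) +
        (if q ≤ 2 * K then (4 * K * (Bad n K (yS n u S) (hS P φ x' S)).card : ℝ) else 0) := by
      intro S hSP
      have hSP' := mem_powerset.1 hSP
      have hbadnn : (0 : ℝ) ≤ (if q ≤ 2 * K then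
        (4 * K * (Bad n K (yS n u S) (hS P φ x' S)).card : ℝ) else 0) := by
        split_ifs <;> positivity
      by_cases hqS : q ∈ S
      · rw [if_pos hqS, V_winS_dvd (dvd_prod_of_mem _ hqS) hq]
        simp only [Nat.cast_zero, sub_zero, abs_zero]
        positivity
      · rw [if_neg hqS]
        have hMpos : 0 < ∏ r ∈ S, r := prod_pos fun r hr => (hP r (hSP' hr)).pos
        have hMPpos : 0 < ∏ r ∈ P, r := prod_pos fun r hr => (hP r hr).pos
        have hMle : ∏ r ∈ S, r ≤ ∏ r ∈ P, r :=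
          Nat.le_of_dvd hMPpos (prod_dvd_prod_of_subset _ _ _ hSP')
        have hMler : ((∏ r ∈ S, r : ℕ) : ℝ) ≤ ((∏ r ∈ P, r : ℕ) : ℝ) := by exact_mod_cast hMle
        have hcop : (∏ r ∈ S, r).Coprime q := by
          apply Nat.Coprime.prod_left
          intro r hr
          exact (Nat.coprime_primes (hP r (hSP' hr)) hq).2 (fun h => hqS (h ▸ hr))
        have hup := yS_upper (n := n) (hN0 S hSP) hu (hu2 S hSP)
        have h1 := V_winS (K := K) hMpos hq hcop (y := yS n u S) (h := hS P φ x' S)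
          (by omega) (by
            have : K * (yS n u S + hS P φ x' S) ≤ K * (2 * n) := Nat.mul_le_mul_left K (by omega)
            have e : (2 * K + 1) * n = K * (2 * n) + n := by ring
            omega) (by
            have := hu2 S hSP
            have h3 : 1 ≤ N0 := by have := hN0 S hSP; omega
            have h4 : 1 * u ≤ N0 * u := Nat.mul_le_mul_right u h3
            omega) hn0 hqn
        have h2 := mass_approx hMpos (mul_nonneg (lam_nonneg hφ hSP') hx')
        have h3 : |((∏ r ∈ S, r).totient : ℝ) / ((∏ r ∈ S, r : ℕ) : ℝ) * (hS P φ x' S) / (q - 1) -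
            lam P φ S * x' / (q - 1)| ≤ 1 := by
          rw [← sub_div, abs_div, abs_of_pos hq1, div_le_one hq1]
          exact h2.trans hq1'
        have hlogn : (0 : ℝ) ≤ Nat.log q (3 * n) := Nat.cast_nonneg _
        have h4 : (((∏ r ∈ S, r : ℕ) : ℝ) + 1) * Nat.log q (3 * n) ≤
            (((∏ r ∈ P, r : ℕ) : ℝ) + 1) * Nat.log q (3 * n) :=
          mul_le_mul_of_nonneg_right (by linarith) hlogn
        rw [abs_le] at h1 h3 ⊢
        constructor <;> linarith [h1.1, h1.2, h3.1, h3.2]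
    refine (sum_le_sum hterm).trans ?_
    rw [sum_add_distrib, sum_const, nsmul_eq_mul]
    apply add_le_add le_rfl
    split_ifs
    · rw [← mul_sum]
    · simp
  rw [e1, Nat.cast_add, Nat.cast_sum, Nat.cast_sum]
  have e2 : (8 * (hsp : ℝ) + (if q ∈ P then φ q else 1) * x') / (q - 1) =
    8 * hsp / (q - 1) + (if q ∈ P then φ q else 1) * x' / (q - 1) := by rw [add_div]
  rw [e2]
  split_ifs at b1 b2 ⊢ <;>
  · rw [abs_le] at b1 b2 ⊢
    constructor <;> linarith [b1.1, b1.2, b2.1, b2.2]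

end H20.EGS
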